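import Pool.Agent.Seat68.RC.Enum

/-!
The universal machine.
-/

set_option autoImplicit false

namespace Pool.Agent.Seat68.RC

open Pool.Agent.Helper578.JD Encodable
open Nat.Partrec (Code)

/-- there is a universal machine -/
theorem exists_V : ∃ V : List Bool →. List Bool, Partrec V ∧
    ∀ M : List Bool →. List Bool, Partrec M → ∃ d, ∀ p, V (d ++ p) = M p := by
  refine ⟨fun s => (Code.eval (Denumerable.ofNat Code (s.takeWhile id).length)
    (encode (s.drop ((s.takeWhile id).length + 1)))).bind
      fun y => ((decode y : Option (List Bool)) : Part (List Bool)), ?_, ?_⟩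
  · have h1 : Primrec fun s : List Bool => (s.takeWhile id).length :=
      Primrec.list_length.comp (Primrec.list_takeWhile Primrec.id)
    have h2 : Primrec fun s : List Bool => s.drop ((s.takeWhile id).length + 1) :=
      Primrec.list_drop.comp (Primrec.succ.comp h1) Primrec.id
    have h3 : Partrec fun s : List Bool => Code.eval (Denumerable.ofNat Code
        (s.takeWhile id).length) (encode (s.drop ((s.takeWhile id).length + 1))) :=
      Nat.Partrec.Code.eval_part.comp ((Computable.ofNat Code).comp h1.to_comp)
        (Computable.encode.comp h2.to_comp)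
    refine Partrec.bind h3 ?_
    exact (Computable.decode.comp Computable.snd).ofOption
  · intro M hM
    obtain ⟨c, hc⟩ := Nat.Partrec.Code.exists_code.1 hM
    refine ⟨List.replicate (encode c) true ++ [false], fun p => ?_⟩
    have h1 : (List.takeWhile id (List.replicate (encode c) true ++ [false] ++ p)).length =
        encode c := by
      rw [List.append_assoc, List.takeWhile_append_of_pos (by simp)]
      simp
    have h2 : List.drop (encode c + 1) (List.replicate (encode c) true ++ [false] ++ p) = p := by
      rw [List.drop_append_of_le_length (by simp)]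
      simp
    simp only [h1, h2, Denumerable.ofNat_encode, hc]
    simp

/-- the set of strings with short descriptions -/
def shortW (V : List Bool →. List Bool) (z : List Bool) : Prop :=
  ∃ p, z ∈ V p ∧ p.length + 9 < z.length

theorem shortW_card (V : List Bool →. List Bool) (L : ℕ) :
    (Sub L (shortW V)).card * 2 ^ 9 ≤ 2 ^ L := by
  classical
  rcases Nat.lt_or_ge L 9 with h | h
  · have : Sub L (shortW V) = ∅ := by
      refine Finset.eq_empty_of_forall_notMem fun z hz => ?_
      rw [mem_Sub] at hz
      obtain ⟨hz, p, -, hp⟩ := hz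
      omega
    rw [this]
    simp
  obtain ⟨m, rfl⟩ := Nat.exists_eq_add_of_le h
  have hch : ∀ z, ∃ p, shortW V z → z ∈ V p ∧ p.length + 9 < z.length := by
    intro z
    by_cases h : shortW V z
    · obtain ⟨p, hp⟩ := h
      exact ⟨p, fun _ => hp⟩
    · exact ⟨[], fun h' => absurd h' h⟩
  choose f hf using hch
  have h1 : (Sub (9 + m) (shortW V)).card ≤
      ((Finset.range m).biUnion fun l => Str Bool l).card := by
    refine Finset.card_le_card_of_injOn f ?_ ?_
    · intro z hz
      rw [Finset.mem_coe, mem_Sub] at hz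
      rw [Finset.mem_coe, Finset.mem_biUnion]
      refine ⟨(f z).length, ?_, mem_Str.2 rfl⟩
      rw [Finset.mem_range]
      have := (hf z hz.2).2
      omega
    · intro z hz z' hz' h
      rw [Finset.mem_coe, mem_Sub] at hz hz'
      have h2 := (hf z hz.2).1
      have h3 := (hf z' hz'.2).1
      rw [h] at h2
      exact Part.mem_unique h2 h3
  have h2 : ((Finset.range m).biUnion fun l => Str Bool l).card ≤ 2 ^ m := by
    refine Finset.card_biUnion_le.trans ?_
    simp only [card_Str, Fintype.card_bool]
    clear h h1
    induction m with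
    | zero => simp
    | succ m ih => rw [Finset.sum_range_succ, pow_succ]; omega
  calc _ ≤ 2 ^ m * 2 ^ 9 := Nat.mul_le_mul_right _ (h1.trans h2)
    _ = 2 ^ (9 + m) := by rw [← pow_add, add_comm]

/-- the graph of a partial computable function is recursively enumerable -/
theorem re_graph {α β γ : Type} [Primcodable α] [Primcodable β] [Primcodable γ] {f : α →. β}
    (hf : Partrec f) {g : γ → α} {h : γ → β} (hg : Computable g) (hh : Computable h) :
    REPred fun c => h c ∈ f (g c) := by
  have h1 : Partrec fun c : γ => (f (g c)).bind fun y =>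
      (Part.assert (y = h c) fun _ => Part.some ()) := by
    refine Partrec.bind (hf.comp hg) ?_
    exact RE.eq (f := fun q : γ × β => q.2) (g := fun q : γ × β => h q.1) (by fun_prop)
      (by fun_prop)
  refine h1.dom_re.of_eq fun c => ?_
  rw [Part.dom_iff_mem]
  simp only [Part.mem_bind_iff, Part.mem_assert_iff]
  constructor
  · rintro ⟨u, y, hy, rfl, -⟩
    exact hy
  · intro hy
    exact ⟨(), h c, hy, rfl, by simp⟩

section enl

variable (q : List Bool → ℕ → Bool)

/-- candidate number `s` -/
def cnd (s : ℕ) : List Bool := (decode s.unpair.1 : Option (List Bool)).getD []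

/-- the distinct strings of length `L` found before stage `s` -/
def enl (L : ℕ) : ℕ → List (List Bool)
  | 0 => []
  | s + 1 => bif (decide ((cnd s).length = L) && !decide (cnd s ∈ enl L s)) &&
      q (cnd s) s.unpair.2 then enl L s ++ [cnd s] else enl L s

variable {q}

theorem enl_prefix_succ (L s : ℕ) : enl q L s <+: enl q L (s + 1) := by
  rw [enl]
  cases (decide ((cnd s).length = L) && !decide (cnd s ∈ enl q L s)) && q (cnd s) s.unpair.2
  · exact List.prefix_refl _
  · exact List.prefix_append _ _

theorem enl_prefix {L s t : ℕ} (h : s ≤ t) : enl q L s <+: enl q L t := by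
  induction h with
  | refl => exact List.prefix_refl _
  | step _ ih => exact ih.trans (enl_prefix_succ _ _)

theorem enl_mem {L s : ℕ} {z : List Bool} (h : z ∈ enl q L s) :
    z.length = L ∧ ∃ n, q z n = true := by
  induction s with
  | zero => simp [enl] at h
  | succ s ih =>
    rw [enl] at h
    cases hc : (decide ((cnd s).length = L) && !decide (cnd s ∈ enl q L s)) &&
      q (cnd s) s.unpair.2
    · rw [hc, cond_false] at h
      exact ih h
    · rw [hc, cond_true, List.mem_append, List.mem_singleton] at h
      simp only [Bool.and_eq_true, decide_eq_true_eq] at hc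
      rcases h with h | rfl
      · exact ih h
      · exact ⟨hc.1.1, _, hc.2⟩

theorem enl_nodup (L s : ℕ) : (enl q L s).Nodup := by
  induction s with
  | zero => simp [enl]
  | succ s ih =>
    rw [enl]
    cases hc : (decide ((cnd s).length = L) && !decide (cnd s ∈ enl q L s)) &&
      q (cnd s) s.unpair.2
    · rwa [cond_false]
    · rw [cond_true]
      simp only [Bool.and_eq_true, Bool.not_eq_true', decide_eq_false_iff_not] at hc
      rw [List.nodup_append]
      refine ⟨ih, List.nodup_singleton _, ?_⟩
      rintro a ha b hb rfl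
      rw [List.mem_singleton] at hb
      exact hc.1.2 (hb ▸ ha)

theorem enl_complete {z : List Bool} {n : ℕ} (h : q z n = true) :
    ∃ s, z ∈ enl q z.length s := by
  refine ⟨Nat.pair (encode z) n + 1, ?_⟩
  have h1 : cnd (Nat.pair (encode z) n) = z := by simp [cnd]
  by_cases h2 : z ∈ enl q z.length (Nat.pair (encode z) n)
  · exact (enl_prefix_succ _ _).subset h2
  · rw [enl, h1, Nat.unpair_pair]
    simp [h2, h]

theorem enl_length {P : List Bool → Prop} (hP : ∀ z, P z ↔ ∃ n, q z n = true) (L s : ℕ) :
    (enl q L s).length ≤ (Sub L P).card :=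
  list_card P _ (enl_nodup L s) fun z hz => ⟨(enl_mem hz).1, (hP z).2 (enl_mem hz).2⟩

theorem enl_computable (hq : Computable₂ q) {α : Type} [Primcodable α] {L s : α → ℕ}
    (hL : Computable L) (hs : Computable s) : Computable fun a => enl q (L a) (s a) := by
  have hc : Primrec cnd :=
    Primrec.option_getD.comp (Primrec.decode.comp (Primrec.fst.comp Primrec.unpair))
      (Primrec.const [])
  have hc' : Computable cnd := hc.to_comp
  have h1 : Computable fun a => (Nat.rec (motive := fun _ => List (List Bool)) []
      (fun s l => bif (decide ((cnd s).length = L a) && !decide (cnd s ∈ l)) &&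
        q (cnd s) s.unpair.2 then l ++ [cnd s] else l) (s a) : List (List Bool)) := by
    refine Computable.nat_rec (h := fun a (y : ℕ × List (List Bool)) =>
      bif (decide ((cnd y.1).length = L a) && !decide (cnd y.1 ∈ y.2)) &&
        q (cnd y.1) y.1.unpair.2 then y.2 ++ [cnd y.1] else y.2) hs (Computable.const []) ?_
    have e1 : Computable fun x : α × (ℕ × List (List Bool)) =>
        decide ((cnd x.2.1).length = L x.1) := by
      exact RE.cdecide (RE.cp_eq (by fun_prop) (by fun_prop))
    have e2 : Computable fun x : α × (ℕ × List (List Bool)) =>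
        decide (cnd x.2.1 ∈ x.2.2) := RE.cdecide (RE.cp_mem (by fun_prop) (by fun_prop))
    have e3 : Computable fun x : α × (ℕ × List (List Bool)) =>
        q (cnd x.2.1) x.2.1.unpair.2 := hq.comp (by fun_prop) (by fun_prop)
    show Computable fun x : α × (ℕ × List (List Bool)) =>
      bif (decide ((cnd x.2.1).length = L x.1) && !decide (cnd x.2.1 ∈ x.2.2)) &&
        q (cnd x.2.1) x.2.1.unpair.2 then x.2.2 ++ [cnd x.2.1] else x.2.2
    exact RE.ccond (RE.cand (RE.cand e1 (RE.cnot e2)) e3) (by fun_prop) (by fun_prop)
  refine h1.of_eq fun a => ?_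
  generalize s a = m
  induction m with
  | zero => rfl
  | succ m ih =>
    rw [enl, ← ih]

/-- the string with the name `w` -/
def Nm (q : List Bool → ℕ → Bool) (w z : List Bool) : Prop :=
  ∃ i s : ℕ, (allStr w.length)[i]? = some w ∧ (enl q (w.length + 2) s)[i]? = some z

theorem Nm_unique {w z z' : List Bool} (h : Nm q w z) (h' : Nm q w z') : z = z' := by
  obtain ⟨i, s, h1, h2⟩ := h
  obtain ⟨i', s', h1', h2'⟩ := h'
  have hi : i = i' := by
    rw [List.getElem?_eq_some_iff] at h1 h1'
    obtain ⟨hi, e⟩ := h1
    obtain ⟨hi', e'⟩ := h1'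
    exact (List.Nodup.getElem_inj_iff (nodup_allStr w.length)).1 (e.trans e'.symm)
  subst hi
  have key : ∀ s t, s ≤ t → (enl q (w.length + 2) s)[i]? = some z →
      (enl q (w.length + 2) t)[i]? = some z := by
    intro s t hst h
    obtain ⟨r, hr⟩ := enl_prefix (q := q) (L := w.length + 2) hst
    rw [← hr]
    rw [List.getElem?_append_left (List.getElem?_eq_some_iff.1 h).1]
    exact h
  have key' : ∀ s t, s ≤ t → (enl q (w.length + 2) s)[i]? = some z' →
      (enl q (w.length + 2) t)[i]? = some z' := by
    intro s t hst h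
    obtain ⟨r, hr⟩ := enl_prefix (q := q) (L := w.length + 2) hst
    rw [← hr]
    rw [List.getElem?_append_left (List.getElem?_eq_some_iff.1 h).1]
    exact h
  have h3 := key s (max s s') (le_max_left _ _) h2
  have h4 := key' s' (max s s') (le_max_right _ _) h2'
  rw [h3] at h4
  exact Option.some.inj h4

theorem Nm_length {w z : List Bool} (h : Nm q w z) :
    z.length = w.length + 2 ∧ ∃ n, q z n = true := by
  obtain ⟨i, s, -, h2⟩ := h
  exact enl_mem (List.mem_of_getElem? h2)

theorem exists_Nm {P : List Bool → Prop} (hP : ∀ z, P z ↔ ∃ n, q z n = true)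
    (hc : ∀ L, (Sub L P).card * 4 ≤ 2 ^ L) {z : List Bool} (hz : P z) : ∃ w, Nm q w z := by
  obtain ⟨n, hn⟩ := (hP z).1 hz
  obtain ⟨s, hs⟩ := enl_complete hn
  obtain ⟨i, hi, e⟩ := List.getElem_of_mem hs
  have h1 := hc z.length
  have h2 : 0 < (Sub z.length P).card := Finset.card_pos.2 ⟨z, mem_Sub.2 ⟨rfl, hz⟩⟩
  have hl : 2 ≤ z.length := by
    by_contra h
    have : z.length = 0 ∨ z.length = 1 := by omega
    rcases this with h | h <;> rw [h] at h1 h2 <;> omega
  obtain ⟨m, hm⟩ := Nat.exists_eq_add_of_le hl
  have h3 : i < (allStr m).length := by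
    have h4 := enl_length hP z.length s
    rw [length_allStr]
    rw [hm] at h1 h4 hi
    rw [pow_add] at h1
    omega
  refine ⟨(allStr m)[i], i, s, ?_, ?_⟩
  · have h5 : ((allStr m)[i]).length = m := mem_allStr.1 (List.getElem_mem h3)
    rw [h5]
    exact List.getElem?_eq_getElem h3
  · have h5 : ((allStr m)[i]).length = m := mem_allStr.1 (List.getElem_mem h3)
    rw [h5, show m + 2 = z.length by omega]
    rw [List.getElem?_eq_getElem hi, e]

theorem reNm (hq : Computable₂ q) {α : Type} [Primcodable α] {w z : α → List Bool}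
    (hw : Computable w) (hz : Computable z) : REPred fun a => Nm q (w a) (z a) := by
  unfold Nm
  refine RE.exN (p := fun a i => ∃ s : ℕ, (allStr (w a).length)[i]? = some (w a) ∧
    (enl q ((w a).length + 2) s)[i]? = some (z a)) ?_
  refine RE.exN (p := fun (x : α × ℕ) s => (allStr (w x.1).length)[x.2]? = some (w x.1) ∧
    (enl q ((w x.1).length + 2) s)[x.2]? = some (z x.1)) ?_
  have h1 : Computable fun x : (α × ℕ) × ℕ => enl q ((w x.1.1).length + 2) x.2 :=
    enl_computable hq (by fun_prop) (by fun_prop)
  exact RE.and (RE.eq (by fun_prop) (by fun_prop)) (RE.eq (by fun_prop) (by fun_prop))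

end enl

/-- the prefix of the programs of the old machine -/
def pre9 : List Bool := List.replicate 9 false

/-- the machine: short names for the strings of an enumerable set of small density -/
theorem exists_U (D : List Bool → Prop) (hD : REPred D) :
    ∃ (U : List Bool →. List Bool) (Wt : ℕ → List Bool → Bool), Partrec U ∧
      (∀ M : List Bool →. List Bool, Partrec M → ∃ d, ∀ p, U (d ++ p) = M p) ∧
      (∀ s t z, s ≤ t → Wt s z = true → Wt t z = true) ∧
      (∀ L, (Sub L (Wp Wt)).card * 2 ^ 9 ≤ 2 ^ L) ∧
      ∀ z, (∀ p, z ∈ U p → z.length ≤ p.length) ↔ Rn Wt D z := by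
  obtain ⟨V, hV, hVu⟩ := exists_V
  -- the set of strings with short descriptions, with stages
  have hWre : REPred (shortW V) := by
    unfold shortW
    refine RE.ex (p := fun z (p : List Bool) => z ∈ V p ∧ p.length + 9 < z.length) ?_
    exact RE.and (re_graph hV (by fun_prop) (by fun_prop)) (RE.lt (by fun_prop) (by fun_prop))
  obtain ⟨q0, hq0, hq0'⟩ := RE.re_iff.1 hWre
  set Wt : ℕ → List Bool → Bool := fun t z => RE.exB (q0 z) t with hWt
  have hWtc : Computable fun p : ℕ × List Bool => Wt p.1 p.2 := by
    have := RE.computable_exB (α := ℕ × List Bool) (q := fun x n => q0 x.2 n)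
      (f := fun x => x.1) (hq0.comp (Computable.snd.comp Computable.fst) Computable.snd)
      Computable.fst
    exact this
  have hmono : ∀ s t z, s ≤ t → Wt s z = true → Wt t z = true := by
    intro s t z hst h
    rw [hWt, RE.exB_iff] at h ⊢
    obtain ⟨i, hi, h⟩ := h
    exact ⟨i, by omega, h⟩
  have hWp : ∀ z, Wp Wt z ↔ shortW V z := by
    intro z
    rw [hq0']
    unfold Wp
    simp only [hWt, RE.exB_iff]
    constructor
    · rintro ⟨t, i, -, h⟩
      exact ⟨i, h⟩
    · rintro ⟨i, h⟩
      exact ⟨i + 1, i, by omega, h⟩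
  have hW : ∀ L, (Sub L (Wp Wt)).card * 2 ^ 9 ≤ 2 ^ L := by
    intro L
    rw [Sub_congr fun z _ => hWp z]
    exact shortW_card V L
  obtain ⟨q, hq, hq'⟩ := RE.re_iff.1 (reBad hWtc hD)
  -- the graph of the machine
  obtain ⟨U, hU, hU1, hU2⟩ := RE.uniformize (α := List Bool) (β := List Bool)
    (r := fun s z => (∃ w : List Bool, s = true :: w ∧ Nm q w z) ∨
      ∃ p : List Bool, s = pre9 ++ p ∧ z ∈ V p) (by
    refine RE.or ?_ ?_
    · refine RE.ex (p := fun (x : List Bool × List Bool) (w : List Bool) =>
        x.1 = true :: w ∧ Nm q w x.2) ?_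
      exact RE.and (RE.eq (by fun_prop) (by fun_prop)) (reNm hq (by fun_prop) (by fun_prop))
    · refine RE.ex (p := fun (x : List Bool × List Bool) (p : List Bool) =>
        x.1 = pre9 ++ p ∧ x.2 ∈ V p) ?_
      exact RE.and (RE.eq (by fun_prop) (by fun_prop))
        (re_graph hV (by fun_prop) (by fun_prop)))
  have hUg : ∀ s z, z ∈ U s ↔ (∃ w : List Bool, s = true :: w ∧ Nm q w z) ∨
      ∃ p : List Bool, s = pre9 ++ p ∧ z ∈ V p := by
    intro s z
    refine ⟨hU2 s z, fun h => ?_⟩
    obtain ⟨z', hz'⟩ := Part.dom_iff_mem.1 ((hU1 s).2 ⟨z, h⟩)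
    have h' := hU2 s z' hz'
    have : z = z' := by
      rcases h with ⟨w, rfl, h⟩ | ⟨p, rfl, h⟩
      · rcases h' with ⟨w', e, h'⟩ | ⟨p', e, h'⟩
        · rw [List.cons.injEq] at e
          rw [← e.2] at h'
          exact Nm_unique h h'
        · simp [pre9, List.replicate_succ] at e
      · rcases h' with ⟨w', e, h'⟩ | ⟨p', e, h'⟩
        · simp [pre9, List.replicate_succ] at e
        · rw [List.append_cancel_left_eq] at e
          rw [← e] at h'
          exact Part.mem_unique h h'
    rw [this]
    exact hz'
  refine ⟨U, Wt, hU, ?_, hmono, hW, ?_⟩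
  · intro M hM
    obtain ⟨d, hd⟩ := hVu M hM
    refine ⟨pre9 ++ d, fun p => ?_⟩
    rw [← hd]
    ext z
    rw [hUg]
    constructor
    · rintro (⟨w, e, -⟩ | ⟨p', e, h⟩)
      · simp [pre9, List.replicate_succ] at e
      · rw [List.append_assoc, List.append_cancel_left_eq] at e
        rwa [e]
    · intro h
      exact Or.inr ⟨d ++ p, by rw [List.append_assoc], h⟩
  · intro z
    unfold Rn
    rw [hWp]
    constructor
    · intro h
      constructor
      · rintro ⟨p, hp, hl⟩
        have := h (pre9 ++ p) ((hUg _ _).2 (Or.inr ⟨p, rfl, hp⟩))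
        rw [List.length_append] at this
        simp only [pre9, List.length_replicate] at this
        omega
      · intro hB
        obtain ⟨w, hw⟩ := exists_Nm hq' (Bad_card hmono hW) hB
        have h1 := h (true :: w) ((hUg _ _).2 (Or.inl ⟨w, rfl, hw⟩))
        have h2 := (Nm_length hw).1
        rw [List.length_cons] at h1
        omega
    · rintro ⟨h1, h2⟩ p hp
      by_contra hlt
      rcases (hUg _ _).1 hp with ⟨w, rfl, h⟩ | ⟨p, rfl, h⟩
      · exact h2 ((hq' z).2 (Nm_length h).2)
      · refine h1 ⟨p, h, ?_⟩
        rw [List.length_append] at hlt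
        simp only [pre9, List.length_replicate] at hlt
        omega

end Pool.Agent.Seat68.RC
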