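import Pool.Agent.H36.Orc
import Pool.Agent.Seat68.RC.Mach

/-!
The algorithm runs in polynomial time with an oracle.
-/

set_option autoImplicit false

namespace Pool.Agent.Seat68.RC

open Pool.Agent.H38.NP Pool.Agent.H36.Orc Pool.Agent.H36.SkewDefs

section pt

variable {α : Type} [Enc α]

@[fun_prop] theorem PTpair {f g : α → ℕ} (hf : PT f) (hg : PT g) :
    PT fun a => Nat.pair (f a) (g a) := by
  unfold Nat.pair
  fun_prop

@[fun_prop] theorem PTmvg1 {w : α → List Pr} (c : Bool) (hw : PT w) :
    PT fun a => mvg g1 c (w a) := by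
  unfold mvg g1
  fun_prop

@[fun_prop] theorem PTmvg2 {w : α → List Pr} (c : Bool) (hw : PT w) :
    PT fun a => mvg g2 c (w a) := by
  unfold mvg g2
  fun_prop

@[fun_prop] theorem PTmvg3 {w : α → List Pr} (c : Bool) (hw : PT w) :
    PT fun a => mvg g3 c (w a) := by
  unfold mvg g3
  fun_prop

@[fun_prop] theorem PTmvg4 {w : α → List Pr} (c : Bool) (hw : PT w) :
    PT fun a => mvg g4 c (w a) := by
  unfold mvg g4
  fun_prop

@[fun_prop] theorem PTmoves {w : α → List Pr} (hw : PT w) : PT fun a => moves (w a) := by
  unfold moves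
  fun_prop

theorem PTnb (k : ℕ) : PT (nb k) := by
  induction k with
  | zero =>
    show PT fun w => [w]
    fun_prop
  | succ k ih =>
    show PT fun w => (moves w).flatMap (nb k)
    exact PT.flatMap (f := fun _ => nb k) (ih.comp (PT.snd PT.id')) (PTmoves PT.id')

@[fun_prop] theorem PTGam {w : α → List Pr} (hw : PT w) : PT fun a => Gam (w a) := by
  unfold Gam
  refine PT.flatMap (f := fun a e => nb rounds (w a ++ [e])) ?_ (by fun_prop)
  exact (PTnb rounds).comp (by fun_prop)

@[fun_prop] theorem PTfl {w : α → List Pr} (hw : PT w) : PT fun a => fl (w a) := by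
  unfold fl
  fun_prop

@[fun_prop] theorem PTpar {x u : α → List Bool} (hx : PT x) (hu : PT u) :
    PT fun a => par (x a) (u a) := by
  unfold par
  refine PT.foldr (f := fun (_ : α) (a b : Bool) => xor a b) (by fun_prop) (by fun_prop)
    (PT.const false) (PB.const 1) fun a k => ?_
  rw [sz_bool]

@[fun_prop] theorem PThh {j : α → ℕ} {x u : α → List Bool} (hj : PT j) (hx : PT x) (hu : PT u) :
    PT fun a => hh (j a) (x a) (u a) := by
  unfold hh
  fun_prop

@[fun_prop] theorem PTFF {j : α → ℕ} {x u : α → List Bool} (hj : PT j) (hx : PT x) (hu : PT u) :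
    PT fun a => FF (j a) (x a) (u a) := by
  unfold FF
  fun_prop

@[fun_prop] theorem PTMM {n j : α → ℕ} (hn : PT n) (hj : PT j) :
    PT fun a => MM (n a) (j a) := by
  unfold MM LL
  fun_prop

@[fun_prop] theorem PTJJ {n : α → ℕ} (hn : PT n) : PT fun a => JJ (n a) := by
  unfold JJ
  fun_prop

@[fun_prop] theorem PTkk {n : α → ℕ} (hn : PT n) : PT fun a => kk (n a) := by
  unfold kk
  fun_prop

@[fun_prop] theorem PTbb {n : α → ℕ} (hn : PT n) : PT fun a => bb (n a) := by
  unfold bb
  simp only [sq]
  fun_prop

@[fun_prop] theorem PTblk {v : α → List Bool} {i M : α → ℕ} (hv : PT v) (hi : PT i)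
    (hM : PT M) : PT fun a => blk (v a) (i a) (M a) := by
  unfold blk
  fun_prop

end pt

/-- an oracle on coded strings as an oracle on strings -/
def oo (o : Bits → Bool) (z : List Bool) : Bool := o ⟨z⟩

/-- the queries of one step -/
def qs1 (w : List Pr) : List Bits := (Gam w).map fun z => ⟨fl z⟩

/-- the final queries -/
def qs2 (x : List Bool) (w : List Pr) : List Bits :=
  (List.range (JJ x.length)).flatMap fun j => (List.range (kk x.length)).map fun i =>
    ⟨FF j x (blk (fl w) i (MM x.length j))⟩

/-- all queries -/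
def qs (x : List Bool) (o : Bits → Bool) : List Bits :=
  ((List.range (bb x.length)).flatMap fun i => qs1 ((stp (oo o))^[i] [])) ++
    qs2 x ((stp (oo o))^[bb x.length] [])

theorem detAlg (x : List Bool) : Det (fun o => alg (oo o) x) (qs x) := by
  have h1 : Det (fun o : Bits → Bool => (stp (oo o))^[bb x.length] [])
      fun o => (List.range (bb x.length)).flatMap fun i => qs1 ((stp (oo o))^[i] []) := by
    refine Det.iter (st := fun o => stp (oo o)) (l := qs1) ?_ [] _
    intro s o o' h
    unfold stp
    have : ∀ l : List (List Pr), (∀ z ∈ l, oo o (fl z) = oo o' (fl z)) →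
        (l.find? fun z => oo o (fl z)) = l.find? fun z => oo o' (fl z) := by
      intro l
      induction l with
      | nil => intro _; rfl
      | cons z l ih =>
        intro hl
        rw [List.find?_cons, List.find?_cons, hl z List.mem_cons_self,
          ih fun y hy => hl y (List.mem_cons_of_mem _ hy)]
    rw [this]
    intro z hz
    exact h ⟨fl z⟩ (List.mem_map_of_mem hz)
  refine h1.bind (g := fun w o => ans (oo o) x (fl w)) (R := fun w _ => qs2 x w) fun o => ?_
  refine Det.base fun o1 o2 h => ?_
  have h3 : ∀ j ∈ List.range (JJ x.length), tst (oo o1) x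
      (fl ((stp (oo o))^[bb x.length] [])) j = tst (oo o2) x
      (fl ((stp (oo o))^[bb x.length] [])) j := by
    intro j hj
    have h4 : ∀ i ∈ List.range (kk x.length), oo o1 (FF j x (blk
        (fl ((stp (oo o))^[bb x.length] [])) i (MM x.length j))) = oo o2 (FF j x (blk
        (fl ((stp (oo o))^[bb x.length] [])) i (MM x.length j))) := by
      intro i hi
      refine h ⟨_⟩ ?_
      unfold qs2
      rw [List.mem_flatMap]
      exact ⟨j, hj, List.mem_map.2 ⟨i, hi, rfl⟩⟩
    unfold tst
    rw [Bool.eq_iff_iff, List.all_eq_true, List.all_eq_true]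
    exact forall_congr' fun i => forall_congr' fun hi => by rw [h4 i hi]
  unfold ans
  have : ∀ l : List ℕ, (∀ j ∈ l, tst (oo o1) x
      (fl ((stp (oo o))^[bb x.length] [])) j = tst (oo o2) x
      (fl ((stp (oo o))^[bb x.length] [])) j) →
      (l.find? fun j => tst (oo o1) x (fl ((stp (oo o))^[bb x.length] [])) j) =
        l.find? fun j => tst (oo o2) x (fl ((stp (oo o))^[bb x.length] [])) j := by
    intro l
    induction l with
    | nil => intro _; rfl
    | cons z l ih =>
      intro hl
      rw [List.find?_cons, List.find?_cons, hl z List.mem_cons_self,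
        ih fun y hy => hl y (List.mem_cons_of_mem _ hy)]
  rw [this _ h3]

theorem length_nb (k : ℕ) (w : List Pr) : (nb k w).length = 7 ^ k := by
  induction k generalizing w with
  | zero => rfl
  | succ k ih =>
    rw [nb, List.length_flatMap, List.map_congr_left fun z _ => ih z]
    simp [moves, pow_succ]
    ring

theorem length_qs1 (w : List Pr) : (qs1 w).length = 4 * 7 ^ rounds := by
  rw [qs1, List.length_map, Gam, List.length_flatMap,
    List.map_congr_left fun e _ => length_nb rounds (w ++ [e])]
  simp
  ring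

theorem length_qs (x : List Bool) (o : Bits → Bool) :
    (qs x o).length ≤ bb x.length * (4 * 7 ^ rounds) + JJ x.length * kk x.length := by
  unfold qs
  rw [List.length_append, List.length_flatMap,
    List.map_congr_left fun i _ => length_qs1 ((stp (oo o))^[i] [])]
  simp [qs2]

theorem size_qs (x : List Bool) (o : Bits → Bool) :
    ∀ z ∈ qs x o, sz z ≤ 2 * bb x.length + JJ x.length := by
  intro z hz
  unfold qs at hz
  rw [List.mem_append, List.mem_flatMap] at hz
  rcases hz with ⟨i, hi, hz⟩ | hz
  · rw [List.mem_range] at hi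
    rw [qs1, List.mem_map] at hz
    obtain ⟨w, hw, rfl⟩ := hz
    show (fl w).length ≤ _
    rw [length_fl, length_of_mem_Gam hw, length_iter]
    omega
  · rw [qs2, List.mem_flatMap] at hz
    obtain ⟨j, hj, hz⟩ := hz
    rw [List.mem_range] at hj
    rw [List.mem_map] at hz
    obtain ⟨i, -, rfl⟩ := hz
    show (FF j x (blk (fl ((stp (oo o))^[bb x.length] [])) i (MM x.length j))).length ≤ _
    rw [FF, List.length_append, length_hh, blk, List.length_take, List.length_drop, length_fl,
      length_iter]
    omega

/-- the iterates of the walk, with the oracle given by a table -/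
theorem PTiter {α : Type} [Enc α] {T : α → List (Bits × Bool)} {n : α → ℕ} (hT : PT T)
    (hn : PT n) : PT fun a => (stp (oo (look (T a))))^[n a] [] := by
  refine PT.iterate (step := fun a w => stp (oo (look (T a))) w) ?_ hn (PT.const [])
    (B := fun a => n a * (2 * 4 + 1)) (hn.nat_pb.mul (PB.const _)) fun a i hi => ?_
  · unfold stp oo look
    have h1 : PT fun p : (α × List Pr) × List Pr =>
        decide ((({ val := fl p.2 } : Bits), true) ∈ T p.1.1) := by
      refine PT.mem (by fun_prop) ?_
      exact PT.mk (by fun_prop) (by fun_prop)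
    exact PT.getD_opt (PT.find? (f := fun (p : α × List Pr) (z : List Pr) =>
      decide ((({ val := fl z } : Bits), true) ∈ T p.1)) h1 (by fun_prop)) (by fun_prop)
  · refine (sz_le_of_forall (B := 4) fun p _ => ?_).trans ?_
    · rw [sz_prod, sz_bool, sz_bool]
    · rw [length_iter]
      exact Nat.mul_le_mul_right _ hi

theorem PTtst {α : Type} [Enc α] {T : α → List (Bits × Bool)} {x v : α → List Bool} {j : α → ℕ}
    (hT : PT T) (hx : PT x) (hv : PT v) (hj : PT j) :
    PT fun a => tst (oo (look (T a))) (x a) (v a) (j a) := by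
  unfold tst oo look
  refine PT.all (f := fun a (i : ℕ) =>
    !decide ((({ val := FF (j a) (x a) (blk (v a) i (MM (x a).length (j a))) } : Bits), true) ∈
      T a)) ?_ (by fun_prop)
  refine PT.not (PT.mem (by fun_prop) (PT.mk (by fun_prop) (by fun_prop)))

theorem PTalg {α : Type} [Enc α] {T : α → List (Bits × Bool)} {x : α → List Bool}
    (hT : PT T) (hx : PT x) : PT fun a => alg (oo (look (T a))) (x a) := by
  unfold alg ans
  have h1 : PT fun a => fl ((stp (oo (look (T a))))^[bb (x a).length] []) :=
    PTfl (PTiter hT (by fun_prop))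
  have h2 : PT fun a => ((List.range (JJ (x a).length)).find? fun j =>
      tst (oo (look (T a))) (x a) (fl ((stp (oo (look (T a))))^[bb (x a).length] [])) j) := by
    refine PT.find? (f := fun a (j : ℕ) => tst (oo (look (T a))) (x a)
      (fl ((stp (oo (look (T a))))^[bb (x a).length] [])) j) ?_ (by fun_prop)
    exact PTtst (T := fun p : α × ℕ => T p.1) (x := fun p => x p.1)
      (v := fun p => fl ((stp (oo (look (T p.1))))^[bb (x p.1).length] []))
      (j := fun p => p.2) (by fun_prop) (by fun_prop)
      (h1.comp (g := fun p : α × ℕ => p.1) (by fun_prop)) (by fun_prop)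
  fun_prop

theorem PTqs {α : Type} [Enc α] {T : α → List (Bits × Bool)} {x : α → List Bool}
    (hT : PT T) (hx : PT x) : PT fun a => qs (x a) (look (T a)) := by
  unfold qs
  refine PT.append ?_ ?_
  · refine PT.flatMap (f := fun a (i : ℕ) => qs1 ((stp (oo (look (T a))))^[i] [])) ?_
      (by fun_prop)
    have h1 : PT fun p : α × ℕ => (stp (oo (look (T p.1))))^[p.2] [] :=
      PTiter (T := fun p : α × ℕ => T p.1) (n := fun p => p.2) (by fun_prop) (by fun_prop)
    unfold qs1
    exact PT.map (f := fun _ (z : List Pr) => (⟨fl z⟩ : Bits)) (by fun_prop) (PTGam h1)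
  · have h1 : PT fun a => (stp (oo (look (T a))))^[bb (x a).length] [] :=
      PTiter hT (by fun_prop)
    have h2 : ∀ w : α → List Pr, PT w → PT fun a => qs2 (x a) (w a) := by
      intro w hw
      unfold qs2
      fun_prop
    exact h2 _ h1

/-- the oracle algorithm for the problem `D (g a)` -/
theorem alg_oracleP {D : List Bool → Prop} {Wt : ℕ → List Bool → Bool}
    (hmono : ∀ s t z, s ≤ t → Wt s z = true → Wt t z = true)
    (hW : ∀ L, (Sub L (Wp Wt)).card * 2 ^ 9 ≤ 2 ^ L) {g : Bits → List Bool} (hg : PT g) :
    OracleP (fun (_ : Bits) (_ : Unit) => True) (fun a _ => D (g a))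
      (fun _ _ (z : Bits) => Rn Wt D z.val) := by
  have hf : PT fun z : Bits × List (Bits × Bool) => alg (oo (look z.2)) (g z.1) :=
    PTalg (T := fun z : Bits × List (Bits × Bool) => z.2) (x := fun z => g z.1) (by fun_prop)
      (by fun_prop)
  have hQ : PT fun z : Bits × List (Bits × Bool) => qs (g z.1) (look z.2) :=
    PTqs (T := fun z : Bits × List (Bits × Bool) => z.2) (x := fun z => g z.1) (by fun_prop)
      (by fun_prop)
  have hL : PT fun a : Bits => bb (g a).length * (4 * 7 ^ rounds) +
      JJ (g a).length * kk (g a).length := by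
    have h1 : PT fun _ : Bits => 4 * 7 ^ rounds := PT.const _
    generalize 4 * 7 ^ rounds = R at h1 ⊢
    fun_prop
  have hB : PT fun a : Bits => 2 * bb (g a).length + JJ (g a).length := by fun_prop
  have he : ∀ (a : Bits) (w : Unit) (o : Bits → Bool), (fun (_ : Bits) (_ : Unit) => True) a w →
      (∀ x, o x ↔ (fun (_ : Bits) (_ : Unit) (z : Bits) => Rn Wt D z.val) a w x) →
      ((fun (a : Bits) (_ : Unit) => D (g a)) a w ↔ alg (oo o) (g a)) := by
    intro a w o _ h
    have h1 : ∀ z, oo o z = true ↔ Rn Wt D z := fun z => h ⟨z⟩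
    exact (alg_correct hmono hW h1 (g a)).symm
  exact oracleP (⟨[]⟩ : Bits) (fun a o => alg (oo o) (g a)) (fun a o => qs (g a) o)
    (fun a => detAlg (g a)) hf hQ hL hB (fun a o => length_qs (g a) o)
    (fun a o => size_qs (g a) o) he

/-- the first `k` answers of the oracle `A` in the computation given by `q` -/
noncomputable def ansl (A : List Bool → Prop) (q : List Bool → List Bool) (x : List Bool) : ℕ → List Bool
  | 0 => []
  | k + 1 => ansl A q x k ++ [@decide (A (q (pair x (ansl A q x k)))) (Classical.propDecidable _)]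

/-- polynomial time with the oracle of incompressible strings -/
theorem inP_Rn {D : List Bool → Prop} {Wt : ℕ → List Bool → Bool}
    (hmono : ∀ s t z, s ≤ t → Wt s z = true → Wt t z = true)
    (hW : ∀ L, (Sub L (Wp Wt)).card * 2 ^ 9 ≤ 2 ^ L) {g : Bits → List Bool} (hg : PT g) :
    ∃ q r, PolyTime q ∧ PolyTime r ∧ ∃ t : Polynomial ℕ, ∀ x : List Bool,
      (D (g ⟨x⟩) ↔ r (pair x (ansl (Rn Wt D) q x (t.eval x.length))) = [true]) := by
  obtain ⟨q, r, hq, hr, t, h⟩ := alg_oracleP (D := D) hmono hW hg
  refine ⟨q, r, hq, hr, t, fun x => ?_⟩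
  obtain ⟨s, hs, h1, h2⟩ := h ⟨x⟩ () trivial
  have h3 : ∀ k ≤ s.length, s.take k = ansl (Rn Wt D) q x k := by
    intro k
    induction k with
    | zero => intro _; simp [ansl]
    | succ k ih =>
      intro hk
      have ih' := ih (by omega)
      obtain ⟨z, hz, hb⟩ := h1 k (by omega)
      rw [List.take_add_one, List.getElem?_eq_getElem (by omega), ansl, ← ih']
      congr 1
      have hz' : q (pair x (s.take k)) = z.val := hz
      rw [hz']
      simp only [Option.toList_some, List.cons.injEq, and_true]
      rw [Bool.eq_iff_iff, hb]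
      simp
  have h4 : s = ansl (Rn Wt D) q x (t.eval x.length) := by
    have hs' : s.length = t.eval x.length := hs
    rw [← hs', ← h3 _ le_rfl, List.take_length]
  rw [← h4]
  exact h2

end Pool.Agent.Seat68.RC
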