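import Pool.Agent.Seat68.RC.Loc

/-!
The enumerable set of strings which are made compressible, and its density.
-/

set_option autoImplicit false

namespace Pool.Agent.Seat68.RC

open Finset

variable (Wt : ℕ → List Bool → Bool) (D : List Bool → Prop)

/-- the set enumerated in stages by `Wt` -/
def Wp (z : List Bool) : Prop := ∃ t, Wt t z = true

/-- more than a quarter of the region of `x` and `j` lies in the set `Wp` -/
def Unl (x : List Bool) (j : ℕ) : Prop :=
  ∃ l : List (List Bool), l.Nodup ∧ (∀ y ∈ l, y.length = MM x.length j ∧ Wp Wt (FF j x y)) ∧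
    2 ^ MM x.length j < 4 * l.length

/-- some number up to `j` is unlucky, or `j` is too large -/
def Zp (x : List Bool) (j : ℕ) : Prop := (∃ j' < j + 1, Unl Wt x j') ∨ JJ x.length ≤ j

/-- the regions which are made compressible -/
def Hp (j : ℕ) (x : List Bool) : Prop :=
  (j % 2 = 0 ∧ (Zp Wt x j ∨ (Zp Wt x (j + 2) ∧ D x))) ∨ (j % 2 = 1 ∧ Zp Wt x (j + 1))

/-- the strings of the compressible regions -/
def BadOdd (z : List Bool) : Prop :=
  ∃ x j y, j < JJ x.length ∧ y.length = MM x.length j ∧ Hp Wt D j x ∧ z = FF j x y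

/-- all samples of `v` for `x` and `j` are covered -/
def GX (x : List Bool) (j : ℕ) (v : List Bool) : Prop :=
  ∃ (t : ℕ) (l : List (List Bool)), 4 * l.length ≤ 2 ^ MM x.length j ∧
    (∀ y ∈ allStr (MM x.length j), Wt t (FF j x y) = true → y ∈ l) ∧
    ∀ i < kk x.length, Wt t (FF j x (blk v i (MM x.length j))) = true ∨
      ∃ x' : List Bool, x'.length = x.length ∧ x' ≠ x ∧ Hp Wt D j x' ∧
        hh j x' (blk v i (MM x.length j)) = hh j x (blk v i (MM x.length j))

/-- the strings which are not good for sampling -/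
def GF (v : List Bool) : Prop :=
  ∃ x : List Bool, ∃ j < JJ x.length, v.length = 2 * bb x.length ∧ GX Wt D x j v

/-- closed sets of lists of pairs -/
def Cl (l : List (List Pr)) : Prop :=
  ∀ z ∈ l, Wp Wt (fl z) ∨ GF Wt D (fl z) ∨ ∀ z' ∈ Gam z, z' ∈ l

/-- the lists of pairs which lie in a finite closed set -/
def DeadE (w : List Pr) : Prop := ∃ l : List (List Pr), w ∈ l ∧ Cl Wt D l

/-- the strings which are made compressible -/
def Bad (z : List Bool) : Prop := BadOdd Wt D z ∨ ∃ w, z = fl w ∧ DeadE Wt D w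

/-! ### Counting -/

theorem list_card {n : ℕ} (P : List Bool → Prop) :
    (∀ l : List (List Bool), l.Nodup → (∀ y ∈ l, y.length = n ∧ P y) →
      l.length ≤ (Sub n P).card) := by
  classical
  intro l hl h
  rw [← List.toFinset_card_of_nodup hl]
  refine Finset.card_le_card fun y hy => ?_
  rw [List.mem_toFinset] at hy
  exact mem_Sub.2 (h y hy)

theorem Unl_iff {x : List Bool} {j : ℕ} : Unl Wt x j ↔
    2 ^ MM x.length j < 4 * (Sub (MM x.length j) fun y => Wp Wt (FF j x y)).card := by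
  constructor
  · rintro ⟨l, h1, h2, h3⟩
    have := list_card (n := MM x.length j) (fun y => Wp Wt (FF j x y)) l h1 h2
    omega
  · intro h
    refine ⟨(Sub (MM x.length j) fun y => Wp Wt (FF j x y)).toList, Finset.nodup_toList _, ?_, ?_⟩
    · intro y hy
      rw [Finset.mem_toList] at hy
      exact mem_Sub.1 hy
    · rwa [Finset.length_toList]

/-- inclusion and exclusion -/
theorem incl {ι β : Type} [DecidableEq ι] [DecidableEq β] (A : ι → Finset β) (K m : ℕ)
    (T : Finset ι) (h : ∀ x ∈ T, ∀ x' ∈ T, x ≠ x' → (A x ∩ A x').card * K ≤ m) :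
    (∑ x ∈ T, (A x).card) * K ≤ (T.biUnion A).card * K + m * (T.card * (T.card - 1)) := by
  induction T using Finset.induction_on with
  | empty => simp
  | insert x T hx ih =>
    have h1 := ih fun a ha b hb => h a (Finset.mem_insert_of_mem ha) b (Finset.mem_insert_of_mem hb)
    rw [Finset.sum_insert hx, Finset.biUnion_insert, Finset.card_insert_of_notMem hx]
    have h2 := Finset.card_union_add_card_inter (A x) (T.biUnion A)
    have h3 : (A x ∩ T.biUnion A).card * K ≤ m * T.card := by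
      rw [Finset.inter_biUnion]
      calc (T.biUnion fun y => A x ∩ A y).card * K ≤ (∑ y ∈ T, (A x ∩ A y).card) * K :=
            Nat.mul_le_mul_right _ Finset.card_biUnion_le
        _ = ∑ y ∈ T, (A x ∩ A y).card * K := Finset.sum_mul _ _ _
        _ ≤ ∑ _y ∈ T, m := Finset.sum_le_sum fun y hy =>
            h x (Finset.mem_insert_self _ _) y (Finset.mem_insert_of_mem hy) fun e => hx (e ▸ hy)
        _ = m * T.card := by rw [Finset.sum_const, smul_eq_mul, mul_comm]
    have h4 : m * (T.card * (T.card - 1)) + m * T.card ≤ m * ((T.card + 1) * (T.card + 1 - 1)) := by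
      rcases T.card with _ | k
      · simp
      · simp only [Nat.add_sub_cancel]
        rw [← Nat.mul_add]
        refine Nat.mul_le_mul_left _ ?_
        nlinarith
    calc ((A x).card + ∑ x ∈ T, (A x).card) * K = (A x).card * K + (∑ x ∈ T, (A x).card) * K := by
          ring
      _ ≤ (A x).card * K + ((T.biUnion A).card * K + m * (T.card * (T.card - 1))) :=
          Nat.add_le_add_left h1 _
      _ = ((A x).card + (T.biUnion A).card) * K + m * (T.card * (T.card - 1)) := by ring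
      _ = ((A x ∪ T.biUnion A).card + (A x ∩ T.biUnion A).card) * K +
            m * (T.card * (T.card - 1)) := by rw [h2]
      _ ≤ (A x ∪ T.biUnion A).card * K + m * T.card + m * (T.card * (T.card - 1)) := by
          rw [add_mul]
          omega
      _ ≤ _ := by omega

variable {Wt} {D}

/-- few strings are unlucky -/
theorem Unl_card (hW : ∀ L, (Sub L (Wp Wt)).card * 2 ^ 9 ≤ 2 ^ L) (n j : ℕ) :
    (Sub n fun x => Unl Wt x j).card * 64 ≤ 2 ^ j := by
  classical
  by_contra hcon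
  push Not at hcon
  have ha : 2 ^ (j - 6) ≤ (Sub n fun x => Unl Wt x j).card := by
    rcases Nat.lt_or_ge j 6 with h | h
    · rw [Nat.sub_eq_zero_of_le h.le, pow_zero]
      by_contra h0
      have : (Sub n fun x => Unl Wt x j).card = 0 := by omega
      rw [this] at hcon
      simp at hcon
    · have e : (2 : ℕ) ^ j = 2 ^ (j - 6) * 64 := by
        rw [show (64 : ℕ) = 2 ^ 6 by norm_num, ← pow_add, Nat.sub_add_cancel h]
      rw [e] at hcon
      exact (Nat.lt_of_mul_lt_mul_right hcon).le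
  obtain ⟨T, hT, hTa⟩ := Finset.exists_subset_card_eq ha
  set a := 2 ^ (j - 6) with haa
  set A : List Bool → Finset (List Bool) := fun x =>
    (Sub (MM n j) fun y => Wp Wt (FF j x y)).image (FF j x) with hA
  have hT' : ∀ x ∈ T, x.length = n ∧ Unl Wt x j := fun x hx => mem_Sub.1 (hT hx)
  have hAc : ∀ x ∈ T, 2 ^ MM n j < 4 * (A x).card := by
    intro x hx
    obtain ⟨h1, h2⟩ := hT' x hx
    rw [Unl_iff, h1] at h2
    rwa [hA, Finset.card_image_of_injective _ fun y y' h => (FF_inj h).2]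
  have hcoll : ∀ x ∈ T, ∀ x' ∈ T, x ≠ x' → (A x ∩ A x').card * 2 ^ j ≤ 2 ^ MM n j := by
    intro x hx x' hx' hne
    refine le_trans (Nat.mul_le_mul_right _ ?_) (coll (hT' x hx).1 (hT' x' hx').1 hne)
    have : A x ∩ A x' ⊆ (Sub (MM n j) fun y => hh j x y = hh j x' y).image (FF j x) := by
      intro z hz
      rw [Finset.mem_inter, hA, Finset.mem_image, Finset.mem_image] at hz
      obtain ⟨⟨y, hy, rfl⟩, ⟨y', hy', h'⟩⟩ := hz
      obtain ⟨h3, rfl⟩ := FF_inj h'
      exact Finset.mem_image_of_mem _ (mem_Sub.2 ⟨(mem_Sub.1 hy).1, h3.symm⟩)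
    exact (Finset.card_le_card this).trans Finset.card_image_le
  have h1 := incl A (2 ^ j) (2 ^ MM n j) T hcoll
  have hU : (T.biUnion A).card * 2 ^ 9 ≤ 2 ^ MM n j * 2 ^ j := by
    rw [← pow_add, MM_add]
    refine le_trans (Nat.mul_le_mul_right _ (Finset.card_le_card ?_)) (hW (LL n j))
    intro z hz
    obtain ⟨x, hx, hz⟩ := Finset.mem_biUnion.1 hz
    rw [hA, Finset.mem_image] at hz
    obtain ⟨y, hy, rfl⟩ := hz
    rw [mem_Sub] at hy
    rw [mem_Sub]
    have hxn := (hT' x hx).1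
    subst hxn
    exact ⟨length_FF hy.1, hy.2⟩
  have hsum : a * 2 ^ MM n j < 4 * ∑ x ∈ T, (A x).card := by
    rw [Finset.mul_sum]
    have hne : T.Nonempty := by
      rw [← Finset.card_pos, hTa, haa]
      positivity
    calc a * 2 ^ MM n j = ∑ _x ∈ T, 2 ^ MM n j := by rw [Finset.sum_const, smul_eq_mul, hTa]
      _ < _ := Finset.sum_lt_sum_of_nonempty hne hAc
  rw [hTa] at h1
  -- the final computation
  set S := ∑ x ∈ T, (A x).card
  set u := (T.biUnion A).card
  have hp : 0 < 2 ^ MM n j := by positivity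
  generalize 2 ^ MM n j = X at *
  have h2 : a * 2 ^ (j + 9) < 4 * (2 ^ j * 2 ^ j) + 2048 * (a * (a - 1)) := by
    have h3 : X * (a * 2 ^ (j + 9)) < X * (4 * (2 ^ j * 2 ^ j) + 2048 * (a * (a - 1))) := by
      calc X * (a * 2 ^ (j + 9)) = (a * X) * (2 ^ j * 2 ^ 9) := by rw [pow_add]; ring
        _ < (4 * S) * (2 ^ j * 2 ^ 9) := Nat.mul_lt_mul_of_pos_right hsum (by positivity)
        _ = (S * 2 ^ j) * (4 * 2 ^ 9) := by ring
        _ ≤ (u * 2 ^ j + X * (a * (a - 1))) * (4 * 2 ^ 9) := Nat.mul_le_mul_right _ h1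
        _ = (u * 2 ^ 9) * (4 * 2 ^ j) + X * (2048 * (a * (a - 1))) := by ring
        _ ≤ (X * 2 ^ j) * (4 * 2 ^ j) + X * (2048 * (a * (a - 1))) :=
            Nat.add_le_add_right (Nat.mul_le_mul_right _ hU) _
        _ = _ := by ring
    exact Nat.lt_of_mul_lt_mul_left h3
  rcases Nat.lt_or_ge j 6 with h | h
  · have ha1 : a = 1 := by rw [haa, Nat.sub_eq_zero_of_le h.le, pow_zero]
    rw [ha1] at h2
    interval_cases j <;> norm_num at h2
  · have e : (2 : ℕ) ^ j = a * 64 := by
      rw [haa, show (64 : ℕ) = 2 ^ 6 by norm_num, ← pow_add, Nat.sub_add_cancel h]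
    rw [pow_add, e] at h2
    have h5 : a * (a - 1) ≤ a * a := Nat.mul_le_mul_left _ (Nat.sub_le _ _)
    have h6 : 0 < a * a := by rw [haa]; positivity
    nlinarith

theorem Zp_mono {x : List Bool} {j k : ℕ} (h : j ≤ k) (hz : Zp Wt x j) : Zp Wt x k := by
  rcases hz with ⟨j', h1, h2⟩ | h1
  · exact Or.inl ⟨j', by omega, h2⟩
  · exact Or.inr (by omega)

theorem Zp_card (hW : ∀ L, (Sub L (Wp Wt)).card * 2 ^ 9 ≤ 2 ^ L) {n j : ℕ} (hj : j < JJ n) :
    (Sub n fun x => Zp Wt x j).card * 32 ≤ 2 ^ j := by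
  have h1 : (Sub n fun x => Zp Wt x j).card ≤
      (Sub n fun x => ∃ j' ∈ Finset.range (j + 1), Unl Wt x j').card := by
    refine Sub_mono fun x hx h => ?_
    rcases h with ⟨j', h1, h2⟩ | h1
    · exact ⟨j', Finset.mem_range.2 h1, h2⟩
    · rw [hx] at h1
      omega
  have h2 := Sub_ex n (Finset.range (j + 1)) fun j' x => Unl Wt x j'
  have h3 : (∑ j' ∈ Finset.range (j + 1), (Sub n fun x => Unl Wt x j').card) * 64 ≤
      2 ^ (j + 1) := by
    rw [Finset.sum_mul]
    refine (Finset.sum_le_sum fun j' _ => Unl_card hW n j').trans ?_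
    have : ∀ m : ℕ, ∑ i ∈ Finset.range m, 2 ^ i ≤ 2 ^ m := by
      intro m
      induction m with
      | zero => simp
      | succ m ih => rw [Finset.sum_range_succ, pow_succ]; omega
    exact this _
  have h4 := (Nat.mul_le_mul_right 64 (h1.trans h2)).trans h3
  rw [pow_succ] at h4
  omega

theorem Zp_of_Hp {j : ℕ} {x : List Bool} (h : Hp Wt D j x) : Zp Wt x (j + 2) := by
  rcases h with ⟨-, h | h⟩ | ⟨-, h⟩
  · exact Zp_mono (by omega) h
  · exact h.1
  · exact Zp_mono (by omega) h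

theorem Hp_card (hW : ∀ L, (Sub L (Wp Wt)).card * 2 ^ 9 ≤ 2 ^ L) {n j : ℕ} :
    (Sub n fun x => Hp Wt D j x).card * 8 ≤ 2 ^ j := by
  rcases Nat.lt_or_ge (j + 2) (JJ n) with h | h
  · have h1 := Zp_card hW h
    have h2 : (Sub n fun x => Hp Wt D j x).card ≤ (Sub n fun x => Zp Wt x (j + 2)).card :=
      Sub_mono fun x _ h => Zp_of_Hp h
    rw [pow_add] at h1
    omega
  · have h1 := Sub_le n fun x => Hp Wt D j x
    rw [Fintype.card_bool] at h1
    calc (Sub n fun x => Hp Wt D j x).card * 8 ≤ 2 ^ n * 8 := Nat.mul_le_mul_right _ h1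
      _ = 2 ^ (n + 3) := by rw [pow_add]; norm_num
      _ ≤ 2 ^ j := Nat.pow_le_pow_right (by norm_num) (by unfold JJ at h; omega)

theorem BadOdd_card (hW : ∀ L, (Sub L (Wp Wt)).card * 2 ^ 9 ≤ 2 ^ L) (L : ℕ) :
    (Sub L (BadOdd Wt D)).card * 8 ≤ 2 ^ L := by
  by_cases h : ∃ n j, L = LL n j
  · obtain ⟨n, j, rfl⟩ := h
    have h1 : (Sub (LL n j) (BadOdd Wt D)).card ≤
        ((Sub n fun x => Hp Wt D j x) ×ˢ Str Bool (MM n j)).card := by
      refine Finset.card_le_card_of_surjOn (fun p => FF j p.1 p.2) ?_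
      intro z hz
      rw [Finset.mem_coe, mem_Sub] at hz
      obtain ⟨hz, x, j', y, hj', hy, hH, rfl⟩ := hz
      rw [length_FF hy] at hz
      obtain ⟨rfl, rfl⟩ := LL_inj hz
      refine ⟨(x, y), ?_, rfl⟩
      rw [Finset.mem_coe, Finset.mem_product, mem_Sub, mem_Str]
      exact ⟨⟨rfl, hH⟩, hy⟩
    rw [Finset.card_product, card_Str, Fintype.card_bool] at h1
    calc (Sub (LL n j) (BadOdd Wt D)).card * 8 ≤
          (Sub n fun x => Hp Wt D j x).card * 2 ^ MM n j * 8 := Nat.mul_le_mul_right _ h1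
      _ = (Sub n fun x => Hp Wt D j x).card * 8 * 2 ^ MM n j := by ring
      _ ≤ 2 ^ j * 2 ^ MM n j := Nat.mul_le_mul_right _ (Hp_card hW)
      _ = 2 ^ LL n j := by rw [← pow_add, add_comm, MM_add]
  · have : Sub L (BadOdd Wt D) = ∅ := by
      refine Finset.eq_empty_of_forall_notMem fun z hz => ?_
      rw [mem_Sub] at hz
      obtain ⟨hz, x, j', y, hj', hy, hH, rfl⟩ := hz
      rw [length_FF hy] at hz
      exact h ⟨_, _, hz.symm⟩
    rw [this]
    simp

/-- few strings are bad for sampling -/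
theorem GX_card (hmono : ∀ s t z, s ≤ t → Wt s z = true → Wt t z = true)
    (hW : ∀ L, (Sub L (Wp Wt)).card * 2 ^ 9 ≤ 2 ^ L) {n j : ℕ} (hj : j < JJ n) {x : List Bool}
    (hx : x.length = n) :
    (Sub (2 * bb n) (GX Wt D x j)).card * 2 ^ kk n ≤ 2 ^ (2 * bb n) := by
  classical
  subst hx
  rcases (Sub (2 * bb x.length) (GX Wt D x j)).eq_empty_or_nonempty with he | hne
  · rw [he]
    simp
  have hch : ∀ v, ∃ (t : ℕ) (l : List (List Bool)), v ∈ Sub (2 * bb x.length) (GX Wt D x j) →
      4 * l.length ≤ 2 ^ MM x.length j ∧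
      (∀ y ∈ allStr (MM x.length j), Wt t (FF j x y) = true → y ∈ l) ∧
      ∀ i < kk x.length, Wt t (FF j x (blk v i (MM x.length j))) = true ∨
        ∃ x' : List Bool, x'.length = x.length ∧ x' ≠ x ∧ Hp Wt D j x' ∧
          hh j x' (blk v i (MM x.length j)) = hh j x (blk v i (MM x.length j)) := by
    intro v
    by_cases hv : v ∈ Sub (2 * bb x.length) (GX Wt D x j)
    · obtain ⟨t, l, h⟩ := (mem_Sub.1 hv).2
      exact ⟨t, l, fun _ => h⟩
    · exact ⟨0, [], fun h => absurd h hv⟩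
  choose t l htl using hch
  obtain ⟨v0, hv0, hmax⟩ := Finset.exists_max_image _ t hne
  obtain ⟨hl1, hl2, -⟩ := htl v0 hv0
  set P : List Bool → Prop := fun y => Wt (t v0) (FF j x y) = true ∨
    ∃ x' : List Bool, x'.length = x.length ∧ x' ≠ x ∧ Hp Wt D j x' ∧ hh j x' y = hh j x y with hP
  have h1 : (Sub (2 * bb x.length) (GX Wt D x j)).card ≤ (Sub (2 * bb x.length) fun v =>
      ∀ i < kk x.length, P ((v.drop (i * MM x.length j)).take (MM x.length j))).card := by
    refine Finset.card_le_card fun v hv => ?_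
    rw [mem_Sub]
    refine ⟨(mem_Sub.1 hv).1, fun i hi => ?_⟩
    rcases (htl v hv).2.2 i hi with h | h
    · exact Or.inl (hmono _ _ _ (hmax v hv) h)
    · exact Or.inr h
  have h2 := block P (MM x.length j) (kk x.length) (2 * bb x.length) (kk_MM_le hj)
  -- the density of `P`
  have hA : 4 * (Sub (MM x.length j) fun y => Wt (t v0) (FF j x y) = true).card ≤
      2 ^ MM x.length j := by
    refine le_trans (Nat.mul_le_mul_left 4 ?_) hl1
    refine (Finset.card_le_card (t := (l v0).toFinset) fun y hy => ?_).trans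
      (List.toFinset_card_le _)
    rw [mem_Sub] at hy
    rw [List.mem_toFinset]
    exact hl2 y (mem_allStr.2 hy.1) hy.2
  have hB : 8 * (Sub (MM x.length j) fun y => ∃ x' : List Bool, x'.length = x.length ∧ x' ≠ x ∧
      Hp Wt D j x' ∧ hh j x' y = hh j x y).card ≤ 2 ^ MM x.length j := by
    have e1 : (Sub (MM x.length j) fun y => ∃ x' : List Bool, x'.length = x.length ∧ x' ≠ x ∧
        Hp Wt D j x' ∧ hh j x' y = hh j x y).card ≤ (Sub (MM x.length j) fun y =>
        ∃ x' ∈ (Sub x.length fun x => Hp Wt D j x).erase x, hh j x y = hh j x' y).card := by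
      refine Sub_mono fun y _ h => ?_
      obtain ⟨x', h1, h2, h3, h4⟩ := h
      exact ⟨x', Finset.mem_erase.2 ⟨h2, mem_Sub.2 ⟨h1, h3⟩⟩, h4.symm⟩
    have e2 := Sub_ex (MM x.length j) ((Sub x.length fun x => Hp Wt D j x).erase x)
      fun x' y => hh j x y = hh j x' y
    have e3 : (∑ x' ∈ (Sub x.length fun x => Hp Wt D j x).erase x,
        (Sub (MM x.length j) fun y => hh j x y = hh j x' y).card) * 2 ^ j ≤
        (Sub x.length fun x => Hp Wt D j x).card * 2 ^ MM x.length j := by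
      rw [Finset.sum_mul]
      calc _ ≤ ∑ _x' ∈ (Sub x.length fun x => Hp Wt D j x).erase x, 2 ^ MM x.length j := by
            refine Finset.sum_le_sum fun x' hx' => ?_
            rw [Finset.mem_erase, mem_Sub] at hx'
            exact coll rfl hx'.2.1 (Ne.symm hx'.1)
        _ = ((Sub x.length fun x => Hp Wt D j x).erase x).card * 2 ^ MM x.length j := by
            rw [Finset.sum_const, smul_eq_mul]
        _ ≤ _ := Nat.mul_le_mul_right _ (Finset.card_le_card (Finset.erase_subset _ _))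
    have e4 := Hp_card (D := D) hW (n := x.length) (j := j)
    refine le_trans (Nat.mul_le_mul_left 8 (e1.trans e2)) ?_
    set s := ∑ x' ∈ (Sub x.length fun x => Hp Wt D j x).erase x,
        (Sub (MM x.length j) fun y => hh j x y = hh j x' y).card
    set h := (Sub x.length fun x => Hp Wt D j x).card
    have e5 : (8 * s) * 2 ^ j ≤ 2 ^ MM x.length j * 2 ^ j := by
      calc (8 * s) * 2 ^ j = 8 * (s * 2 ^ j) := by ring
        _ ≤ 8 * (h * 2 ^ MM x.length j) := Nat.mul_le_mul_left _ e3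
        _ = (h * 8) * 2 ^ MM x.length j := by ring
        _ ≤ 2 ^ j * 2 ^ MM x.length j := Nat.mul_le_mul_right _ e4
        _ = _ := by ring
    exact Nat.le_of_mul_le_mul_right e5 (by positivity)
  have hPc : 2 * (Sub (MM x.length j) P).card ≤ 2 ^ MM x.length j := by
    have h := Sub_or (MM x.length j) (fun y => Wt (t v0) (FF j x y) = true)
      (fun y => ∃ x' : List Bool, x'.length = x.length ∧ x' ≠ x ∧ Hp Wt D j x' ∧
        hh j x' y = hh j x y)
    change (Sub (MM x.length j) P).card ≤ _ at h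
    omega
  rw [Fintype.card_bool] at h2
  set c := (Sub (2 * bb x.length) fun v =>
      ∀ i < kk x.length, P ((v.drop (i * MM x.length j)).take (MM x.length j))).card
  set p := (Sub (MM x.length j) P).card
  have h3 : (c * 2 ^ kk x.length) * 2 ^ (kk x.length * MM x.length j) ≤
      2 ^ (2 * bb x.length) * 2 ^ (kk x.length * MM x.length j) := by
    calc (c * 2 ^ kk x.length) * 2 ^ (kk x.length * MM x.length j)
        = (c * 2 ^ (kk x.length * MM x.length j)) * 2 ^ kk x.length := by ring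
      _ ≤ (p ^ kk x.length * 2 ^ (2 * bb x.length)) * 2 ^ kk x.length :=
          Nat.mul_le_mul_right _ h2
      _ = (2 * p) ^ kk x.length * 2 ^ (2 * bb x.length) := by rw [mul_pow]; ring
      _ ≤ (2 ^ MM x.length j) ^ kk x.length * 2 ^ (2 * bb x.length) :=
          Nat.mul_le_mul_right _ (Nat.pow_le_pow_left hPc _)
      _ = _ := by rw [← pow_mul, mul_comm (MM x.length j)]; ring
  have h4 := Nat.le_of_mul_le_mul_right h3 (by positivity)
  exact (Nat.mul_le_mul_right _ h1).trans h4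

theorem GF_card (hmono : ∀ s t z, s ≤ t → Wt s z = true → Wt t z = true)
    (hW : ∀ L, (Sub L (Wp Wt)).card * 2 ^ 9 ≤ 2 ^ L) (b : ℕ) :
    (Sub (2 * b) (GF Wt D)).card * 2 ^ 9 ≤ 2 ^ (2 * b) := by
  by_cases h : ∃ n, b = bb n
  · obtain ⟨n, rfl⟩ := h
    have h1 : (Sub (2 * bb n) (GF Wt D)).card ≤ (Sub (2 * bb n) fun v =>
        ∃ x ∈ Str Bool n, (fun x v => ∃ j ∈ Finset.range (JJ n), GX Wt D x j v) x v).card := by
      refine Sub_mono fun v hv h => ?_
      obtain ⟨x, j, hj, hv', hG⟩ := h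
      have e : bb n = bb x.length := by omega
      have e' := bb_strictMono.injective e
      subst e'
      exact ⟨x, mem_Str.2 rfl, j, Finset.mem_range.2 hj, hG⟩
    have h2 := Sub_ex (2 * bb n) (Str Bool n)
      (fun x v => ∃ j ∈ Finset.range (JJ n), GX Wt D x j v)
    have h3 : ∀ x ∈ Str Bool n, (Sub (2 * bb n) fun v => ∃ j ∈ Finset.range (JJ n),
        GX Wt D x j v).card * 2 ^ kk n ≤ JJ n * 2 ^ (2 * bb n) := by
      intro x hx
      refine (Nat.mul_le_mul_right _ (Sub_ex (2 * bb n) (Finset.range (JJ n))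
        fun j v => GX Wt D x j v)).trans ?_
      rw [Finset.sum_mul]
      calc _ ≤ ∑ _j ∈ Finset.range (JJ n), 2 ^ (2 * bb n) := Finset.sum_le_sum fun j hj =>
            GX_card hmono hW (Finset.mem_range.1 hj) (mem_Str.1 hx)
        _ = _ := by rw [Finset.sum_const, Finset.card_range, smul_eq_mul]
    have h4 : (Sub (2 * bb n) (GF Wt D)).card * 2 ^ kk n ≤ 2 ^ n * (JJ n * 2 ^ (2 * bb n)) := by
      refine (Nat.mul_le_mul_right _ (h1.trans h2)).trans ?_
      rw [Finset.sum_mul]
      calc _ ≤ ∑ _x ∈ Str Bool n, JJ n * 2 ^ (2 * bb n) := Finset.sum_le_sum h3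
        _ = _ := by rw [Finset.sum_const, card_Str, Fintype.card_bool, smul_eq_mul]
    have h5 : JJ n ≤ 2 ^ (n + 3) := by
      unfold JJ
      have : n < 2 ^ n := Nat.lt_two_pow_self
      rw [pow_add]
      omega
    set g := (Sub (2 * bb n) (GF Wt D)).card
    have h6 : (g * 2 ^ 9) * 2 ^ (2 * n + 3) ≤ 2 ^ (2 * bb n) * 2 ^ (2 * n + 3) := by
      calc (g * 2 ^ 9) * 2 ^ (2 * n + 3) = g * 2 ^ kk n := by
            rw [mul_assoc, ← pow_add]
            congr 2
            unfold kk
            omega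
        _ ≤ 2 ^ n * (JJ n * 2 ^ (2 * bb n)) := h4
        _ ≤ 2 ^ n * (2 ^ (n + 3) * 2 ^ (2 * bb n)) :=
            Nat.mul_le_mul_left _ (Nat.mul_le_mul_right _ h5)
        _ = _ := by
            rw [← mul_assoc, ← pow_add, mul_comm]
            congr 2
            omega
    exact Nat.le_of_mul_le_mul_right h6 (by positivity)
  · have : Sub (2 * b) (GF Wt D) = ∅ := by
      refine Finset.eq_empty_of_forall_notMem fun v hv => ?_
      rw [mem_Sub] at hv
      obtain ⟨hv, x, j, hj, hv', hG⟩ := hv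
      exact h ⟨x.length, by omega⟩
    rw [this]
    simp

/-- closed finite sets have small density -/
theorem Cl_card (hmono : ∀ s t z, s ≤ t → Wt s z = true → Wt t z = true)
    (hW : ∀ L, (Sub L (Wp Wt)).card * 2 ^ 9 ≤ 2 ^ L) {l : List (List Pr)} (hl : Cl Wt D l)
    (b : ℕ) : (Sub b fun w => w ∈ l).card * 2 ^ 7 ≤ 4 ^ b := by
  obtain ⟨B, hB⟩ : ∃ B, ∀ w ∈ l, w.length ≤ B := by
    refine ⟨(l.map List.length).sum, fun w hw => ?_⟩
    exact List.single_le_sum (fun _ _ => Nat.zero_le _) _ (List.mem_map_of_mem hw)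
  obtain ⟨d, hd⟩ : ∃ d, B + 1 ≤ b + d := ⟨B + 1, by omega⟩
  induction d generalizing b with
  | zero =>
    have : (Sub b fun w => w ∈ l) = ∅ := by
      refine Finset.eq_empty_of_forall_notMem fun w hw => ?_
      rw [mem_Sub] at hw
      have := hB w hw.2
      omega
    rw [this]
    simp
  | succ d ih =>
    have h1 := ih (b + 1) (by omega)
    have h2 : 2 * (Sub (b + 1) fun w => w ∈ l).card ≤ 4 ^ (b + 1) := by omega
    have h3 := Gam_card (Sub (b + 1) fun w => w ∈ l) h2
    have h4 : (Sub b fun w => w ∈ l).card ≤ (Sub b fun w : List Pr => Wp Wt (fl w)).card +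
        ((Sub b fun w : List Pr => GF Wt D (fl w)).card +
        (Sub b fun w : List Pr => ∀ z ∈ Gam w, z ∈ Sub (b + 1) fun w => w ∈ l).card) := by
      refine le_trans (Sub_mono fun w hw h => ?_) ((Sub_or b _ _).trans
        (Nat.add_le_add_left (Sub_or b _ _) _))
      rcases hl w h with h | h | h
      · exact Or.inl h
      · exact Or.inr (Or.inl h)
      · refine Or.inr (Or.inr fun z hz => ?_)
        rw [mem_Sub]
        exact ⟨by rw [length_of_mem_Gam hz, hw], h z hz⟩
    have h5 := (Nat.mul_le_mul_right (2 ^ 9) (Sub_fl b (Wp Wt))).trans (hW (2 * b))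
    have h6 := (Nat.mul_le_mul_right (2 ^ 9) (Sub_fl b (GF Wt D))).trans (GF_card hmono hW b)
    have h7 : (2 : ℕ) ^ (2 * b) = 4 ^ b := by rw [pow_mul]; norm_num
    rw [h7] at h5 h6
    rw [pow_succ] at h1
    omega

theorem DeadE_card (hmono : ∀ s t z, s ≤ t → Wt s z = true → Wt t z = true)
    (hW : ∀ L, (Sub L (Wp Wt)).card * 2 ^ 9 ≤ 2 ^ L) (b : ℕ) :
    (Sub b (DeadE Wt D)).card * 2 ^ 7 ≤ 4 ^ b := by
  have hch : ∀ w, ∃ l : List (List Pr), DeadE Wt D w → w ∈ l ∧ Cl Wt D l := by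
    intro w
    by_cases h : DeadE Wt D w
    · obtain ⟨l, hl⟩ := h
      exact ⟨l, fun _ => hl⟩
    · exact ⟨[], fun h' => absurd h' h⟩
  choose f hf using hch
  have h1 : Cl Wt D ((Sub b (DeadE Wt D)).toList.flatMap f) := by
    intro z hz
    rw [List.mem_flatMap] at hz
    obtain ⟨w, hw, hz⟩ := hz
    rw [Finset.mem_toList, mem_Sub] at hw
    rcases (hf w hw.2).2 z hz with h | h | h
    · exact Or.inl h
    · exact Or.inr (Or.inl h)
    · refine Or.inr (Or.inr fun z' hz' => ?_)
      rw [List.mem_flatMap]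
      exact ⟨w, by rw [Finset.mem_toList, mem_Sub]; exact hw, h z' hz'⟩
  refine le_trans (Nat.mul_le_mul_right _ (Finset.card_le_card fun w hw => ?_))
    (Cl_card hmono hW h1 b)
  have hw' := mem_Sub.1 hw
  rw [mem_Sub]
  refine ⟨hw'.1, ?_⟩
  rw [List.mem_flatMap]
  exact ⟨w, Finset.mem_toList.2 hw, (hf w hw'.2).1⟩

/-- the density of the set of strings which are made compressible -/
theorem Bad_card (hmono : ∀ s t z, s ≤ t → Wt s z = true → Wt t z = true)
    (hW : ∀ L, (Sub L (Wp Wt)).card * 2 ^ 9 ≤ 2 ^ L) (L : ℕ) :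
    (Sub L (Bad Wt D)).card * 4 ≤ 2 ^ L := by
  have h1 := Sub_or L (BadOdd Wt D) fun z => ∃ w, z = fl w ∧ DeadE Wt D w
  have h2 := BadOdd_card (D := D) hW L
  have h3 : (Sub L fun z => ∃ w, z = fl w ∧ DeadE Wt D w).card * 2 ^ 7 ≤ 2 ^ L := by
    by_cases h : ∃ b, L = 2 * b
    · obtain ⟨b, rfl⟩ := h
      have h4 : (Sub (2 * b) fun z => ∃ w, z = fl w ∧ DeadE Wt D w).card ≤
          (Sub b (DeadE Wt D)).card := by
        refine Finset.card_le_card_of_surjOn fl ?_
        intro z hz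
        rw [Finset.mem_coe, mem_Sub] at hz
        obtain ⟨hz, w, rfl, hw⟩ := hz
        rw [length_fl] at hz
        exact ⟨w, mem_Sub.2 ⟨by omega, hw⟩, rfl⟩
      have h7 : (2 : ℕ) ^ (2 * b) = 4 ^ b := by rw [pow_mul]; norm_num
      rw [h7]
      exact (Nat.mul_le_mul_right _ h4).trans (DeadE_card hmono hW b)
    · have : (Sub L fun z => ∃ w, z = fl w ∧ DeadE Wt D w) = ∅ := by
        refine Finset.eq_empty_of_forall_notMem fun z hz => ?_
        rw [mem_Sub] at hz
        obtain ⟨hz, w, rfl, hw⟩ := hz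
        rw [length_fl] at hz
        exact h ⟨_, hz.symm⟩
      rw [this]
      simp
  have h4 : (Sub L (Bad Wt D)).card = (Sub L fun z => BadOdd Wt D z ∨
    ∃ w, z = fl w ∧ DeadE Wt D w).card := rfl
  omega

end Pool.Agent.Seat68.RC
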