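import Pool.Agent.Seat68.RC.Prim

/-!
The set of strings which are made compressible is recursively enumerable.
-/

set_option autoImplicit false

namespace Pool.Agent.Seat68.RC

open Pool.Agent.Helper578.JD

section comp

variable {α β γ δ : Type} [Primcodable α] [Primcodable β] [Primcodable γ] [Primcodable δ]

@[fun_prop] theorem cpow {f g : α → ℕ} (hf : Computable f) (hg : Computable g) :
    Computable (fun x => f x ^ g x) :=
  (Primrec₂.unpaired'.1 Nat.Primrec.pow : Primrec₂ fun a b : ℕ => a ^ b).to_comp.comp hf hg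

@[fun_prop] theorem cmod {f g : α → ℕ} (hf : Computable f) (hg : Computable g) :
    Computable (fun x => f x % g x) := Primrec.nat_mod.to_comp.comp hf hg

@[fun_prop] theorem chh {j : α → ℕ} {f g : α → List Bool} (hj : Computable j) (hf : Computable f)
    (hg : Computable g) : Computable fun a => hh (j a) (f a) (g a) :=
  (by fun_prop : Primrec fun p : ℕ × List Bool × List Bool =>
    hh p.1 p.2.1 p.2.2).to_comp.comp (hj.pair (hf.pair hg))

@[fun_prop] theorem cFF {j : α → ℕ} {f g : α → List Bool} (hj : Computable j) (hf : Computable f)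
    (hg : Computable g) : Computable fun a => FF (j a) (f a) (g a) :=
  (by fun_prop : Primrec fun p : ℕ × List Bool × List Bool =>
    FF p.1 p.2.1 p.2.2).to_comp.comp (hj.pair (hf.pair hg))

@[fun_prop] theorem cMM {n j : α → ℕ} (hn : Computable n) (hj : Computable j) :
    Computable fun a => MM (n a) (j a) :=
  (by fun_prop : Primrec fun p : ℕ × ℕ => MM p.1 p.2).to_comp.comp (hn.pair hj)

@[fun_prop] theorem cJJ {n : α → ℕ} (hn : Computable n) : Computable fun a => JJ (n a) :=
  (by fun_prop : Primrec fun n : ℕ => JJ n).to_comp.comp hn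

@[fun_prop] theorem ckk {n : α → ℕ} (hn : Computable n) : Computable fun a => kk (n a) :=
  (by fun_prop : Primrec fun n : ℕ => kk n).to_comp.comp hn

@[fun_prop] theorem cbb {n : α → ℕ} (hn : Computable n) : Computable fun a => bb (n a) :=
  (by fun_prop : Primrec fun n : ℕ => bb n).to_comp.comp hn

@[fun_prop] theorem cblk {v : α → List Bool} {i M : α → ℕ} (hv : Computable v)
    (hi : Computable i) (hM : Computable M) : Computable fun a => blk (v a) (i a) (M a) :=
  (by fun_prop : Primrec fun p : List Bool × ℕ × ℕ =>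
    blk p.1 p.2.1 p.2.2).to_comp.comp (hv.pair (hi.pair hM))

@[fun_prop] theorem cfl {w : α → List Pr} (hw : Computable w) : Computable fun a => fl (w a) :=
  (by fun_prop : Primrec fun w : List Pr => fl w).to_comp.comp hw

@[fun_prop] theorem callStr {n : α → ℕ} (hn : Computable n) :
    Computable fun a => allStr (n a) := pallStr.to_comp.comp hn

@[fun_prop] theorem cGam {w : α → List Pr} (hw : Computable w) :
    Computable fun a => Gam (w a) := pGam.to_comp.comp hw

end comp

section re

variable {Wt : ℕ → List Bool → Bool} {D : List Bool → Prop}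
variable {α : Type} [Primcodable α]

theorem reWp (hWt : Computable fun p : ℕ × List Bool => Wt p.1 p.2) {f : α → List Bool}
    (hf : Computable f) : REPred fun a => Wp Wt (f a) := by
  unfold Wp
  refine RE.exN (p := fun a t => Wt t (f a) = true) (RE.of_bool ?_)
  exact hWt.comp (g := fun p : α × ℕ => (p.2, f p.1)) (by fun_prop)

theorem reUnl (hWt : Computable fun p : ℕ × List Bool => Wt p.1 p.2) {x : α → List Bool}
    {j : α → ℕ} (hx : Computable x) (hj : Computable j) :
    REPred fun a => Unl Wt (x a) (j a) := by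
  unfold Unl
  refine RE.ex (p := fun a (l : List (List Bool)) => l.Nodup ∧
    (∀ y ∈ l, y.length = MM (x a).length (j a) ∧ Wp Wt (FF (j a) (x a) y)) ∧
    2 ^ MM (x a).length (j a) < 4 * l.length) ?_
  refine RE.and (RE.cp_nodup (by fun_prop)) (RE.and ?_ (RE.lt (by fun_prop) (by fun_prop)))
  refine RE.all_mem (p := fun (q : α × List (List Bool)) y =>
    y.length = MM (x q.1).length (j q.1) ∧ Wp Wt (FF (j q.1) (x q.1) y))
    (l := fun q => q.2) ?_ (by fun_prop)
  exact RE.and (RE.eq (by fun_prop) (by fun_prop)) (reWp hWt (by fun_prop))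

theorem reZp (hWt : Computable fun p : ℕ × List Bool => Wt p.1 p.2) {x : α → List Bool}
    {j : α → ℕ} (hx : Computable x) (hj : Computable j) :
    REPred fun a => Zp Wt (x a) (j a) := by
  unfold Zp
  refine RE.or ?_ (RE.le (by fun_prop) (by fun_prop))
  refine RE.exN (p := fun a j' => j' < j a + 1 ∧ Unl Wt (x a) j') ?_
  exact RE.and (RE.lt (by fun_prop) (by fun_prop)) (reUnl hWt (by fun_prop) (by fun_prop))

theorem reHp (hWt : Computable fun p : ℕ × List Bool => Wt p.1 p.2) (hD : REPred D)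
    {x : α → List Bool} {j : α → ℕ} (hj : Computable j) (hx : Computable x) :
    REPred fun a => Hp Wt D (j a) (x a) := by
  unfold Hp
  refine RE.or (RE.and (RE.eq (by fun_prop) (by fun_prop)) (RE.or ?_ (RE.and ?_ ?_)))
    (RE.and (RE.eq (by fun_prop) (by fun_prop)) ?_)
  · exact reZp hWt (by fun_prop) (by fun_prop)
  · exact reZp hWt (by fun_prop) (by fun_prop)
  · exact RE.comp hD hx
  · exact reZp hWt (by fun_prop) (by fun_prop)

theorem reBadOdd (hWt : Computable fun p : ℕ × List Bool => Wt p.1 p.2) (hD : REPred D) :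
    REPred (BadOdd Wt D) := by
  unfold BadOdd
  refine RE.ex (p := fun z (x : List Bool) => ∃ j y, j < JJ x.length ∧
    y.length = MM x.length j ∧ Hp Wt D j x ∧ z = FF j x y) ?_
  refine RE.ex (p := fun (q : List Bool × List Bool) (j : ℕ) => ∃ y, j < JJ q.2.length ∧
    y.length = MM q.2.length j ∧ Hp Wt D j q.2 ∧ q.1 = FF j q.2 y) ?_
  refine RE.ex (p := fun (q : (List Bool × List Bool) × ℕ) (y : List Bool) =>
    q.2 < JJ q.1.2.length ∧ y.length = MM q.1.2.length q.2 ∧ Hp Wt D q.2 q.1.2 ∧
      q.1.1 = FF q.2 q.1.2 y) ?_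
  refine RE.and (RE.lt (by fun_prop) (by fun_prop)) (RE.and (RE.eq (by fun_prop) (by fun_prop))
    (RE.and (reHp hWt hD (by fun_prop) (by fun_prop)) (RE.eq (by fun_prop) (by fun_prop))))

theorem reGX (hWt : Computable fun p : ℕ × List Bool => Wt p.1 p.2) (hD : REPred D)
    {x v : α → List Bool} {j : α → ℕ} (hx : Computable x) (hj : Computable j)
    (hv : Computable v) : REPred fun a => GX Wt D (x a) (j a) (v a) := by
  unfold GX
  refine RE.ex (p := fun a (t : ℕ) => ∃ l : List (List Bool),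
    4 * l.length ≤ 2 ^ MM (x a).length (j a) ∧
    (∀ y ∈ allStr (MM (x a).length (j a)), Wt t (FF (j a) (x a) y) = true → y ∈ l) ∧
    ∀ i < kk (x a).length,
      Wt t (FF (j a) (x a) (blk (v a) i (MM (x a).length (j a)))) = true ∨
      ∃ x' : List Bool, x'.length = (x a).length ∧ x' ≠ x a ∧ Hp Wt D (j a) x' ∧
        hh (j a) x' (blk (v a) i (MM (x a).length (j a))) =
          hh (j a) (x a) (blk (v a) i (MM (x a).length (j a)))) ?_
  refine RE.ex (p := fun (q : α × ℕ) (l : List (List Bool)) =>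
    4 * l.length ≤ 2 ^ MM (x q.1).length (j q.1) ∧
    (∀ y ∈ allStr (MM (x q.1).length (j q.1)), Wt q.2 (FF (j q.1) (x q.1) y) = true → y ∈ l) ∧
    ∀ i < kk (x q.1).length,
      Wt q.2 (FF (j q.1) (x q.1) (blk (v q.1) i (MM (x q.1).length (j q.1)))) = true ∨
      ∃ x' : List Bool, x'.length = (x q.1).length ∧ x' ≠ x q.1 ∧ Hp Wt D (j q.1) x' ∧
        hh (j q.1) x' (blk (v q.1) i (MM (x q.1).length (j q.1))) =
          hh (j q.1) (x q.1) (blk (v q.1) i (MM (x q.1).length (j q.1)))) ?_
  refine RE.and (RE.le (by fun_prop) (by fun_prop)) (RE.and ?_ ?_)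
  · refine RE.all_mem (p := fun (q : (α × ℕ) × List (List Bool)) y =>
      Wt q.1.2 (FF (j q.1.1) (x q.1.1) y) = true → y ∈ q.2) ?_ (by fun_prop)
    have h1 : Computable fun q : ((α × ℕ) × List (List Bool)) × List Bool =>
        Wt q.1.1.2 (FF (j q.1.1.1) (x q.1.1.1) q.2) :=
      hWt.comp (g := fun q : ((α × ℕ) × List (List Bool)) × List Bool =>
        (q.1.1.2, FF (j q.1.1.1) (x q.1.1.1) q.2)) (by fun_prop)
    have h2 : REPred fun q : ((α × ℕ) × List (List Bool)) × List Bool =>
        (Wt q.1.1.2 (FF (j q.1.1.1) (x q.1.1.1) q.2) = false) ∨ q.2 ∈ q.1.2 :=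
      RE.or (RE.eq h1 (Computable.const false)) (RE.mem_list (by fun_prop) (by fun_prop))
    refine h2.of_eq fun q => ?_
    cases Wt q.1.1.2 (FF (j q.1.1.1) (x q.1.1.1) q.2) <;> simp
  · refine RE.all_lt (p := fun (q : (α × ℕ) × List (List Bool)) i =>
      Wt q.1.2 (FF (j q.1.1) (x q.1.1) (blk (v q.1.1) i (MM (x q.1.1).length (j q.1.1)))) = true ∨
      ∃ x' : List Bool, x'.length = (x q.1.1).length ∧ x' ≠ x q.1.1 ∧ Hp Wt D (j q.1.1) x' ∧
        hh (j q.1.1) x' (blk (v q.1.1) i (MM (x q.1.1).length (j q.1.1))) =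
          hh (j q.1.1) (x q.1.1) (blk (v q.1.1) i (MM (x q.1.1).length (j q.1.1)))) ?_
      (by fun_prop)
    refine RE.or (RE.of_bool ?_) ?_
    · exact hWt.comp (g := fun q : ((α × ℕ) × List (List Bool)) × ℕ =>
        (q.1.1.2, FF (j q.1.1.1) (x q.1.1.1)
          (blk (v q.1.1.1) q.2 (MM (x q.1.1.1).length (j q.1.1.1))))) (by fun_prop)
    · refine RE.ex (p := fun (q : ((α × ℕ) × List (List Bool)) × ℕ) (x' : List Bool) =>
        x'.length = (x q.1.1.1).length ∧ x' ≠ x q.1.1.1 ∧ Hp Wt D (j q.1.1.1) x' ∧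
        hh (j q.1.1.1) x' (blk (v q.1.1.1) q.2 (MM (x q.1.1.1).length (j q.1.1.1))) =
          hh (j q.1.1.1) (x q.1.1.1)
            (blk (v q.1.1.1) q.2 (MM (x q.1.1.1).length (j q.1.1.1)))) ?_
      exact RE.and (RE.eq (by fun_prop) (by fun_prop)) (RE.and (RE.ne (by fun_prop) (by fun_prop))
        (RE.and (reHp hWt hD (by fun_prop) (by fun_prop))
          (RE.eq (by fun_prop) (by fun_prop))))

theorem reGF (hWt : Computable fun p : ℕ × List Bool => Wt p.1 p.2) (hD : REPred D)
    {v : α → List Bool} (hv : Computable v) : REPred fun a => GF Wt D (v a) := by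
  unfold GF
  refine RE.ex (p := fun a (x : List Bool) => ∃ j < JJ x.length,
    (v a).length = 2 * bb x.length ∧ GX Wt D x j (v a)) ?_
  refine RE.ex (p := fun (q : α × List Bool) (j : ℕ) => j < JJ q.2.length ∧
    (v q.1).length = 2 * bb q.2.length ∧ GX Wt D q.2 j (v q.1)) ?_
  exact RE.and (RE.lt (by fun_prop) (by fun_prop)) (RE.and (RE.eq (by fun_prop) (by fun_prop))
    (reGX hWt hD (by fun_prop) (by fun_prop) (by fun_prop)))

theorem reDeadE (hWt : Computable fun p : ℕ × List Bool => Wt p.1 p.2) (hD : REPred D) :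
    REPred (DeadE Wt D) := by
  unfold DeadE Cl
  refine RE.ex (p := fun w (l : List (List Pr)) => w ∈ l ∧
    ∀ z ∈ l, Wp Wt (fl z) ∨ GF Wt D (fl z) ∨ ∀ z' ∈ Gam z, z' ∈ l) ?_
  refine RE.and (RE.mem_list (by fun_prop) (by fun_prop)) ?_
  refine RE.all_mem (p := fun (q : List Pr × List (List Pr)) z =>
    Wp Wt (fl z) ∨ GF Wt D (fl z) ∨ ∀ z' ∈ Gam z, z' ∈ q.2) ?_ (by fun_prop)
  refine RE.or (reWp hWt (by fun_prop)) (RE.or (reGF hWt hD (by fun_prop)) ?_)
  refine RE.all_mem (p := fun (q : (List Pr × List (List Pr)) × List Pr) z' => z' ∈ q.1.2) ?_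
    (by fun_prop)
  exact RE.mem_list (by fun_prop) (by fun_prop)

/-- the set of strings which are made compressible is recursively enumerable -/
theorem reBad (hWt : Computable fun p : ℕ × List Bool => Wt p.1 p.2) (hD : REPred D) :
    REPred (Bad Wt D) := by
  unfold Bad
  refine RE.or (reBadOdd hWt hD) ?_
  refine RE.ex (p := fun z (w : List Pr) => z = fl w ∧ DeadE Wt D w) ?_
  exact RE.and (RE.eq (by fun_prop) (by fun_prop)) (RE.comp (reDeadE hWt hD) (by fun_prop))

end re

end Pool.Agent.Seat68.RC
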