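import Pool.Agent.Seat68.RC.Alg

/-!
Assembly: one universal machine such that every recursively enumerable set is decided in polynomial
time with the oracle of the random strings.
-/

set_option autoImplicit false

namespace Pool.Agent.Seat68.RC

open Pool.Agent.Helper578.JD Pool.Agent.H38.NP Encodable
open Nat.Partrec (Code)

/-- a complete recursively enumerable set -/
def KK (z : List Bool) : Prop :=
  ((Code.eval (Denumerable.ofNat Code (z.takeWhile id).length)
    (encode (z.drop ((z.takeWhile id).length + 1))))).Dom

theorem reKK : REPred KK := by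
  have h1 : Primrec fun s : List Bool => (s.takeWhile id).length :=
    Primrec.list_length.comp (Primrec.list_takeWhile Primrec.id)
  have h2 : Primrec fun s : List Bool => s.drop ((s.takeWhile id).length + 1) :=
    Primrec.list_drop.comp (Primrec.succ.comp h1) Primrec.id
  have h3 : Partrec fun s : List Bool => Code.eval (Denumerable.ofNat Code
      (s.takeWhile id).length) (encode (s.drop ((s.takeWhile id).length + 1))) :=
    Nat.Partrec.Code.eval_part.comp ((Computable.ofNat Code).comp h1.to_comp)
      (Computable.encode.comp h2.to_comp)
  exact h3.dom_re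

theorem KK_complete {A : List Bool → Prop} (hA : REPred A) :
    ∃ n : ℕ, ∀ w, A w ↔ KK (List.replicate n true ++ false :: w) := by
  obtain ⟨c, hc⟩ := Nat.Partrec.Code.exists_code.1 hA
  refine ⟨encode c, fun w => ?_⟩
  have h1 : (List.takeWhile id (List.replicate (encode c) true ++ false :: w)).length =
      encode c := by
    rw [List.takeWhile_append_of_pos (by simp)]
    simp
  have h2 : List.drop (encode c + 1) (List.replicate (encode c) true ++ false :: w) = w := by
    have : List.replicate (encode c) true ++ false :: w =
        (List.replicate (encode c) true ++ [false]) ++ w := by simp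
    rw [this, List.drop_append_of_le_length (by simp)]
    simp
  unfold KK
  simp only [h1, h2, Denumerable.ofNat_encode, hc]
  simp only [encodek, Part.coe_some, Part.bind_some, Part.map_Dom]
  exact ⟨fun h => ⟨h, trivial⟩, fun ⟨h, _⟩ => h⟩

theorem main : ∃ U : List Bool →. List Bool, Partrec U ∧
    (∀ M : List Bool →. List Bool, Partrec M → ∃ d, ∀ p, U (d ++ p) = M p) ∧
    ∀ A : List Bool → Prop, REPred A → ∃ q r, PolyTime q ∧ PolyTime r ∧ ∃ t : Polynomial ℕ,
      ∀ x : List Bool, (A x ↔ r (pair x (ansl (fun z => ∀ p, z ∈ U p → z.length ≤ p.length) q x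
        (t.eval x.length))) = [true]) := by
  obtain ⟨U, Wt, hU, hUu, hmono, hW, hR⟩ := exists_U KK reKK
  refine ⟨U, hU, hUu, fun A hA => ?_⟩
  obtain ⟨n, hn⟩ := KK_complete hA
  have hR' : (fun z => ∀ p, z ∈ U p → z.length ≤ p.length) = Rn Wt KK :=
    funext fun z => propext (hR z)
  rw [hR']
  have hg : PT fun x : Bits => List.replicate n true ++ false :: x.val := by
    have h1 : PT fun _ : Bits => List.replicate n true := PT.const _
    fun_prop
  obtain ⟨q, r, hq, hr, t, h⟩ := inP_Rn (D := KK) hmono hW hg
  refine ⟨q, r, hq, hr, t, fun x => ?_⟩
  rw [hn x]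
  exact h x

theorem bits_rec (n : ℕ) (h : n ≠ 0) : Nat.bits n = decide (n % 2 = 1) :: Nat.bits (n / 2) := by
  have h1 : n = Nat.bit (decide (n % 2 = 1)) (n / 2) := by
    rw [Nat.bit_val]
    rcases Nat.mod_two_eq_zero_or_one n with h0 | h0
    · rw [h0]; simp; omega
    · rw [h0]; simp; omega
  conv_lhs => rw [h1]
  rw [Nat.bits_append_bit]
  intro h0
  have : n = 1 := by omega
  rw [this]; rfl

theorem primrec_bits : Primrec Nat.bits := by
  have h : Primrec₂ (fun (_ : Unit) (n : ℕ) => Nat.bits n) := by
    refine Primrec.nat_strong_rec (fun (_ : Unit) (n : ℕ) => Nat.bits n)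
      (g := fun (_ : Unit) (L : List (List Bool)) => if L.length = 0 then some [] else
        (L[L.length / 2]?).map fun l => decide (L.length % 2 = 1) :: l) ?_ ?_
    · refine Primrec.ite ?_ (Primrec.const _) ?_
      · exact Primrec.eq.comp (Primrec.list_length.comp Primrec.snd) (Primrec.const 0)
      · refine Primrec.option_map ?_ ?_
        · exact Primrec.list_getElem?.comp Primrec.snd
            (Primrec.nat_div.comp (Primrec.list_length.comp Primrec.snd) (Primrec.const 2))
        · refine Primrec.list_cons.comp ?_ Primrec.snd
          exact (PrimrecPred.decide (Primrec.eq.comp (Primrec.nat_mod.comp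
            (Primrec.list_length.comp (Primrec.snd.comp Primrec.fst)) (Primrec.const 2))
            (Primrec.const 1)))
    · intro _ n
      simp only [List.length_map, List.length_range]
      split_ifs with h0
      · subst h0; rfl
      · have h1 : n / 2 < n := Nat.div_lt_self (Nat.pos_of_ne_zero h0) (by norm_num)
        rw [List.getElem?_map, List.getElem?_range h1, Option.map_some, Option.map_some,
          ← bits_rec n h0]
  exact h.comp (Primrec.const ()) Primrec.id

/-- the halting problem is recursively enumerable -/
theorem reHalt : REPred fun z : List Bool => ∃ (c : Code) (w : List Bool),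
    z = pair (Nat.bits (encode c)) w ∧ (c.eval (encode w)).Dom := by
  have hp : Primrec fun x : List Bool × List Bool => pair x.1 x.2 := by
    unfold pair
    fun_prop
  have hb : Computable Nat.bits := primrec_bits.to_comp
  refine RE.ex (p := fun z (c : Code) => ∃ w : List Bool,
    z = pair (Nat.bits (encode c)) w ∧ (c.eval (encode w)).Dom) ?_
  refine RE.ex (p := fun (x : List Bool × Code) (w : List Bool) =>
    x.1 = pair (Nat.bits (encode x.2)) w ∧ (x.2.eval (encode w)).Dom) ?_
  have hb' : Computable fun x : (List Bool × Code) × List Bool => Nat.bits (encode x.1.2) :=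
    hb.comp (Computable.encode.comp (Computable.snd.comp Computable.fst))
  have h2 : Computable fun x : (List Bool × Code) × List Bool =>
      (Nat.bits (encode x.1.2), x.2) := hb'.pair Computable.snd
  have h3 : Computable fun x : (List Bool × Code) × List Bool =>
      pair (Nat.bits (encode x.1.2)) x.2 :=
    Computable.comp (g := fun x : (List Bool × Code) × List Bool =>
      (Nat.bits (encode x.1.2), x.2)) (f := fun x : List Bool × List Bool => pair x.1 x.2)
      hp.to_comp h2
  have h4 : Computable fun x : (List Bool × Code) × List Bool => x.1.1 :=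
    Computable.fst.comp Computable.fst
  refine RE.and (RE.eq h4 h3) ?_
  have h1 : Partrec fun x : (List Bool × Code) × List Bool => x.1.2.eval (encode x.2) :=
    Nat.Partrec.Code.eval_part.comp (Computable.snd.comp Computable.fst)
      (Computable.encode.comp Computable.snd)
  exact h1.dom_re

end Pool.Agent.Seat68.RC
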