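import Pool.Agent.Seat68.RC.OTM
import Pool.Agent.Seat68.RC.Final

/-!
Assembly with oracle machines.
-/

set_option autoImplicit false

namespace Pool.Agent.Seat68.RC

open Pool.Agent.H38.NP Pool.Agent.H36.Orc Function

open Classical in
/-- the oracle -/
noncomputable def orc (A : Set (List Bool)) (z : Bits) : Bool := decide (z.val ∈ A)

/-- one query of the simulation of an algorithm with the query function `Q` -/
noncomputable def qstep (A : Set (List Bool)) (Q : Bits → (Bits → Bool) → List Bits)
    (z : Bits × List (Bits × Bool)) : Bits × List (Bits × Bool) :=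
  (z.1, (nq (Q z.1) ⟨[]⟩ z.2, orc A (nq (Q z.1) ⟨[]⟩ z.2)) :: z.2)

theorem qstep_iter (A : Set (List Bool)) (Q : Bits → (Bits → Bool) → List Bits) (a : Bits)
    (k : ℕ) : (qstep A Q)^[k] (a, []) = (a, ts (Q a) ⟨[]⟩ (orc A) k) := by
  induction k with
  | zero => rfl
  | succ k ih =>
    rw [iterate_succ_apply', ih]
    rfl

/-- an algorithm with a query function is carried out by an oracle machine -/
theorem simulate (A : Set (List Bool)) (f : Bits → (Bits → Bool) → Bool)
    (Q : Bits → (Bits → Bool) → List Bits) (h : ∀ a, Det (f a) (Q a))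
    (hf : PT fun z : Bits × List (Bits × Bool) => f z.1 (look z.2))
    (hQ : PT fun z : Bits × List (Bits × Bool) => Q z.1 (look z.2))
    {L B : Bits → ℕ} (hL : PT L) (hB : PT B) (eL : ∀ a o, (Q a o).length ≤ L a)
    (eB : ∀ a o, ∀ x ∈ Q a o, sz x ≤ B a) :
    InPOracle A {x | f ⟨x⟩ (orc A) = true} := by
  classical
  have h1 : PT fun z : Bits × List (Bits × Bool) => nq (Q z.1) (⟨[]⟩ : Bits) z.2 := by
    unfold nq key
    exact PT.getD_opt (PT.find? (by fun_prop) hQ) (PT.const _)
  have h2 : OPT A 0 (qstep A Q) := by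
    have e1 : PT fun z : Bits × List (Bits × Bool) =>
        ((z, nq (Q z.1) (⟨[]⟩ : Bits) z.2), nq (Q z.1) (⟨[]⟩ : Bits) z.2) :=
      (PT.id'.mk h1).mk h1
    have e2 : PT fun w : ((Bits × List (Bits × Bool)) × Bits) × Bool =>
        (w.1.1.1, (w.1.2, w.2) :: w.1.1.2) := by fun_prop
    have e3 := OPT.comp (OPT.of_PT (A := A) (κ := 0) e2) (OPT.comp
      (OPT.ask (A := A) (α := (Bits × List (Bits × Bool)) × Bits)) (OPT.of_PT e1))
    exact e3
  have h3 : ∀ (a : Bits) (k : ℕ), sz (ts (Q a) (⟨[]⟩ : Bits) (orc A) k) ≤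
      k * (2 * (2 * B a + 1 + 1) + 1) := by
    intro a k
    have hlen : (ts (Q a) (⟨[]⟩ : Bits) (orc A) k).length = k := by
      induction k with
      | zero => rfl
      | succ k ih => rw [ts, List.length_cons, ih]
    conv_rhs => rw [← hlen]
    refine sz_le_of_forall ?_
    intro p hp
    rw [sz_prod, sz_bool]
    have : sz p.1 ≤ B a := by
      clear hlen
      induction k with
      | zero => simp [ts] at hp
      | succ k ih =>
        rw [ts, List.mem_cons] at hp
        rcases hp with rfl | hp
        · show sz (nq (Q a) _ _) ≤ B a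
          unfold nq
          cases c : (Q a (look (ts (Q a) (⟨[]⟩ : Bits) (orc A) k))).find?
            (!key (ts (Q a) (⟨[]⟩ : Bits) (orc A) k) ·) with
          | none => simp [sz]
          | some y => exact eB _ _ y (List.mem_of_find?_eq_some c)
        · exact ih hp
    omega
  have hi : PT fun a : Bits => (a, ([] : List (Bits × Bool))) := by fun_prop
  have hBB : PB fun a : Bits => 2 * sz a + 1 + L a * (2 * (2 * B a + 1 + 1) + 1) := by
    refine PB.add (PB.add (PB.mul (PB.const 2) PB.sz) (PB.const 1)) (PB.mul hL.nat_pb ?_)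
    exact ((PB.const 2).mul ((((PB.const 2).mul hB.nat_pb).add (PB.const 1)).add
      (PB.const 1))).add (PB.const 1)
  have h4 : OPT A 1 fun a : Bits => (qstep A Q)^[L a] (a, []) := by
    refine OPT.iter h2 hL hi hBB fun a i hi => ?_
    rw [qstep_iter, sz_prod]
    have := h3 a i
    have h5 : i * (2 * (2 * B a + 1 + 1) + 1) ≤ L a * (2 * (2 * B a + 1 + 1) + 1) :=
      Nat.mul_le_mul_right _ hi
    simp only at this ⊢
    omega
  have h5 : OPT A 1 fun a : Bits => f a (orc A) := by
    have e := OPT.comp (OPT.of_PT (A := A) (κ := 1) hf) h4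
    have e2 : (fun a : Bits => f ((qstep A Q)^[L a] (a, [])).1
        (look ((qstep A Q)^[L a] (a, [])).2)) = fun a : Bits => f a (orc A) := by
      funext a
      rw [qstep_iter]
      exact ts_end (h a) (eL a _)
    rw [e2] at e
    exact e
  exact OPT.inPOracle h5 fun x => Iff.rfl

theorem inPOracle_Rn {D : List Bool → Prop} {Wt : ℕ → List Bool → Bool}
    (hmono : ∀ s t z, s ≤ t → Wt s z = true → Wt t z = true)
    (hW : ∀ L, (Sub L (Wp Wt)).card * 2 ^ 9 ≤ 2 ^ L) {g : Bits → List Bool} (hg : PT g) :
    InPOracle {z | Rn Wt D z} {x | D (g ⟨x⟩)} := by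
  classical
  have hf : PT fun z : Bits × List (Bits × Bool) => alg (oo (look z.2)) (g z.1) :=
    PTalg (T := fun z : Bits × List (Bits × Bool) => z.2) (x := fun z => g z.1) (by fun_prop)
      (by fun_prop)
  have hQ : PT fun z : Bits × List (Bits × Bool) => qs (g z.1) (look z.2) :=
    PTqs (T := fun z : Bits × List (Bits × Bool) => z.2) (x := fun z => g z.1) (by fun_prop)
      (by fun_prop)
  have hL : PT fun a : Bits => bb (g a).length * (4 * 7 ^ rounds) +
      JJ (g a).length * kk (g a).length := by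
    have h1 : PT fun _ : Bits => 4 * 7 ^ rounds := PT.const _
    generalize 4 * 7 ^ rounds = R at h1 ⊢
    fun_prop
  have hB : PT fun a : Bits => 2 * bb (g a).length + JJ (g a).length := by fun_prop
  have h := simulate {z | Rn Wt D z} (fun a o => alg (oo o) (g a)) (fun a o => qs (g a) o)
    (fun a => detAlg (g a)) hf hQ hL hB (fun a o => length_qs (g a) o)
    (fun a o => size_qs (g a) o)
  have e : {x | alg (oo (orc {z | Rn Wt D z})) (g ⟨x⟩) = true} = {x | D (g ⟨x⟩)} := by
    ext x
    have h1 : ∀ z, oo (orc {z | Rn Wt D z}) z = true ↔ Rn Wt D z := fun z => by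
      unfold oo orc
      rw [decide_eq_true_iff]
      exact Iff.rfl
    exact alg_correct hmono hW h1 (g ⟨x⟩)
  rw [← e]
  exact h

/-- the main theorem, with oracle machines -/
theorem main2 : ∃ U : List Bool →. List Bool, Partrec U ∧
    (∀ M : List Bool →. List Bool, Partrec M → ∃ d, ∀ p, U (d ++ p) = M p) ∧
    ∀ A : Set (List Bool), REPred (fun x => x ∈ A) →
      InPOracle {z | ∀ p, z ∈ U p → z.length ≤ p.length} A := by
  obtain ⟨U, Wt, hU, hUu, hmono, hW, hR⟩ := exists_U KK reKK
  refine ⟨U, hU, hUu, fun A hA => ?_⟩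
  obtain ⟨n, hn⟩ := KK_complete hA
  have hR' : {z : List Bool | ∀ p, z ∈ U p → z.length ≤ p.length} = {z | Rn Wt KK z} :=
    Set.ext fun z => hR z
  rw [hR']
  have hg : PT fun x : Bits => List.replicate n true ++ false :: x.val := by
    have h1 : PT fun _ : Bits => List.replicate n true := PT.const _
    fun_prop
  have h := inPOracle_Rn (D := KK) hmono hW hg
  have e : A = {x | KK (List.replicate n true ++ false :: x)} := Set.ext fun x => hn x
  rw [e]
  exact h

end Pool.Agent.Seat68.RC
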