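import Pool.Agent.Seat68.RC.Moves

/-!
Regions of strings and their collisions.
-/

set_option autoImplicit false

namespace Pool.Agent.Seat68.RC

open Finset

/-- parity of the common ones of two strings -/
def par (x u : List Bool) : Bool :=
  ((List.range x.length).map fun i => x.getD i false && u.getD i false).foldr xor false

theorem par_cons (a b : Bool) (x u : List Bool) :
    par (a :: x) (b :: u) = xor (a && b) (par x u) := by
  simp [par, List.range_succ_eq_map, Function.comp_def]

/-- hash bits: parities with the consecutive blocks -/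
def hh (j : ℕ) (x y : List Bool) : List Bool :=
  (List.range j).map fun i => par x ((y.drop (i * x.length)).take x.length)

theorem length_hh (j : ℕ) (x y : List Bool) : (hh j x y).length = j := by simp [hh]

/-- the `y`-th string of the region of `x` and `j` -/
def FF (j : ℕ) (x y : List Bool) : List Bool := hh j x y ++ y

theorem FF_inj {j : ℕ} {x y x' y' : List Bool} (h : FF j x y = FF j x' y') :
    hh j x y = hh j x' y' ∧ y = y' := by
  unfold FF at h
  exact List.append_inj h (by simp [length_hh])

/-- the length of the strings of the regions of `x` and `j`, where `x` has length `n` -/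
def LL (n j : ℕ) : ℕ := 2 * Nat.pair n j + 1

/-- the length without hash bits -/
def MM (n j : ℕ) : ℕ := LL n j - j

/-- the number of regions of `x` -/
def JJ (n : ℕ) : ℕ := 2 * n + 6

/-- the number of samples -/
def kk (n : ℕ) : ℕ := 2 * n + 12

/-- half of the number of sample bits -/
def bb (n : ℕ) : ℕ := kk n * (JJ n ^ 2 + 1)

theorem le_LL (n j : ℕ) : j ≤ LL n j := by
  unfold LL
  have := Nat.right_le_pair n j
  omega

theorem MM_add (n j : ℕ) : MM n j + j = LL n j := by
  have := le_LL n j
  unfold MM
  omega

theorem mul_le_MM (n j : ℕ) : j * n ≤ MM n j := by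
  have h : j * n + j ≤ LL n j := by
    unfold LL Nat.pair
    split_ifs with h
    · nlinarith
    · nlinarith
  have := MM_add n j
  omega

theorem LL_inj {n j n' j' : ℕ} (h : LL n j = LL n' j') : n = n' ∧ j = j' := by
  unfold LL at h
  have h1 : Nat.pair n j = Nat.pair n' j' := by omega
  exact Nat.pair_eq_pair.1 h1

theorem length_FF {j : ℕ} {x y : List Bool} (hy : y.length = MM x.length j) :
    (FF j x y).length = LL x.length j := by
  rw [FF, List.length_append, length_hh, hy, add_comm, MM_add]

theorem bb_strictMono : StrictMono bb := by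
  intro m n h
  unfold bb kk JJ
  have h1 : (2 * m + 6) ^ 2 ≤ (2 * n + 6) ^ 2 := Nat.pow_le_pow_left (by omega) 2
  calc (2 * m + 12) * ((2 * m + 6) ^ 2 + 1) < (2 * n + 12) * ((2 * m + 6) ^ 2 + 1) :=
        Nat.mul_lt_mul_of_pos_right (by omega) (by omega)
    _ ≤ _ := Nat.mul_le_mul_left _ (by omega)

theorem kk_MM_le {n j : ℕ} (hj : j < JJ n) : kk n * MM n j ≤ 2 * bb n := by
  have h1 : Nat.pair n j < (max n j + 1) ^ 2 := Nat.pair_lt_max_add_one_sq n j
  have h2 : max n j + 1 ≤ JJ n := by
    unfold JJ at *
    omega
  have h3 : (max n j + 1) ^ 2 ≤ JJ n ^ 2 := Nat.pow_le_pow_left h2 2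
  have h4 : MM n j ≤ 2 * (JJ n ^ 2 + 1) := by
    unfold MM LL
    omega
  calc kk n * MM n j ≤ kk n * (2 * (JJ n ^ 2 + 1)) := Nat.mul_le_mul_left _ h4
    _ = 2 * bb n := by unfold bb; ring

/-- flipping one bit -/
theorem par_flip : ∀ (x u : List Bool) (i : ℕ), i < x.length → i < u.length →
    par x (u.modify i not) = xor (par x u) (x.getD i false) := by
  intro x
  induction x with
  | nil => intro u i h; simp at h
  | cons a x ih =>
    intro u i hi hu
    rcases u with _ | ⟨b, u⟩
    · simp at hu
    · rcases i with _ | i
      · simp only [List.modify_zero_cons, par_cons, List.getD_cons_zero]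
        cases a <;> cases b <;> cases par x u <;> rfl
      · simp only [List.modify_succ_cons, par_cons, List.getD_cons_succ]
        rw [ih u i (by simpa using hi) (by simpa using hu)]
        cases (a && b) <;> cases par x u <;> cases x.getD i false <;> rfl

theorem half {n : ℕ} {x x' : List Bool} (hx : x.length = n) (hx' : x'.length = n) (h : x ≠ x') :
    2 * (Sub n fun u => par x u = par x' u).card ≤ 2 ^ n := by
  classical
  obtain ⟨i, hi, hne⟩ : ∃ i, i < n ∧ x.getD i false ≠ x'.getD i false := by
    by_contra hcon
    push Not at hcon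
    apply h
    apply List.ext_getElem (hx.trans hx'.symm)
    intro i h1 h2
    have := hcon i (hx ▸ h1)
    rwa [List.getD_eq_getElem _ _ h1, List.getD_eq_getElem _ _ h2] at this
  have hinv : Function.Involutive fun u : List Bool => u.modify i not := by
    intro u
    apply List.ext_getElem (by simp)
    intro k h1 h2
    simp only [List.getElem_modify]
    split_ifs <;> simp
  set A := Sub n fun u => par x u = par x' u with hA
  have hdis : Disjoint A (A.image fun u : List Bool => u.modify i not) := by
    rw [Finset.disjoint_left]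
    intro u hu hu'
    obtain ⟨w, hw, rfl⟩ := Finset.mem_image.1 hu'
    rw [hA, mem_Sub] at hu hw
    have h1 := hu.2
    rw [par_flip x w i (by omega) (by omega), par_flip x' w i (by omega) (by omega), hw.2] at h1
    apply hne
    revert h1
    cases par x' w <;> cases x.getD i false <;> cases x'.getD i false <;> simp
  have hsub : A ∪ (A.image fun u : List Bool => u.modify i not) ⊆ Str Bool n := by
    intro u hu
    rw [mem_Str]
    rcases Finset.mem_union.1 hu with hu | hu
    · exact (mem_Sub.1 hu).1
    · obtain ⟨w, hw, rfl⟩ := Finset.mem_image.1 hu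
      simp [(mem_Sub.1 hw).1]
  have h1 := Finset.card_le_card hsub
  rw [Finset.card_union_of_disjoint hdis, Finset.card_image_of_injective _ hinv.injective,
    card_Str] at h1
  simp only [Fintype.card_bool] at h1
  omega

/-- few collisions between the regions of different strings -/
theorem coll {n j : ℕ} {x x' : List Bool} (hx : x.length = n) (hx' : x'.length = n) (h : x ≠ x') :
    (Sub (MM n j) fun y => hh j x y = hh j x' y).card * 2 ^ j ≤ 2 ^ MM n j := by
  have h1 : (Sub (MM n j) fun y => hh j x y = hh j x' y).card =
      (Sub (MM n j) fun y => ∀ i < j, (fun u => par x u = par x' u)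
        ((y.drop (i * n)).take n)).card := by
    refine Sub_congr fun y _ => ?_
    unfold hh
    rw [hx, hx']
    simp
  rw [h1]
  have h2 := block (α := Bool) (fun u => par x u = par x' u) n j (MM n j) (mul_le_MM n j)
  have h3 := half hx hx' h
  generalize (Sub (MM n j) fun y => ∀ i < j, (fun u => par x u = par x' u)
        ((y.drop (i * n)).take n)).card = c at h2 ⊢
  generalize (Sub n fun u => par x u = par x' u).card = s at h2 h3
  simp only [Fintype.card_bool] at h2
  have h4 : (2 * s) ^ j ≤ (2 ^ n) ^ j := Nat.pow_le_pow_left h3 j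
  have h5 : (c * 2 ^ j) * 2 ^ (j * n) ≤ 2 ^ MM n j * 2 ^ (j * n) := by
    calc (c * 2 ^ j) * 2 ^ (j * n) = c * 2 ^ (j * n) * 2 ^ j := by ring
      _ ≤ s ^ j * 2 ^ MM n j * 2 ^ j := Nat.mul_le_mul_right _ h2
      _ = (2 * s) ^ j * 2 ^ MM n j := by rw [mul_pow]; ring
      _ ≤ (2 ^ n) ^ j * 2 ^ MM n j := Nat.mul_le_mul_right _ h4
      _ = 2 ^ MM n j * 2 ^ (j * n) := by rw [← pow_mul, mul_comm n j]; ring
  exact Nat.le_of_mul_le_mul_right h5 (by positivity)

/-- the `i`-th block of length `M` -/
def blk (v : List Bool) (i M : ℕ) : List Bool := (v.drop (i * M)).take M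

theorem length_blk {n j i : ℕ} {v : List Bool} (hv : v.length = 2 * bb n) (hj : j < JJ n)
    (hi : i < kk n) : (blk v i (MM n j)).length = MM n j := by
  have h1 := kk_MM_le hj
  have h2 : (i + 1) * MM n j ≤ kk n * MM n j := Nat.mul_le_mul_right _ hi
  have h3 : (i + 1) * MM n j = i * MM n j + MM n j := by ring
  unfold blk
  rw [List.length_take, List.length_drop]
  omega

/-- flattening of a list of pairs -/
def fl (w : List Pr) : List Bool := w.flatMap fun p => [p.1, p.2]

theorem fl_cons (p : Pr) (w : List Pr) : fl (p :: w) = p.1 :: p.2 :: fl w := by simp [fl]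

theorem length_fl (w : List Pr) : (fl w).length = 2 * w.length := by
  induction w with
  | nil => rfl
  | cons p w ih => rw [fl_cons]; simp only [List.length_cons, ih]; ring

theorem fl_inj : Function.Injective fl := by
  intro w
  induction w with
  | nil =>
    intro w' h
    rcases w' with _ | ⟨p, w'⟩
    · rfl
    · rw [fl_cons] at h; simp [fl] at h
  | cons p w ih =>
    intro w' h
    rcases w' with _ | ⟨p', w'⟩
    · rw [fl_cons] at h; simp [fl] at h
    · rw [fl_cons, fl_cons] at h
      simp only [List.cons.injEq] at h
      rw [ih h.2.2]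
      exact congrArg (· :: w') (Prod.ext h.1 h.2.1)

/-- transport of counts along flattening -/
theorem Sub_fl (b : ℕ) (P : List Bool → Prop) :
    (Sub b fun w : List Pr => P (fl w)).card ≤ (Sub (2 * b) P).card := by
  refine Finset.card_le_card_of_injOn fl ?_ fl_inj.injOn
  intro w hw
  rw [Finset.mem_coe, mem_Sub] at hw ⊢
  exact ⟨by rw [length_fl, hw.1], hw.2⟩

end Pool.Agent.Seat68.RC
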