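import Mathlib

/-!
Lists of given length, and the blocks of a list.
-/

set_option autoImplicit false

namespace Pool.Agent.Seat68.RC

open Finset

section

variable {α : Type} [Fintype α]

/-- the lists of length `n` -/
def Str (α : Type) [Fintype α] (n : ℕ) : Finset (List α) :=
  (Finset.univ : Finset (Fin n → α)).map ⟨List.ofFn, List.ofFn_injective⟩

theorem mem_Str {n : ℕ} {l : List α} : l ∈ Str α n ↔ l.length = n := by
  unfold Str
  simp only [Finset.mem_map, Finset.mem_univ, true_and, Function.Embedding.coeFn_mk]
  constructor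
  · rintro ⟨v, rfl⟩
    exact List.length_ofFn
  · rintro rfl
    exact ⟨l.get, List.ofFn_get l⟩

theorem card_Str (n : ℕ) : (Str α n).card = Fintype.card α ^ n := by
  unfold Str
  rw [Finset.card_map, Finset.card_univ, Fintype.card_fun, Fintype.card_fin]

open Classical in
/-- the lists of length `n` with a property -/
noncomputable def Sub (n : ℕ) (P : List α → Prop) : Finset (List α) := (Str α n).filter P

theorem mem_Sub {n : ℕ} {P : List α → Prop} {l : List α} : l ∈ Sub n P ↔ l.length = n ∧ P l := by
  classical
  unfold Sub
  rw [Finset.mem_filter, mem_Str]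

theorem Sub_mono {n : ℕ} {P Q : List α → Prop} (h : ∀ l, l.length = n → P l → Q l) :
    (Sub n P).card ≤ (Sub n Q).card := by
  refine Finset.card_le_card fun l hl => ?_
  rw [mem_Sub] at hl ⊢
  exact ⟨hl.1, h l hl.1 hl.2⟩

theorem Sub_congr {n : ℕ} {P Q : List α → Prop} (h : ∀ l, l.length = n → (P l ↔ Q l)) :
    (Sub n P).card = (Sub n Q).card :=
  le_antisymm (Sub_mono fun l hl => (h l hl).1) (Sub_mono fun l hl => (h l hl).2)

theorem Sub_or (n : ℕ) (P Q : List α → Prop) :
    (Sub n fun l => P l ∨ Q l).card ≤ (Sub n P).card + (Sub n Q).card := by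
  classical
  refine (Finset.card_le_card (t := Sub n P ∪ Sub n Q) fun l hl => ?_).trans
    (Finset.card_union_le _ _)
  rw [mem_Sub] at hl
  rw [Finset.mem_union, mem_Sub, mem_Sub]
  rcases hl.2 with h | h
  · exact Or.inl ⟨hl.1, h⟩
  · exact Or.inr ⟨hl.1, h⟩

theorem Sub_le (n : ℕ) (P : List α → Prop) : (Sub n P).card ≤ Fintype.card α ^ n := by
  rw [← card_Str]
  exact Finset.card_le_card fun l hl => mem_Str.2 (mem_Sub.1 hl).1

theorem Sub_ex {ι : Type} (n : ℕ) (s : Finset ι) (P : ι → List α → Prop) :
    (Sub n fun l => ∃ i ∈ s, P i l).card ≤ ∑ i ∈ s, (Sub n (P i)).card := by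
  classical
  refine (Finset.card_le_card (t := s.biUnion fun i => Sub n (P i)) fun l hl => ?_).trans
    Finset.card_biUnion_le
  rw [mem_Sub] at hl
  obtain ⟨i, hi, h⟩ := hl.2
  rw [Finset.mem_biUnion]
  exact ⟨i, hi, mem_Sub.2 ⟨hl.1, h⟩⟩

/-- The number of lists of length `N` all of whose first `k` blocks of length `M` have a
property. -/
theorem block (P : List α → Prop) (M k : ℕ) : ∀ N, k * M ≤ N →
    (Sub N fun v => ∀ i < k, P ((v.drop (i * M)).take M)).card * Fintype.card α ^ (k * M) ≤
      (Sub M P).card ^ k * Fintype.card α ^ N := by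
  induction k with
  | zero =>
    intro N _
    simpa using Sub_le N _
  | succ k ih =>
    intro N hN
    have hM : M ≤ N := by
      have : (k + 1) * M = k * M + M := by ring
      omega
    obtain ⟨N', rfl⟩ := Nat.exists_eq_add_of_le hM
    have hN' : k * M ≤ N' := by
      have : (k + 1) * M = k * M + M := by ring
      omega
    have h1 : (Sub (M + N') fun v => ∀ i < k + 1, P ((v.drop (i * M)).take M)).card ≤
        ((Sub M P) ×ˢ (Sub N' fun v => ∀ i < k, P ((v.drop (i * M)).take M))).card := by
      refine Finset.card_le_card_of_injOn (fun v => (v.take M, v.drop M)) ?_ ?_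
      · intro v hv
        rw [Finset.mem_coe, mem_Sub] at hv
        rw [Finset.mem_coe, Finset.mem_product, mem_Sub, mem_Sub]
        refine ⟨⟨by simp [hv.1], ?_⟩, by simp [hv.1], fun i hi => ?_⟩
        · simpa using hv.2 0 (by omega)
        · have h2 := hv.2 (i + 1) (by omega)
          rw [List.drop_drop]
          rwa [show (i + 1) * M = M + i * M by ring] at h2
      · intro v _ v' _ h
        simp only [Prod.mk.injEq] at h
        rw [← List.take_append_drop M v, ← List.take_append_drop M v', h.1, h.2]
    rw [Finset.card_product] at h1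
    have h2 := ih N' hN'
    calc _ ≤ ((Sub M P).card * (Sub N' fun v => ∀ i < k, P ((v.drop (i * M)).take M)).card) *
            Fintype.card α ^ ((k + 1) * M) := Nat.mul_le_mul_right _ h1
      _ = (Sub M P).card * Fintype.card α ^ M *
          ((Sub N' fun v => ∀ i < k, P ((v.drop (i * M)).take M)).card *
            Fintype.card α ^ (k * M)) := by
          rw [show (k + 1) * M = M + k * M by ring, pow_add]
          ring
      _ ≤ (Sub M P).card * Fintype.card α ^ M *
          ((Sub M P).card ^ k * Fintype.card α ^ N') := Nat.mul_le_mul_left _ h2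
      _ = _ := by
          rw [pow_add, pow_succ]
          ring

end

/-- all binary strings of length `n` as a list -/
def allStr : ℕ → List (List Bool)
  | 0 => [[]]
  | n + 1 => (allStr n).flatMap fun y => [false :: y, true :: y]

theorem mem_allStr {n : ℕ} {y : List Bool} : y ∈ allStr n ↔ y.length = n := by
  induction n generalizing y with
  | zero => simp [allStr]
  | succ n ih =>
    simp only [allStr, List.mem_flatMap, List.mem_cons, List.not_mem_nil, or_false]
    constructor
    · rintro ⟨a, ha, rfl | rfl⟩ <;> simp [ih.1 ha]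
    · intro h
      rcases y with _ | ⟨b, y⟩
      · simp at h
      · refine ⟨y, ih.2 (by simpa using h), ?_⟩
        cases b <;> simp

theorem nodup_allStr (n : ℕ) : (allStr n).Nodup := by
  induction n with
  | zero => simp [allStr]
  | succ n ih =>
    rw [allStr, List.nodup_flatMap]
    refine ⟨fun x _ => by simp, ?_⟩
    refine ih.imp ?_
    intro a b hab
    simp only [Function.onFun, List.disjoint_cons_left, List.mem_cons, List.not_mem_nil,
      or_false, not_or, List.cons.injEq, true_and, Bool.false_eq_true, false_and,
      Bool.true_eq_false, not_false_eq_true, List.disjoint_nil_left, and_true]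
    exact ⟨hab, hab⟩

theorem toFinset_allStr (n : ℕ) : (allStr n).toFinset = Str Bool n := by
  ext y
  rw [List.mem_toFinset, mem_allStr, mem_Str]

theorem length_allStr (n : ℕ) : (allStr n).length = 2 ^ n := by
  rw [← List.toFinset_card_of_nodup (nodup_allStr n), toFinset_allStr, card_Str]
  simp

end Pool.Agent.Seat68.RC
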