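import Pool.Agent.Seat68.RC.Walsh
import Pool.Agent.Seat68.RC.Str

/-!
The moves on lists of pairs of bits, and their expansion.
-/

set_option autoImplicit false

namespace Pool.Agent.Seat68.RC

open Finset

/-- pairs of bits -/
abbrev Pr : Type := Bool × Bool

/-- local maps with the right neighbour as second argument -/
def g1 (p _q : Pr) : Pr := (xor p.1 p.2, p.2)
def g2 (p q : Pr) : Pr := (xor p.1 q.2, p.2)
def g3 (p _q : Pr) : Pr := (p.1, xor p.2 p.1)
def g4 (p q : Pr) : Pr := (p.1, xor p.2 q.1)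

/-- apply a local map at all places; the right neighbour of the last place is `(c, c)` -/
def mvg (g : Pr → Pr → Pr) (c : Bool) (w : List Pr) : List Pr :=
  (List.range w.length).map fun i => g (w.getD i (false, false)) (w.getD (i + 1) (c, c))

theorem length_mvg (g : Pr → Pr → Pr) (c : Bool) (w : List Pr) :
    (mvg g c w).length = w.length := by simp [mvg]

/-- the moves -/
def moves (w : List Pr) : List (List Pr) :=
  [w, mvg g1 false w, mvg g2 false w, mvg g2 true w, mvg g3 false w, mvg g4 false w, mvg g4 true w]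

theorem length_of_mem_moves {w z : List Pr} (h : z ∈ moves w) : z.length = w.length := by
  simp only [moves, List.mem_cons, List.not_mem_nil, or_false] at h
  rcases h with rfl | rfl | rfl | rfl | rfl | rfl | rfl <;> simp [length_mvg]

/-- the lists reached by `k` moves -/
def nb : ℕ → List Pr → List (List Pr)
  | 0, w => [w]
  | k + 1, w => (moves w).flatMap (nb k)

theorem length_of_mem_nb {k : ℕ} {w z : List Pr} (h : z ∈ nb k w) : z.length = w.length := by
  induction k generalizing w with
  | zero =>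
    simp only [nb, List.mem_singleton] at h
    rw [h]
  | succ k ih =>
    simp only [nb, List.mem_flatMap] at h
    obtain ⟨y, hy, hz⟩ := h
    rw [ih hz, length_of_mem_moves hy]

/-- bits as elements of the field -/
def bz (x : Bool) : ZMod 2 := if x then 1 else 0

theorem bz_inj : Function.Injective bz := by
  intro x y h
  revert h
  cases x <;> cases y <;> simp [bz]

theorem bz_xor (x y : Bool) : bz (xor x y) = bz x + bz y := by
  cases x <;> cases y <;> simp [bz, one_add_one]

theorem exists_bz (e : ZMod 2) : ∃ c, bz c = e := by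
  rcases z2 e with rfl | rfl
  · exact ⟨false, rfl⟩
  · exact ⟨true, rfl⟩

/-- a list of pairs as a pair of vectors -/
def toV (b : ℕ) (w : List Pr) : V b × V b :=
  (fun i => bz (w.getD i (false, false)).1, fun i => bz (w.getD i (false, false)).2)

theorem toV_inj {b : ℕ} {w w' : List Pr} (hw : w.length = b + 1) (hw' : w'.length = b + 1)
    (h : toV b w = toV b w') : w = w' := by
  apply List.ext_getElem (hw.trans hw'.symm)
  intro i hi hi'
  have h1 := congrFun (congrArg Prod.fst h) ⟨i, hw ▸ hi⟩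
  have h2 := congrFun (congrArg Prod.snd h) ⟨i, hw ▸ hi⟩
  simp only [toV, List.getD_eq_getElem _ _ hi, List.getD_eq_getElem _ _ hi'] at h1 h2
  exact Prod.ext (bz_inj h1) (bz_inj h2)

theorem getD_mvg (g : Pr → Pr → Pr) (c : Bool) (w : List Pr) {i : ℕ} (hi : i < w.length) :
    (mvg g c w).getD i (false, false) = g (w.getD i (false, false)) (w.getD (i + 1) (c, c)) := by
  rw [List.getD_eq_getElem _ _ (by rw [length_mvg]; exact hi)]
  simp [mvg]

theorem sh_apply {b : ℕ} (w : List Pr) (hw : w.length = b + 1) (c : Bool) (f : Pr → Bool)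
    (hf : f (c, c) = c) (i : Fin (b + 1)) :
    sh (bz c) (fun i : Fin (b + 1) => bz (f (w.getD i (false, false)))) i =
      bz (f (w.getD (i + 1) (c, c))) := by
  refine Fin.lastCases ?_ (fun j => ?_) i
  · rw [sh, Fin.snoc_last]
    rw [List.getD_eq_default _ _ (by simp [hw]), hf]
  · rw [sh, Fin.snoc_castSucc]
    have hj : (j : ℕ) + 1 < w.length := by have := j.2; omega
    simp only [Fin.val_succ, Fin.val_castSucc]
    rw [List.getD_eq_getElem _ _ hj, List.getD_eq_getElem _ _ hj]

theorem toV_g1 {b : ℕ} (w : List Pr) (hw : w.length = b + 1) :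
    toV b (mvg g1 false w) = t1 (toV b w) := by
  refine Prod.ext (funext fun i => ?_) (funext fun i => ?_)
  · simp only [toV, t1, getD_mvg _ _ w (lt_of_lt_of_eq i.2 hw.symm), g1, bz_xor, Pi.add_apply]
  · simp only [toV, t1, getD_mvg _ _ w (lt_of_lt_of_eq i.2 hw.symm), g1]

theorem toV_g3 {b : ℕ} (w : List Pr) (hw : w.length = b + 1) :
    toV b (mvg g3 false w) = t3 (toV b w) := by
  refine Prod.ext (funext fun i => ?_) (funext fun i => ?_)
  · simp only [toV, t3, getD_mvg _ _ w (lt_of_lt_of_eq i.2 hw.symm), g3]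
  · simp only [toV, t3, getD_mvg _ _ w (lt_of_lt_of_eq i.2 hw.symm), g3, bz_xor, Pi.add_apply]

theorem toV_g2 {b : ℕ} (c : Bool) (w : List Pr) (hw : w.length = b + 1) :
    toV b (mvg g2 c w) = t2 (bz c) (toV b w) := by
  refine Prod.ext (funext fun i => ?_) (funext fun i => ?_)
  · simp only [toV, t2, getD_mvg _ _ w (lt_of_lt_of_eq i.2 hw.symm), g2, bz_xor, Pi.add_apply]
    rw [sh_apply w hw c Prod.snd rfl i]
  · simp only [toV, t2, getD_mvg _ _ w (lt_of_lt_of_eq i.2 hw.symm), g2]

theorem toV_g4 {b : ℕ} (c : Bool) (w : List Pr) (hw : w.length = b + 1) :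
    toV b (mvg g4 c w) = t4 (bz c) (toV b w) := by
  refine Prod.ext (funext fun i => ?_) (funext fun i => ?_)
  · simp only [toV, t4, getD_mvg _ _ w (lt_of_lt_of_eq i.2 hw.symm), g4]
  · simp only [toV, t4, getD_mvg _ _ w (lt_of_lt_of_eq i.2 hw.symm), g4, bz_xor, Pi.add_apply]
    rw [sh_apply w hw c Prod.fst rfl i]

theorem card_StrPr (n : ℕ) : (Str Pr n).card = 4 ^ n := by
  rw [card_Str]
  simp

/-- one round of moves expands every set of at most half of the lists -/
theorem expansionL {b : ℕ} (A N : Finset (List Pr)) (hA : A ⊆ Str Pr (b + 1))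
    (hA2 : 2 * A.card ≤ 4 ^ (b + 1)) (hN : ∀ w ∈ A, ∀ z ∈ moves w, z ∈ N) :
    301 * A.card ≤ 300 * N.card := by
  classical
  have inj : Set.InjOn (toV b) (A : Set (List Pr)) := by
    intro w hw w' hw' h
    exact toV_inj (mem_Str.1 (hA hw)) (mem_Str.1 (hA hw')) h
  have hcard : (A.image (toV b)).card = A.card := Finset.card_image_of_injOn inj
  have hin : ∀ w ∈ A, ∀ z ∈ moves w, toV b z ∈ N.image (toV b) := fun w hw z hz =>
    Finset.mem_image_of_mem _ (hN w hw z hz)
  have h := expansion (A.image (toV b)) (N.image (toV b)) (by rw [hcard]; exact hA2) ?_ ?_ ?_ ?_ ?_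
  · rw [hcard] at h
    exact h.trans (Nat.mul_le_mul_left _ Finset.card_image_le)
  · intro v hv
    obtain ⟨w, hw, rfl⟩ := Finset.mem_image.1 hv
    exact hin w hw w (by simp [moves])
  · intro v hv
    obtain ⟨w, hw, rfl⟩ := Finset.mem_image.1 hv
    rw [← toV_g1 w (mem_Str.1 (hA hw))]
    exact hin w hw _ (by simp [moves])
  · intro e v hv
    obtain ⟨w, hw, rfl⟩ := Finset.mem_image.1 hv
    obtain ⟨c, rfl⟩ := exists_bz e
    rw [← toV_g2 c w (mem_Str.1 (hA hw))]
    refine hin w hw _ ?_
    cases c <;> simp [moves]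
  · intro v hv
    obtain ⟨w, hw, rfl⟩ := Finset.mem_image.1 hv
    rw [← toV_g3 w (mem_Str.1 (hA hw))]
    exact hin w hw _ (by simp [moves])
  · intro e v hv
    obtain ⟨w, hw, rfl⟩ := Finset.mem_image.1 hv
    obtain ⟨c, rfl⟩ := exists_bz e
    rw [← toV_g4 c w (mem_Str.1 (hA hw))]
    refine hin w hw _ ?_
    cases c <;> simp [moves]

/-- iterated expansion -/
theorem expand_iter {b : ℕ} (S : Finset (List Pr)) (hS : 2 * S.card ≤ 4 ^ (b + 1)) (k : ℕ) :
    (Sub (b + 1) fun w : List Pr => ∀ z ∈ nb k w, z ∈ S).card * 301 ^ k ≤ S.card * 300 ^ k := by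
  induction k with
  | zero =>
    simp only [pow_zero, mul_one]
    refine Finset.card_le_card fun w hw => ?_
    exact (mem_Sub.1 hw).2 w (by simp [nb])
  | succ k ih =>
    have hAN : ∀ w ∈ (Sub (b + 1) fun w : List Pr => ∀ z ∈ nb (k + 1) w, z ∈ S),
        ∀ z ∈ moves w, z ∈ (Sub (b + 1) fun w : List Pr => ∀ z ∈ nb k w, z ∈ S) := by
      intro w hw z hz
      rw [mem_Sub] at hw ⊢
      refine ⟨?_, fun y hy => hw.2 y ?_⟩
      · rw [length_of_mem_moves hz]
        exact hw.1
      · rw [nb, List.mem_flatMap]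
        exact ⟨z, hz, hy⟩
    have hA : (Sub (b + 1) fun w : List Pr => ∀ z ∈ nb (k + 1) w, z ∈ S) ⊆ Str Pr (b + 1) :=
      fun w hw => mem_Str.2 (mem_Sub.1 hw).1
    generalize (Sub (b + 1) fun w : List Pr => ∀ z ∈ nb (k + 1) w, z ∈ S) = A at hAN hA ⊢
    generalize (Sub (b + 1) fun w : List Pr => ∀ z ∈ nb k w, z ∈ S) = N at hAN ih
    have hle : A ⊆ N := fun w hw => hAN w hw w (by simp [moves])
    have hNS : N.card ≤ S.card := by
      have h1 : N.card * 300 ^ k ≤ S.card * 300 ^ k :=
        (Nat.mul_le_mul_left _ (Nat.pow_le_pow_left (by norm_num) k)).trans ih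
      exact Nat.le_of_mul_le_mul_right h1 (by positivity)
    have h2 := expansionL A N hA
      ((Nat.mul_le_mul_left 2 ((Finset.card_le_card hle).trans hNS)).trans hS) hAN
    calc A.card * 301 ^ (k + 1) = (301 * A.card) * 301 ^ k := by ring
      _ ≤ (300 * N.card) * 301 ^ k := Nat.mul_le_mul_right _ h2
      _ = 300 * (N.card * 301 ^ k) := by ring
      _ ≤ 300 * (S.card * 300 ^ k) := Nat.mul_le_mul_left _ ih
      _ = S.card * 300 ^ (k + 1) := by ring

/-- the number of rounds -/
def rounds : ℕ := 300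

theorem rounds_spec : 2 * 300 ^ rounds ≤ 301 ^ rounds := by
  have h1 : ∀ n : ℕ, (300 + n) * 300 ^ n ≤ 300 * 301 ^ n := by
    intro n
    induction n with
    | zero => norm_num
    | succ n ih =>
      calc (300 + (n + 1)) * 300 ^ (n + 1) = 300 * ((300 + n) * 300 ^ n) + 300 * 300 ^ n := by ring
        _ ≤ 300 * ((300 + n) * 300 ^ n) + (300 + n) * 300 ^ n := by
          refine Nat.add_le_add_left (Nat.mul_le_mul_right _ (by omega)) _
        _ = 301 * ((300 + n) * 300 ^ n) := by ring
        _ ≤ 301 * (300 * 301 ^ n) := Nat.mul_le_mul_left _ ih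
        _ = 300 * 301 ^ (n + 1) := by ring
  have h2 := h1 rounds
  have h3 : (300 + rounds) * 300 ^ rounds = 300 * (2 * 300 ^ rounds) := by
    rw [show 300 + rounds = 600 from rfl]
    ring
  rw [h3] at h2
  exact Nat.le_of_mul_le_mul_left h2 (by norm_num)

/-- after all rounds the expansion factor is two -/
theorem expand_rounds {b : ℕ} (S : Finset (List Pr)) (hS : 2 * S.card ≤ 4 ^ (b + 1)) :
    2 * (Sub (b + 1) fun w : List Pr => ∀ z ∈ nb rounds w, z ∈ S).card ≤ S.card := by
  have h1 := expand_iter S hS rounds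
  generalize (Sub (b + 1) fun w : List Pr => ∀ z ∈ nb rounds w, z ∈ S).card = a at h1 ⊢
  have h2 : 2 * a * 300 ^ rounds ≤ S.card * 300 ^ rounds := by
    calc 2 * a * 300 ^ rounds = a * (2 * 300 ^ rounds) := by ring
      _ ≤ a * 301 ^ rounds := Nat.mul_le_mul_left _ rounds_spec
      _ ≤ _ := h1
  exact Nat.le_of_mul_le_mul_right h2 (by positivity)

/-- the successors of a list -/
def Gam (w : List Pr) : List (List Pr) :=
  [(false, false), (false, true), (true, false), (true, true)].flatMap fun e =>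
    nb rounds (w ++ [e])

theorem length_of_mem_Gam {w z : List Pr} (h : z ∈ Gam w) : z.length = w.length + 1 := by
  rw [Gam, List.mem_flatMap] at h
  obtain ⟨e, -, h⟩ := h
  rw [length_of_mem_nb h]
  simp

/-- few lists have all their successors in a small set -/
theorem Gam_card {b : ℕ} (S : Finset (List Pr)) (hS : 2 * S.card ≤ 4 ^ (b + 1)) :
    8 * (Sub b fun w : List Pr => ∀ z ∈ Gam w, z ∈ S).card ≤ S.card := by
  have h1 := expand_rounds S hS
  have h2 : ((Sub b fun w : List Pr => ∀ z ∈ Gam w, z ∈ S) ×ˢ (Finset.univ : Finset Pr)).card ≤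
      (Sub (b + 1) fun w : List Pr => ∀ z ∈ nb rounds w, z ∈ S).card := by
    refine Finset.card_le_card_of_injOn (fun p => p.1 ++ [p.2]) ?_ ?_
    · rintro ⟨w, e⟩ hp
      rw [Finset.mem_coe, Finset.mem_product, mem_Sub] at hp
      obtain ⟨⟨hp1, hp2⟩, -⟩ := hp
      rw [Finset.mem_coe, mem_Sub]
      simp only at hp1 hp2
      refine ⟨by simp [hp1], fun z hz => hp2 z ?_⟩
      rw [Gam, List.mem_flatMap]
      refine ⟨e, ?_, hz⟩
      rcases e with ⟨_ | _, _ | _⟩ <;> simp
    · rintro ⟨w, e⟩ _ ⟨w', e'⟩ _ h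
      simp only at h
      have h3 := congrArg List.dropLast h
      have h4 := congrArg List.getLast? h
      simp only [List.dropLast_concat, List.getLast?_concat, Option.some.injEq] at h3 h4
      rw [h3, h4]
  rw [Finset.card_product] at h2
  have h3 : (Finset.univ : Finset Pr).card = 4 := by decide
  rw [h3] at h2
  omega

end Pool.Agent.Seat68.RC
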