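import Pool.Agent.Seat68.RC.OTMDefs
import Pool.Agent.H38.NP.PT

/-!
Structured oracle programs and their translation to oracle machines.
-/

set_option autoImplicit false

namespace Pool.Agent.Seat68.RC

open Pool.Agent.H38.NP Function

/-- structured oracle programs -/
inductive OProg
  | lift (p : Prog)
  | seq (p q : OProg)
  | loop (r : ℕ) (c : Option Bool → Bool) (p : OProg)
  | ask (p q : OProg)

/-- big-step semantics with exact cost; queries concern the register `κ` -/
inductive OExec (A : Set (List Bool)) (κ : ℕ) : OProg → Store → Store → ℕ → Prop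
  | lift {p s s' t} : Exec p s s' t → OExec A κ (.lift p) s s' t
  | seq {p q s s' s'' t t'} : OExec A κ p s s' t → OExec A κ q s' s'' t' →
      OExec A κ (.seq p q) s s'' (t + t')
  | loopN {r c p s} : c (s r).head? = false → OExec A κ (.loop r c p) s s 1
  | loopY {r c p s s' s'' t t'} : c (s r).head? = true → OExec A κ p s s' t →
      OExec A κ (.loop r c p) s' s'' t' → OExec A κ (.loop r c p) s s'' (1 + t + t')
  | askT {p q s s' t} : s κ ∈ A → OExec A κ p s s' t → OExec A κ (.ask p q) s s' (1 + t)
  | askF {p q s s' t} : s κ ∉ A → OExec A κ q s s' t → OExec A κ (.ask p q) s s' (1 + t)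

variable {A : Set (List Bool)} {κ : ℕ}

theorem OExec.len {p s s' t} (h : OExec A κ p s s' t) (r : ℕ) :
    (s' r).length ≤ (s r).length + t := by
  induction h with
  | lift h => exact h.len r
  | seq _ _ ih ih' => omega
  | loopN => omega
  | loopY _ _ _ ih ih' => omega
  | askT _ _ ih => omega
  | askF _ _ ih => omega

def OProg.shift : OProg → OProg
  | .lift p => .lift p.shift
  | .seq p q => .seq p.shift q.shift
  | .loop r c p => .loop (r + 1) c p.shift
  | .ask p q => .ask p.shift q.shift

theorem OExec.shift {p s s' t} (h : OExec A κ p s s' t) (a) :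
    OExec A (κ + 1) p.shift (sc a s) (sc a s') t := by
  induction h with
  | lift h => exact .lift (h.shift a)
  | seq _ _ ih ih' => exact .seq ih ih'
  | loopN hs => exact .loopN hs
  | loopY hs _ _ ih ih' => exact .loopY hs ih ih'
  | askT hs _ ih => exact .askT hs ih
  | askF hs _ ih => exact .askF hs ih

/-! ### Translation to oracle machines -/

/-- flat instructions -/
inductive OIns (L : Type)
  | old (i : Ins L)
  | ask (y n : L)

def OIns.map {L L' : Type} (φ : L → L') : OIns L → OIns L'
  | .old i => .old (i.map φ)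
  | .ask y n => .ask (φ y) (φ n)

open Classical in
noncomputable def OIns.run {L : Type} (A : Set (List Bool)) (κ : ℕ) : OIns L → Store → L × Store
  | .old i, s => i.run s
  | .ask y n, s => (if s κ ∈ A then y else n, s)

def OIns.reg {L : Type} : OIns L → ℕ
  | .old i => i.reg
  | .ask _ _ => 0

theorem OIns.run_map {L L' : Type} (φ : L → L') (i : OIns L) (s : Store) :
    (i.map φ).run A κ s = (φ (i.run A κ s).1, (i.run A κ s).2) := by
  cases i with
  | old i => exact Ins.run_map φ i s
  | ask y n =>
    simp only [OIns.map, OIns.run]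
    split_ifs <;> rfl

inductive OReach {L : Type} (A : Set (List Bool)) (κ : ℕ) (M : L → OIns (Option L)) :
    Option L → Store → Option L → Store → ℕ → Prop
  | refl (a s) : OReach A κ M a s a s 0
  | step {l s b s' n} : OReach A κ M ((M l).run A κ s).1 ((M l).run A κ s).2 b s' n →
      OReach A κ M (some l) s b s' (n + 1)

theorem OReach.trans {L : Type} {M : L → OIns (Option L)} {a s b s' c s'' n m}
    (h : OReach A κ M a s b s' n) (h' : OReach A κ M b s' c s'' m) :
    OReach A κ M a s c s'' (n + m) := by
  induction h with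
  | refl => simpa using h'
  | step _ ih =>
    have := OReach.step (ih h')
    rwa [Nat.add_right_comm] at this

theorem OReach.embed {L L' : Type} {M : L → OIns (Option L)} {M' : L' → OIns (Option L')}
    (φ : Option L → Option L') (g : L → L') (hφ : ∀ l, φ (some l) = some (g l))
    (hM : ∀ l, M' (g l) = (M l).map φ) {a s b s' n} (h : OReach A κ M a s b s' n) :
    OReach A κ M' (φ a) s (φ b) s' n := by
  induction h with
  | refl => exact OReach.refl _ _
  | step _ ih =>
    rw [hφ]
    apply OReach.step
    rw [hM, OIns.run_map]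
    exact ih

theorem OReach.one {L : Type} {M : L → OIns (Option L)} {l s b s'}
    (h : (M l).run A κ s = (b, s')) : OReach A κ M (some l) s b s' 1 := by
  apply OReach.step
  rw [h]
  exact OReach.refl _ _

theorem OReach.lift {L : Type} {M : L → Ins (Option L)} {a s b s' n}
    (h : Reach M a s b s' n) : OReach A κ (fun l => .old (M l)) a s b s' n := by
  induction h with
  | refl => exact OReach.refl _ _
  | step _ ih => exact OReach.step ih

def OLab : OProg → Type
  | .lift p => Lab p
  | .seq p q => OLab p ⊕ OLab q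
  | .loop _ _ p => Option (OLab p)
  | .ask p q => Option (OLab p ⊕ OLab q)

instance olabFin : (p : OProg) → Fintype (OLab p)
  | .lift p => inferInstanceAs (Fintype (Lab p))
  | .seq p q => letI := olabFin p; letI := olabFin q; inferInstanceAs (Fintype (OLab p ⊕ OLab q))
  | .loop _ _ p => letI := olabFin p; inferInstanceAs (Fintype (Option (OLab p)))
  | .ask p q => letI := olabFin p; letI := olabFin q
      inferInstanceAs (Fintype (Option (OLab p ⊕ OLab q)))

def ostart : (p : OProg) → OLab p
  | .lift p => start p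
  | .seq p _ => Sum.inl (ostart p)
  | .loop _ _ _ => none
  | .ask _ _ => none

def oseqL (p q : OProg) : Option (OLab p) → Option (OLab p ⊕ OLab q)
  | none => some (Sum.inr (ostart q))
  | some l => some (Sum.inl l)

def oloopL (p : OProg) : Option (OLab p) → Option (Option (OLab p))
  | none => some none
  | some l => some (some l)

def oins : (p : OProg) → OLab p → OIns (Option (OLab p))
  | .lift p => fun l => .old (ins p l)
  | .seq p q => fun l => match l with
      | Sum.inl l => (oins p l).map (oseqL p q)
      | Sum.inr l => (oins q l).map (Option.map Sum.inr)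
  | .loop r c p => fun l => match l with
      | none => .old (.test r (fun o => if c o then some (some (ostart p)) else none))
      | some l => (oins p l).map (oloopL p)
  | .ask p q => fun l => match l with
      | none => .ask (some (some (Sum.inl (ostart p)))) (some (some (Sum.inr (ostart q))))
      | some (Sum.inl l) => (oins p l).map (Option.map fun l => some (Sum.inl l))
      | some (Sum.inr l) => (oins q l).map (Option.map fun l => some (Sum.inr l))

theorem OExec.reach {p s s' t} (h : OExec A κ p s s' t) :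
    OReach A κ (oins p) (some (ostart p)) s none s' t := by
  induction h with
  | lift h => exact OReach.lift h.reach
  | @seq p q s s' s'' t t' _ _ ih ih' =>
    have h1 := OReach.embed (M' := oins (.seq p q)) (oseqL p q) Sum.inl (fun _ => rfl)
      (fun _ => rfl) ih
    have h2 := OReach.embed (M' := oins (.seq p q)) (Option.map Sum.inr) Sum.inr (fun _ => rfl)
      (fun _ => rfl) ih'
    exact h1.trans h2
  | @loopN r c p s hs =>
    refine OReach.one ?_
    simp [oins, ostart, OIns.run, Ins.run, hs]
  | @loopY r c p s s' s'' t t' hs _ _ ih ih' =>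
    have h2 := OReach.embed (M' := oins (.loop r c p)) (oloopL p) some
      (fun _ => rfl) (fun _ => rfl) ih
    refine OReach.trans (OReach.trans (OReach.one ?_) h2) ih'
    simp only [oins, ostart, OIns.run, Ins.run, hs, oloopL]
    rfl
  | @askT p q s s' t hs _ ih =>
    have h2 := OReach.embed (M' := oins (.ask p q))
      (Option.map fun l => some (Sum.inl l)) (fun l => some (Sum.inl l)) (fun _ => rfl)
      (fun _ => rfl) ih
    refine OReach.trans (OReach.one ?_) h2
    simp only [oins, ostart, OIns.run, hs]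
    rfl
  | @askF p q s s' t hs _ ih =>
    have h2 := OReach.embed (M' := oins (.ask p q))
      (Option.map fun l => some (Sum.inr l)) (fun l => some (Sum.inr l)) (fun _ => rfl)
      (fun _ => rfl) ih
    refine OReach.trans (OReach.one ?_) h2
    simp only [oins, ostart, OIns.run, hs]
    rfl

/-- the action at a label -/
def oact {N : ℕ} {L : Type} : OIns (Option L) → Act (N + 1) L (Option Bool)
  | .old i => .run (insS i)
  | .ask y n => .ask (goS y) (goS n)

/-- the oracle machine of a program -/
def omach (p : OProg) (N κ : ℕ) : OracleTM where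
  k := N + 1
  Λ := OLab p
  σ := Option Bool
  input := 0
  output := 0
  query := Fin.ofNat (N + 1) κ
  start := ostart p
  init := none
  act l := oact (oins p l)

theorem step_omach {p : OProg} {N κ : ℕ} (hκ : κ ≤ N) (hN : ∀ l, (oins p l).reg ≤ N)
    (l : OLab p) (s : Store) :
    (omach p N κ).step A (cfgOf (N := N) (some l) s) =
      some (cfgOf (N := N) ((oins p l).run A κ s).1 ((oins p l).run A κ s).2) := by
  have hreg := hN l
  simp only [OracleTM.step, cfgOf, omach]
  cases h : oins p l with
  | old i =>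
    rw [h] at hreg
    simp only [oact, OIns.run]
    exact congrArg some (stepAux_insS i hreg s)
  | ask y n =>
    have hf : (Fin.ofNat (N + 1) κ).val = κ := by
      simp [Fin.ofNat, Nat.mod_eq_of_lt (Nat.lt_succ_of_le hκ)]
    by_cases hs : s κ ∈ A
    · have hs' : s (Fin.ofNat (N + 1) κ).val ∈ A := by rw [hf]; exact hs
      simp only [oact, OIns.run, if_pos hs]
      exact (congrArg (fun t => some (Turing.TM2.stepAux t none _)) (if_pos hs')).trans
        (congrArg some (stepAux_goS y none _))
    · have hs' : s (Fin.ofNat (N + 1) κ).val ∉ A := by rw [hf]; exact hs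
      simp only [oact, OIns.run, if_neg hs]
      exact (congrArg (fun t => some (Turing.TM2.stepAux t none _)) (if_neg hs')).trans
        (congrArg some (stepAux_goS n none _))

theorem conf_omach {p : OProg} {N κ : ℕ} (hκ : κ ≤ N) (hN : ∀ l, (oins p l).reg ≤ N)
    {a s b s' n} (h : OReach A κ (oins p) a s b s' n) (x : List Bool) (m : ℕ)
    (hm : (omach p N κ).conf A x m = some (cfgOf (N := N) a s)) :
    (omach p N κ).conf A x (m + n) = some (cfgOf (N := N) b s') := by
  induction h generalizing m with
  | refl => exact hm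
  | @step l s b s' n _ ih =>
    have h1 : (omach p N κ).conf A x (m + 1) =
        some (cfgOf (N := N) ((oins p l).run A κ s).1 ((oins p l).run A κ s).2) := by
      rw [OracleTM.conf, hm]
      exact step_omach hκ hN l s
    have h2 := ih (m + 1) h1
    rwa [show m + 1 + n = m + (n + 1) by omega] at h2

open Classical in
theorem inPOracle_of_prog (L : Set (List Bool)) (p : OProg) (κ : ℕ) (q : Polynomial ℕ)
    (h : ∀ x, ∃ t ≤ q.eval x.length, OExec A κ p (sc x E) (sc [decide (x ∈ L)] E) t) :
    InPOracle A L := by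
  let N := max κ (Finset.univ.sup fun l : OLab p => (oins p l).reg)
  have hκ : κ ≤ N := le_max_left _ _
  have hN : ∀ l, (oins p l).reg ≤ N := fun l =>
    (Finset.le_sup (f := fun l : OLab p => (oins p l).reg) (Finset.mem_univ l)).trans
      (le_max_right _ _)
  refine ⟨omach p N κ, q, fun x => ?_⟩
  obtain ⟨t, ht, he⟩ := h x
  have h0 : (omach p N κ).conf A x 0 = some (cfgOf (N := N) (some (ostart p)) (sc x E)) := by
    simp only [OracleTM.conf, cfgOf, omach]
    congr 2
    funext i
    refine Fin.cases ?_ (fun j => ?_) i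
    · rfl
    · simp [sc, E]
  have h1 := conf_omach hκ hN he.reach x 0 h0
  rw [Nat.zero_add] at h1
  exact ⟨t, ht, _, h1, rfl, rfl⟩

/-! ### Oracle polynomial time on coded data -/

def ORun (A : Set (List Bool)) (κ : ℕ) (p : OProg) (s s' : Store) (T : ℕ) : Prop :=
  ∃ t ≤ T, OExec A κ p s s' t

theorem ORun.mono {p s s' T T'} (h : ORun A κ p s s' T) (hT : T ≤ T') : ORun A κ p s s' T' :=
  let ⟨t, ht, e⟩ := h; ⟨t, ht.trans hT, e⟩

theorem ORun.lift {p s s' T} (h : Run p s s' T) : ORun A κ (.lift p) s s' T :=
  let ⟨t, ht, e⟩ := h; ⟨t, ht, .lift e⟩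

theorem ORun.seq {p q s s' s'' T T'} (h : ORun A κ p s s' T) (h' : ORun A κ q s' s'' T') :
    ORun A κ (.seq p q) s s'' (T + T') :=
  let ⟨t, ht, e⟩ := h; let ⟨t', ht', e'⟩ := h'; ⟨t + t', Nat.add_le_add ht ht', .seq e e'⟩

theorem ORun.shift {p s s' T} (h : ORun A κ p s s' T) (a) :
    ORun A (κ + 1) p.shift (sc a s) (sc a s') T :=
  let ⟨t, ht, e⟩ := h; ⟨t, ht, e.shift a⟩

/-- `p` turns `x` into `y` within `T` steps -/
def OComp (A : Set (List Bool)) (κ : ℕ) (p : OProg) (x y : List Bool) (T : ℕ) : Prop :=
  ORun A κ p (sc x E) (sc y E) T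

theorem OComp.mono {p x y T T'} (h : OComp A κ p x y T) (hT : T ≤ T') : OComp A κ p x y T' :=
  ORun.mono h hT

theorem OComp.len {p x y T} (h : OComp A κ p x y T) : y.length ≤ x.length + T := by
  obtain ⟨t, ht, e⟩ := h
  have := e.len 0
  simp at this; omega

theorem upE (b : List Bool) : update E 0 b = sc b E := by
  funext r
  cases r with
  | zero => simp
  | succ r => rfl

/-- the query to the second component, which is replaced by the answer -/
def askP : OProg :=
  .seq (.lift (unp 0 1)) (.seq (.ask (.lift (.seq (clr 0 2 3) (.push 0 true)))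
    (.lift (.seq (clr 0 2 3) (.push 0 false)))) (.lift (.seq (.push 0 false) (dbl 1 0 2))))

open Classical in
theorem comp_ask (x y : List Bool) :
    OComp A 0 askP (pair x y) (pair x [decide (y ∈ A)]) (60 * (x.length + y.length + 1)) := by
  have h1 : Run (unp 0 1) (sc (pair x y) E) (sc y (sc x.reverse E))
      (5 * (pair x y).length + 2) := by
    refine (run_unp (by simp) _).of_eq ?_ (by simp)
    simp only [sc0, usnd_pair, ufst_pair, up0, up1, upE, sc1, E_apply, List.append_nil]
  have h2 : ∀ b : Bool, Run (.seq (clr 0 2 3) (.push 0 b)) (sc y (sc x.reverse E))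
      (sc [b] (sc x.reverse E)) (7 * y.length + 1 + 1) := by
    intro b
    refine Run.seq ((run_clr (by simp) (by simp) (by simp) _).of_eq
      (s'' := sc [] (sc x.reverse E)) ?_ (by simp)) ((Run.push _ _ _).of_eq ?_ le_rfl)
    · simp
    · simp
  have h3 : ∀ b : Bool, Run (.seq (.push 0 false) (dbl 1 0 2)) (sc [b] (sc x.reverse E))
      (sc (pair x [b]) E) (1 + (7 * x.length + 1)) := by
    intro b
    refine Run.seq ((Run.push _ _ _).of_eq (s'' := sc [false, b] (sc x.reverse E)) ?_ le_rfl)
      ((run_dbl (by simp) (by simp) (by simp) _).of_eq ?_ ?_)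
    · simp
    · simp only [pair, sc1, up1, up0, sc0, List.reverse_reverse]
      exact congrArg (sc _) E_eq.symm
    · simp
  have h4 : ORun A 0 (.ask (.lift (.seq (clr 0 2 3) (.push 0 true)))
      (.lift (.seq (clr 0 2 3) (.push 0 false)))) (sc y (sc x.reverse E))
      (sc [decide (y ∈ A)] (sc x.reverse E)) (1 + (7 * y.length + 1 + 1)) := by
    by_cases hy : y ∈ A
    · obtain ⟨t, ht, e⟩ := h2 true
      refine ⟨1 + t, by omega, ?_⟩
      have : decide (y ∈ A) = true := by simp [hy]
      rw [this]
      exact .askT hy (.lift e)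
    · obtain ⟨t, ht, e⟩ := h2 false
      refine ⟨1 + t, by omega, ?_⟩
      have : decide (y ∈ A) = false := by simp [hy]
      rw [this]
      exact .askF hy (.lift e)
  refine ORun.mono (ORun.seq (ORun.lift h1) (ORun.seq h4 (ORun.lift (h3 _)))) ?_
  rw [length_pair]
  omega

/-! ### Iteration -/

def oiterL (p : OProg) : OProg := .loop 0 Option.isSome (.seq (.lift (.pop 0)) p.shift)

def oiterP (p : OProg) : OProg :=
  .seq (.lift (.seq (unp 0 2) <| .seq (rmv 0 3 1) <| .seq (rmv 3 1 0) <| rmv 2 0 1)) <|
  .seq (oiterL p) (.lift (.seq (rmv 1 2 0) (rmv 2 0 1)))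

theorem run_oiterL {p} (T : ℕ) (c : List Bool) (st : ℕ → List Bool)
    (h : ∀ i < c.length, OComp A κ p (st i) (st (i + 1)) T) :
    ORun A (κ + 1) (oiterL p) (sc c (sc (st 0) E)) (sc [] (sc (st c.length) E))
      (c.length * (T + 2) + 1) := by
  induction c generalizing st with
  | nil => exact ⟨1, by simp, .loopN (by simp)⟩
  | cons b c ih =>
    obtain ⟨t1, ht1, e1⟩ := ih (fun i => st (i + 1)) (fun i hi => h (i + 1) (by simpa using hi))
    obtain ⟨t0, ht0, e0⟩ := ORun.shift (h 0 (by simp)) c
    obtain ⟨t2, ht2, e2⟩ := (Run.pop 0 (sc (b :: c) (sc (st 0) E))).of_eq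
      (s'' := sc c (sc (st 0) E)) (by simp) le_rfl
    refine ⟨1 + (t2 + t0) + t1, ?_, .loopY (by simp) (.seq (.lift e2) e0) e1⟩
    simp only [List.length_cons]
    nlinarith

theorem OComp.iter {p} (T : ℕ) (c : List Bool) (st : ℕ → List Bool)
    (h : ∀ i < c.length, OComp A κ p (st i) (st (i + 1)) T) :
    OComp A (κ + 1) (oiterP p) (pair c (st 0)) (st c.length)
      (c.length * (T + 2) + 50 * (c.length + (st 0).length + (st c.length).length + 1)) := by
  unfold OComp
  rw [E4, E4 (st c.length)]
  have hl : ORun A (κ + 1) (oiterL p) (sc c (sc (st 0) (sc [] (sc [] E))))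
      (sc [] (sc (st c.length) (sc [] (sc [] E)))) (c.length * (T + 2) + 1) := by
    rw [← E_eq, ← E_eq]; exact run_oiterL T c st h
  have h1 : Run (.seq (unp 0 2) <| .seq (rmv 0 3 1) <| .seq (rmv 3 1 0) <| rmv 2 0 1)
      (sc (pair c (st 0)) (sc [] (sc [] (sc [] E)))) (sc c (sc (st 0) (sc [] (sc [] E))))
      (5 * (pair c (st 0)).length + 2 + (7 * (st 0).length + 1 + (7 * (st 0).length + 1 +
        (7 * c.length + 1)))) := by
    refine Run.of_eq ((run_unp (by simp) _).seq <|
      (run_rmv (by simp) (by simp) (by simp) _).seq <|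
      (run_rmv (by simp) (by simp) (by simp) _).seq <|
      (run_rmv (by simp) (by simp) (by simp) _)) ?_ ?_
    · simp
    · simp
  have h2 : Run (.seq (rmv 1 2 0) (rmv 2 0 1)) (sc [] (sc (st c.length) (sc [] (sc [] E))))
      (sc (st c.length) (sc [] (sc [] (sc [] E))))
      (7 * (st c.length).length + 1 + (7 * (st c.length).length + 1)) := by
    refine Run.of_eq ((run_rmv (by simp) (by simp) (by simp) _).seq
      (run_rmv (by simp) (by simp) (by simp) _)) ?_ ?_
    · simp
    · simp
  refine ORun.mono (ORun.seq (ORun.lift h1) (ORun.seq hl (ORun.lift h2))) ?_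
  rw [length_pair]
  omega

section opt

variable {α β γ σ : Type} [Enc α] [Enc β] [Enc γ] [Enc σ]

/-- computable in polynomial time with the oracle `A` -/
def OPT (A : Set (List Bool)) (κ : ℕ) (f : α → β) : Prop :=
  ∃ (p : OProg) (q : Polynomial ℕ), ∀ a, OComp A κ p (enc a) (enc (f a)) (q.eval (sz a))

theorem OPT.mk' {f : α → β} (p : OProg) {t : α → ℕ} (ht : PB t)
    (h : ∀ a, OComp A κ p (enc a) (enc (f a)) (t a)) : OPT A κ f :=
  let ⟨q, hq⟩ := ht; ⟨p, q, fun a => (h a).mono (hq a)⟩

theorem OPT.of_PT {f : α → β} (h : PT f) : OPT A κ f :=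
  let ⟨p, q, h⟩ := h; ⟨.lift p, q, fun a => ORun.lift (h a)⟩

theorem OPT.pb {f : α → β} (h : OPT A κ f) : PB (fun a => sz (f a)) :=
  let ⟨_, q, hq⟩ := h
  (PB.sz.add (PB.sz.eval q)).mono fun a => (hq a).len

theorem OPT.comp {f : β → γ} {g : α → β} (hf : OPT A κ f) (hg : OPT A κ g) :
    OPT A κ (fun a => f (g a)) := by
  have hb := hg.pb
  obtain ⟨p, q, h⟩ := hf
  obtain ⟨p', q', h'⟩ := hg
  exact OPT.mk' (.seq p' p) ((PB.sz.eval q').add (hb.eval q)) fun a => ORun.seq (h' a) (h (g a))

open Classical in
theorem OPT.ask : OPT A 0 fun z : α × Bits => (z.1, decide (z.2.val ∈ A)) := by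
  refine OPT.mk' askP (t := fun z => 60 * (sz z + 1)) ((PB.const 60).mul (PB.sz.add (PB.const 1)))
    fun z => ?_
  have h := comp_ask (A := A) (enc z.1) z.2.val
  refine OComp.mono h ?_
  have := sz_prod z
  have h2 : sz z.2 = z.2.val.length := rfl
  simp only [sz] at this h2 ⊢
  omega

/-- bounded iteration -/
theorem OPT.iter {step : σ → σ} (hs : OPT A κ step) {c : α → ℕ} (hc : PT c) {init : α → σ}
    (hi : PT init) {B : α → ℕ} (hB : PB B)
    (hb : ∀ a, ∀ i ≤ c a, sz (step^[i] (init a)) ≤ B a) :
    OPT A (κ + 1) fun a => step^[c a] (init a) := by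
  have h0 : PT fun a => (c a, init a) := hc.mk hi
  have hcb := hc.nat_pb
  obtain ⟨p, q, h⟩ := hs
  obtain ⟨p0, q0, h0⟩ := h0
  refine OPT.mk' (.seq (.lift p0) (oiterP p)) (t := fun a => q0.eval (sz a) +
      (c a * (q.eval (B a) + 2) + 50 * (c a + B a + B a + 1)))
      ((PB.sz.eval q0).add ((hcb.mul ((hB.eval q).add (PB.const 2))).add
        ((PB.const 50).mul (((hcb.add hB).add hB).add (PB.const 1))))) fun a => ?_
  refine ORun.seq (ORun.lift (h0 a)) ?_
  have hlen : (enc (c a)).length = c a := by simp
  have h3 := OComp.iter (A := A) (κ := κ) (p := p) (q.eval (B a)) (enc (c a))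
    (fun i => enc (step^[i] (init a))) (fun i hi => by
      rw [hlen] at hi
      rw [iterate_succ_apply']
      exact (h (step^[i] (init a))).mono (eval_mono q (hb a i hi.le)))
  rw [hlen] at h3
  refine OComp.mono h3 ?_
  have h1 := hb a 0 (Nat.zero_le _)
  have h2 := hb a _ le_rfl
  simp only [sz] at h1 h2 ⊢
  omega

/-- from programs to oracle machines -/
theorem OPT.inPOracle {f : Bits → Bool} (h : OPT A κ f) {L : Set (List Bool)}
    (hL : ∀ x, x ∈ L ↔ f ⟨x⟩ = true) : InPOracle A L := by
  classical
  obtain ⟨p, q, h⟩ := h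
  refine inPOracle_of_prog L p κ q fun x => ?_
  obtain ⟨t, ht, e⟩ := h ⟨x⟩
  refine ⟨t, ht, ?_⟩
  have h1 : [decide (x ∈ L)] = enc (f ⟨x⟩) := by
    rw [enc_bool]
    congr 1
    rw [Bool.eq_iff_iff, decide_eq_true_iff]
    exact hL x
  rw [show @decide (x ∈ L) (Classical.propDecidable _) = decide (x ∈ L) from by congr, h1]
  exact e

end opt

end Pool.Agent.Seat68.RC
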