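import Mathlib

/-!
Polynomial-time oracle machines.
-/

set_option autoImplicit false

namespace Pool.Agent.Seat68.RC

/-- What an oracle machine with `k` stacks of bits, labels `Λ` and states `σ` does at a label: it
runs a statement of Mathlib's multi-stack machines, or it asks the oracle and runs one of two such
statements according to the answer. -/
inductive Act (k : ℕ) (Λ σ : Type)
  | run (s : Turing.TM2.Stmt (fun _ : Fin k => Bool) Λ σ)
  | ask (yes no : Turing.TM2.Stmt (fun _ : Fin k => Bool) Λ σ)

/-- Oracle machines with finitely many stacks of bits, finitely many labels and finitely many
states. -/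
structure OracleTM where
  /-- the number of stacks -/
  k : ℕ
  /-- the labels -/
  Λ : Type
  /-- the internal states -/
  σ : Type
  [finΛ : Finite Λ]
  [finσ : Finite σ]
  /-- the stack with the input -/
  input : Fin k
  /-- the stack with the output -/
  output : Fin k
  /-- the stack with the query to the oracle -/
  query : Fin k
  /-- the first label -/
  start : Λ
  /-- the initial state -/
  init : σ
  /-- the program -/
  act : Λ → Act k Λ σ

/-- the configurations: a label (`none` if the machine has halted), a state, and the stacks -/
abbrev OracleTM.Cfg (M : OracleTM) : Type := Turing.TM2.Cfg (fun _ : Fin M.k => Bool) M.Λ M.σ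

open Classical in
/-- One step with the oracle `A`; a query asks whether the content of the query stack is in `A`. -/
noncomputable def OracleTM.step (M : OracleTM) (A : Set (List Bool)) (c : M.Cfg) : Option M.Cfg :=
  match c.l with
  | none => none
  | some l => match M.act l with
    | .run s => some (Turing.TM2.stepAux s c.var c.stk)
    | .ask s s' => some (Turing.TM2.stepAux (if c.stk M.query ∈ A then s else s') c.var c.stk)

/-- the configuration after `n` steps on the input `x` with the oracle `A` -/
noncomputable def OracleTM.conf (M : OracleTM) (A : Set (List Bool)) (x : List Bool) :
    ℕ → Option M.Cfg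
  | 0 => some ⟨some M.start, M.init, fun i => if i = M.input then x else []⟩
  | n + 1 => (M.conf A x n).bind (M.step A)

open Classical in
/-- The class `P^A`: an oracle machine halts with the oracle `A` on every input `x` after at most
`p (|x|)` steps, for a polynomial `p`, and its output is the bit that says whether `x` is in `L`. -/
def InPOracle (A L : Set (List Bool)) : Prop :=
  ∃ (M : OracleTM) (p : Polynomial ℕ), ∀ x, ∃ n ≤ p.eval x.length, ∃ c, M.conf A x n = some c ∧
    c.l = none ∧ c.stk M.output = [decide (x ∈ L)]

end Pool.Agent.Seat68.RC
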