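import Pool.Agent.Seat68.RC.Sem
import Pool.Agent.Helper578.JD.Comp

/-!
Computability of the functions of the construction.
-/

set_option autoImplicit false

namespace Pool.Agent.Seat68.RC

attribute [fun_prop] Primrec

section prim

variable {α β γ δ : Type} [Primcodable α] [Primcodable β] [Primcodable γ] [Primcodable δ]

@[fun_prop] theorem pid : Primrec (fun x : α => x) := Primrec.id
@[fun_prop] theorem pconst (b : β) : Primrec (fun _ : α => b) := Primrec.const b
@[fun_prop] theorem pcomp {f : β → γ} {g : α → β} (hf : Primrec f) (hg : Primrec g) :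
    Primrec (fun x => f (g x)) := hf.comp hg
@[fun_prop] theorem pfst {f : α → β × γ} (hf : Primrec f) :
    Primrec (fun x => (f x).1) := Primrec.fst.comp hf
@[fun_prop] theorem psnd {f : α → β × γ} (hf : Primrec f) :
    Primrec (fun x => (f x).2) := Primrec.snd.comp hf
@[fun_prop] theorem ppair {f : α → β} {g : α → γ} (hf : Primrec f) (hg : Primrec g) :
    Primrec (fun x => (f x, g x)) := hf.pair hg
@[fun_prop] theorem padd {f g : α → ℕ} (hf : Primrec f) (hg : Primrec g) :
    Primrec (fun x => f x + g x) := Primrec.nat_add.comp hf hg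
@[fun_prop] theorem psub {f g : α → ℕ} (hf : Primrec f) (hg : Primrec g) :
    Primrec (fun x => f x - g x) := Primrec.nat_sub.comp hf hg
@[fun_prop] theorem pmul {f g : α → ℕ} (hf : Primrec f) (hg : Primrec g) :
    Primrec (fun x => f x * g x) := Primrec.nat_mul.comp hf hg
@[fun_prop] theorem ppow {f g : α → ℕ} (hf : Primrec f) (hg : Primrec g) :
    Primrec (fun x => f x ^ g x) :=
  (Primrec₂.unpaired'.1 Nat.Primrec.pow : Primrec₂ fun a b : ℕ => a ^ b).comp hf hg
@[fun_prop] theorem pnatpair {f g : α → ℕ} (hf : Primrec f) (hg : Primrec g) :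
    Primrec (fun x => Nat.pair (f x) (g x)) := Primrec₂.natPair.comp hf hg
@[fun_prop] theorem pappend {f g : α → List β} (hf : Primrec f) (hg : Primrec g) :
    Primrec (fun x => f x ++ g x) := Primrec.list_append.comp hf hg
@[fun_prop] theorem pcons {f : α → β} {g : α → List β} (hf : Primrec f) (hg : Primrec g) :
    Primrec (fun x => f x :: g x) := Primrec.list_cons.comp hf hg
@[fun_prop] theorem plength {f : α → List β} (hf : Primrec f) :
    Primrec (fun x => (f x).length) := Primrec.list_length.comp hf
@[fun_prop] theorem pgetD {f : α → List β} {g : α → ℕ} {d : β} (hf : Primrec f)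
    (hg : Primrec g) : Primrec (fun x => (f x).getD (g x) d) :=
  (Primrec.list_getD d).comp hf hg
@[fun_prop] theorem prange {f : α → ℕ} (hf : Primrec f) :
    Primrec (fun x => List.range (f x)) := Primrec.list_range.comp hf
@[fun_prop] theorem pdrop {f : α → List β} {g : α → ℕ} (hg : Primrec g) (hf : Primrec f) :
    Primrec (fun x => (f x).drop (g x)) := Primrec.list_drop.comp hg hf
@[fun_prop] theorem ptake {f : α → List β} {g : α → ℕ} (hg : Primrec g) (hf : Primrec f) :
    Primrec (fun x => (f x).take (g x)) := Primrec.list_take.comp hg hf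
@[fun_prop] theorem pand {f g : α → Bool} (hf : Primrec f) (hg : Primrec g) :
    Primrec (fun x => f x && g x) := Primrec.and.comp hf hg
@[fun_prop] theorem pxor {f g : α → Bool} (hf : Primrec f) (hg : Primrec g) :
    Primrec (fun x => xor (f x) (g x)) := (Primrec.dom_bool₂ xor).comp hf hg
@[fun_prop] theorem pmap {f : α → β → γ} {l : α → List β}
    (hf : Primrec fun p : α × β => f p.1 p.2) (hl : Primrec l) :
    Primrec fun a => (l a).map (f a) := Primrec.list_map hl hf
@[fun_prop] theorem pflatMap {f : α → β → List γ} {l : α → List β}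
    (hf : Primrec fun p : α × β => f p.1 p.2) (hl : Primrec l) :
    Primrec fun a => (l a).flatMap (f a) := Primrec.list_flatMap hl hf

@[fun_prop] theorem ppar {f g : α → List Bool} (hf : Primrec f) (hg : Primrec g) :
    Primrec fun a => par (f a) (g a) := by
  unfold par
  refine Primrec.list_foldr (h := fun (_ : α) (p : Bool × Bool) => xor p.1 p.2) ?_
    (Primrec.const false) ?_
  · fun_prop
  · show Primrec fun p : α × (Bool × Bool) => xor p.2.1 p.2.2
    fun_prop

@[fun_prop] theorem phh {j : α → ℕ} {f g : α → List Bool} (hj : Primrec j) (hf : Primrec f)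
    (hg : Primrec g) : Primrec fun a => hh (j a) (f a) (g a) := by
  unfold hh
  fun_prop

@[fun_prop] theorem pFF {j : α → ℕ} {f g : α → List Bool} (hj : Primrec j) (hf : Primrec f)
    (hg : Primrec g) : Primrec fun a => FF (j a) (f a) (g a) := by
  unfold FF
  fun_prop

@[fun_prop] theorem pMM {n j : α → ℕ} (hn : Primrec n) (hj : Primrec j) :
    Primrec fun a => MM (n a) (j a) := by
  unfold MM LL
  fun_prop

@[fun_prop] theorem pJJ {n : α → ℕ} (hn : Primrec n) : Primrec fun a => JJ (n a) := by
  unfold JJ
  fun_prop

@[fun_prop] theorem pkk {n : α → ℕ} (hn : Primrec n) : Primrec fun a => kk (n a) := by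
  unfold kk
  fun_prop

@[fun_prop] theorem pbb {n : α → ℕ} (hn : Primrec n) : Primrec fun a => bb (n a) := by
  unfold bb
  fun_prop

@[fun_prop] theorem pblk {v : α → List Bool} {i M : α → ℕ} (hv : Primrec v) (hi : Primrec i)
    (hM : Primrec M) : Primrec fun a => blk (v a) (i a) (M a) := by
  unfold blk
  fun_prop

@[fun_prop] theorem pfl {w : α → List Pr} (hw : Primrec w) : Primrec fun a => fl (w a) := by
  unfold fl
  fun_prop

theorem pallStr : Primrec allStr := by
  have h : Primrec (Nat.rec (motive := fun _ => List (List Bool)) [[]]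
      fun (_ : ℕ) (s : List (List Bool)) => s.flatMap fun y => [false :: y, true :: y]) := by
    refine Primrec.nat_rec₁ (f := fun (_ : ℕ) (s : List (List Bool)) =>
      s.flatMap fun y => [false :: y, true :: y]) [[]] ?_
    show Primrec fun p : ℕ × List (List Bool) => p.2.flatMap fun y => [false :: y, true :: y]
    fun_prop
  refine h.of_eq fun n => ?_
  induction n with
  | zero => rfl
  | succ n ih =>
    rw [allStr, ← ih]

theorem pmvg (g : Pr → Pr → Pr) (c : Bool) : Primrec (mvg g c) := by
  have hg : Primrec fun p : Pr × Pr => g p.1 p.2 := Primrec.dom_finite _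
  unfold mvg
  refine pmap (f := fun (w : List Pr) i => g (w.getD i (false, false)) (w.getD (i + 1) (c, c)))
    ?_ (by fun_prop)
  exact hg.comp (g := fun p : List Pr × ℕ => (p.1.getD p.2 (false, false),
    p.1.getD (p.2 + 1) (c, c))) (by fun_prop)

theorem pmoves : Primrec moves := by
  unfold moves
  have h := pmvg
  fun_prop

theorem pnb (k : ℕ) : Primrec (nb k) := by
  induction k with
  | zero =>
    show Primrec fun w => [w]
    fun_prop
  | succ k ih =>
    show Primrec fun w => (moves w).flatMap (nb k)
    exact pflatMap (f := fun _ => nb k) (ih.comp Primrec.snd) pmoves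

theorem pGam : Primrec Gam := by
  unfold Gam
  refine pflatMap (f := fun (w : List Pr) e => nb rounds (w ++ [e])) ?_ (by fun_prop)
  exact (pnb rounds).comp (by fun_prop)

end prim

end Pool.Agent.Seat68.RC
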