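import Pool.Agent.Seat68.RC.Bad

/-!
The algorithm and its correctness.
-/

set_option autoImplicit false

namespace Pool.Agent.Seat68.RC

open Finset

/-- one step of the walk with oracle `o` -/
def stp (o : List Bool → Bool) (w : List Pr) : List Pr :=
  ((Gam w).find? fun z => o (fl z)).getD (w ++ [(false, false)])

/-- the test of the region of `x` and `j` with the sample string `v` -/
def tst (o : List Bool → Bool) (x v : List Bool) (j : ℕ) : Bool :=
  (List.range (kk x.length)).all fun i => !o (FF j x (blk v i (MM x.length j)))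

/-- the answer read off with the sample string `v` -/
def ans (o : List Bool → Bool) (x v : List Bool) : Bool :=
  decide (((List.range (JJ x.length)).find? fun j => tst o x v j).getD 0 % 2 = 0)

/-- the algorithm -/
def alg (o : List Bool → Bool) (x : List Bool) : Bool :=
  ans o x (fl ((stp o)^[bb x.length] []))

theorem length_stp (o : List Bool → Bool) (w : List Pr) : (stp o w).length = w.length + 1 := by
  unfold stp
  rcases h : (Gam w).find? fun z => o (fl z) with _ | z
  · simp
  · exact length_of_mem_Gam (List.mem_of_find?_eq_some h)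

theorem length_iter (o : List Bool → Bool) (k : ℕ) : ((stp o)^[k] []).length = k := by
  induction k with
  | zero => rfl
  | succ k ih => rw [Function.iterate_succ_apply', length_stp, ih]

variable {Wt : ℕ → List Bool → Bool} {D : List Bool → Prop}

/-- the strings which stay incompressible -/
def Rn (Wt : ℕ → List Bool → Bool) (D : List Bool → Prop) (z : List Bool) : Prop :=
  ¬ Wp Wt z ∧ ¬ Bad Wt D z

theorem dead_of_Wp {w : List Pr} (h : Wp Wt (fl w)) : DeadE Wt D w :=
  ⟨[w], by simp, fun z hz => by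
    rw [List.mem_singleton] at hz
    rw [hz]
    exact Or.inl h⟩

theorem dead_of_GF {w : List Pr} (h : GF Wt D (fl w)) : DeadE Wt D w :=
  ⟨[w], by simp, fun z hz => by
    rw [List.mem_singleton] at hz
    rw [hz]
    exact Or.inr (Or.inl h)⟩

theorem not_BadOdd_fl (w : List Pr) : ¬ BadOdd Wt D (fl w) := by
  rintro ⟨x, j, y, -, hy, -, h⟩
  have := congrArg List.length h
  rw [length_fl, length_FF hy] at this
  unfold LL at this
  omega

theorem Bad_fl {w : List Pr} : Bad Wt D (fl w) ↔ DeadE Wt D w := by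
  constructor
  · rintro (h | ⟨w', h, hw⟩)
    · exact absurd h (not_BadOdd_fl w)
    · rwa [fl_inj h]
  · intro h
    exact Or.inr ⟨w, rfl, h⟩

theorem Rn_fl {w : List Pr} : Rn Wt D (fl w) ↔ ¬ DeadE Wt D w := by
  unfold Rn
  rw [Bad_fl]
  constructor
  · exact fun h => h.2
  · exact fun h => ⟨fun h' => h (dead_of_Wp h'), h⟩

theorem exists_alive {w : List Pr} (h : ¬ DeadE Wt D w) : ∃ z ∈ Gam w, ¬ DeadE Wt D z := by
  by_contra hcon
  push Not at hcon
  apply h
  have hch : ∀ w, ∃ l : List (List Pr), DeadE Wt D w → w ∈ l ∧ Cl Wt D l := by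
    intro w
    by_cases h : DeadE Wt D w
    · obtain ⟨l, hl⟩ := h
      exact ⟨l, fun _ => hl⟩
    · exact ⟨[], fun h' => absurd h' h⟩
  choose f hf using hch
  refine ⟨w :: (Gam w).flatMap f, by simp, ?_⟩
  intro z hz
  rw [List.mem_cons, List.mem_flatMap] at hz
  rcases hz with rfl | ⟨y, hy, hz⟩
  · refine Or.inr (Or.inr fun z' hz' => ?_)
    rw [List.mem_cons, List.mem_flatMap]
    exact Or.inr ⟨z', hz', (hf z' (hcon z' hz')).1⟩
  · rcases (hf y (hcon y hy)).2 z hz with h | h | h
    · exact Or.inl h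
    · exact Or.inr (Or.inl h)
    · refine Or.inr (Or.inr fun z' hz' => ?_)
      rw [List.mem_cons, List.mem_flatMap]
      exact Or.inr ⟨y, hy, h z' hz'⟩

theorem alive_stp {o : List Bool → Bool} (ho : ∀ z, o z = true ↔ Rn Wt D z) {w : List Pr}
    (h : ¬ DeadE Wt D w) : ¬ DeadE Wt D (stp o w) := by
  unfold stp
  rcases h1 : (Gam w).find? fun z => o (fl z) with _ | z
  · exfalso
    obtain ⟨z, hz, hz'⟩ := exists_alive h
    rw [List.find?_eq_none] at h1
    exact h1 z hz ((ho _).2 (Rn_fl.2 hz'))
  · have h2 := List.find?_some h1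
    rw [Option.getD_some]
    exact Rn_fl.1 ((ho _).1 h2)

theorem alive_nil (hmono : ∀ s t z, s ≤ t → Wt s z = true → Wt t z = true)
    (hW : ∀ L, (Sub L (Wp Wt)).card * 2 ^ 9 ≤ 2 ^ L) : ¬ DeadE Wt D [] := by
  intro h
  have h1 := DeadE_card (D := D) hmono hW 0
  have h2 : 0 < (Sub 0 (DeadE Wt D)).card := Finset.card_pos.2 ⟨[], mem_Sub.2 ⟨rfl, h⟩⟩
  omega

theorem alive_iter (hmono : ∀ s t z, s ≤ t → Wt s z = true → Wt t z = true)
    (hW : ∀ L, (Sub L (Wp Wt)).card * 2 ^ 9 ≤ 2 ^ L) {o : List Bool → Bool}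
    (ho : ∀ z, o z = true ↔ Rn Wt D z) (k : ℕ) : ¬ DeadE Wt D ((stp o)^[k] []) := by
  induction k with
  | zero => exact alive_nil hmono hW
  | succ k ih =>
    rw [Function.iterate_succ_apply']
    exact alive_stp ho ih

theorem Hp_of_Unl {x : List Bool} {j : ℕ} (h : Unl Wt x j) : Hp Wt D j x := by
  have h1 : Zp Wt x j := Or.inl ⟨j, by omega, h⟩
  rcases Nat.mod_two_eq_zero_or_one j with h2 | h2
  · exact Or.inl ⟨h2, Or.inl h1⟩
  · exact Or.inr ⟨h2, Zp_mono (by omega) h1⟩

theorem test_iff (hmono : ∀ s t z, s ≤ t → Wt s z = true → Wt t z = true) {x v : List Bool}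
    {j : ℕ} (hj : j < JJ x.length) (hv : v.length = 2 * bb x.length) (hG : ¬ GF Wt D v) :
    (∀ i < kk x.length, ¬ Rn Wt D (FF j x (blk v i (MM x.length j)))) ↔ Hp Wt D j x := by
  classical
  constructor
  · intro h
    by_contra hH
    apply hG
    refine ⟨x, j, hj, hv, ?_⟩
    have hU : ¬ Unl Wt x j := fun h => hH (Hp_of_Unl h)
    have h1 : ∀ i < kk x.length, Wp Wt (FF j x (blk v i (MM x.length j))) ∨
        ∃ x' : List Bool, x'.length = x.length ∧ x' ≠ x ∧ Hp Wt D j x' ∧
          hh j x' (blk v i (MM x.length j)) = hh j x (blk v i (MM x.length j)) := by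
      intro i hi
      have h2 := h i hi
      unfold Rn at h2
      rw [not_and_or, not_not, not_not] at h2
      rcases h2 with h2 | ⟨x', j', y', hj', hy', hH', he⟩ | ⟨w, he, -⟩
      · exact Or.inl h2
      · right
        have hl := congrArg List.length he
        rw [length_FF (length_blk hv hj hi), length_FF hy'] at hl
        obtain ⟨hn, rfl⟩ := LL_inj hl
        obtain ⟨h3, rfl⟩ := FF_inj he
        refine ⟨x', hn.symm, ?_, hH', h3.symm⟩
        rintro rfl
        exact hH hH'
      · exfalso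
        have hl := congrArg List.length he
        rw [length_FF (length_blk hv hj hi), length_fl] at hl
        unfold LL at hl
        omega
    have hch : ∀ i, ∃ t, Wp Wt (FF j x (blk v i (MM x.length j))) →
        Wt t (FF j x (blk v i (MM x.length j))) = true := by
      intro i
      by_cases h : Wp Wt (FF j x (blk v i (MM x.length j)))
      · obtain ⟨t, ht⟩ := h
        exact ⟨t, fun _ => ht⟩
      · exact ⟨0, fun h' => absurd h' h⟩
    choose t ht using hch
    refine ⟨(Finset.range (kk x.length)).sup t,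
      (allStr (MM x.length j)).filter fun y => Wt ((Finset.range (kk x.length)).sup t) (FF j x y),
      ?_, ?_, ?_⟩
    · rw [Unl_iff, not_lt] at hU
      refine le_trans (Nat.mul_le_mul_left 4 ?_) hU
      refine list_card _ _ ((nodup_allStr _).filter _) ?_
      intro y hy
      rw [List.mem_filter, mem_allStr] at hy
      exact ⟨hy.1, _, hy.2⟩
    · intro y hy h
      rw [List.mem_filter]
      exact ⟨hy, h⟩
    · intro i hi
      rcases h1 i hi with h | h
      · exact Or.inl (hmono _ _ _ (Finset.le_sup (f := t) (Finset.mem_range.2 hi)) (ht i h))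
      · exact Or.inr h
  · intro hH i hi hR
    exact hR.2 (Or.inl ⟨x, j, _, hj, length_blk hv hj hi, hH, rfl⟩)

theorem first_iff (hW : ∀ L, (Sub L (Wp Wt)).card * 2 ^ 9 ≤ 2 ^ L) (x : List Bool) :
    ∃ j < JJ x.length, Hp Wt D j x ∧ (∀ j' < j, ¬ Hp Wt D j' x) ∧ (D x ↔ j % 2 = 0) := by
  classical
  have hex : ∃ j, Zp Wt x j := ⟨JJ x.length, Or.inr le_rfl⟩
  set m := Nat.find hex with hm
  have h1 : ∀ j, Zp Wt x j ↔ m ≤ j := fun j =>
    ⟨fun h => Nat.find_min' hex h, fun h => Zp_mono h (Nat.find_spec hex)⟩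
  have h2 : m ≤ JJ x.length := Nat.find_min' hex (Or.inr le_rfl)
  have h3 : ¬ Zp Wt x 0 := by
    rintro (⟨j', hj', h⟩ | h)
    · have e : j' = 0 := by omega
      subst e
      have h4 := Unl_card hW x.length 0
      have h5 : 0 < (Sub x.length fun x => Unl Wt x 0).card :=
        Finset.card_pos.2 ⟨x, mem_Sub.2 ⟨rfl, h⟩⟩
      omega
    · unfold JJ at h
      omega
  rw [h1] at h3
  have hJ : JJ x.length % 2 = 0 := by unfold JJ; omega
  have hH : ∀ j, Hp Wt D j x ↔ (j % 2 = 0 ∧ (m ≤ j ∨ (m ≤ j + 2 ∧ D x))) ∨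
      (j % 2 = 1 ∧ m ≤ j + 1) := by
    intro j
    unfold Hp
    rw [h1, h1, h1]
  simp only [hH]
  by_cases hD : D x
  · simp only [hD, and_true, true_iff]
    rcases Nat.mod_two_eq_zero_or_one m with hp | hp
    · exact ⟨m - 2, by omega, by omega, by omega, by omega⟩
    · exact ⟨m - 1, by omega, by omega, by omega, by omega⟩
  · simp only [hD, and_false, or_false, false_iff]
    rcases Nat.mod_two_eq_zero_or_one m with hp | hp
    · exact ⟨m - 1, by omega, by omega, by omega, by omega⟩
    · exact ⟨m, by omega, by omega, by omega, by omega⟩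

/-- the algorithm is correct -/
theorem alg_correct (hmono : ∀ s t z, s ≤ t → Wt s z = true → Wt t z = true)
    (hW : ∀ L, (Sub L (Wp Wt)).card * 2 ^ 9 ≤ 2 ^ L) {o : List Bool → Bool}
    (ho : ∀ z, o z = true ↔ Rn Wt D z) (x : List Bool) : alg o x = true ↔ D x := by
  have h1 := alive_iter hmono hW ho (bb x.length)
  have h2 := length_iter o (bb x.length)
  unfold alg
  generalize (stp o)^[bb x.length] [] = w at h1 h2
  have h3 : ¬ GF Wt D (fl w) := fun h => h1 (dead_of_GF h)
  have h4 : (fl w).length = 2 * bb x.length := by rw [length_fl, h2]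
  generalize fl w = v at h3 h4
  have h5 : ∀ j < JJ x.length, (tst o x v j = true ↔ Hp Wt D j x) := by
    intro j hj
    rw [← test_iff hmono hj h4 h3]
    unfold tst
    simp only [List.all_eq_true, List.mem_range, Bool.not_eq_true', ← Bool.not_eq_true, ho]
  obtain ⟨j, hj, hH, hmin, hD⟩ := first_iff (D := D) hW x
  have h6 : (List.range (JJ x.length)).find? (fun j => tst o x v j) = some j := by
    rw [List.find?_range_eq_some]
    refine ⟨(h5 j hj).2 hH, by simpa using hj, fun j' hj' => ?_⟩
    simp only [Bool.not_eq_true', ← Bool.not_eq_true]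
    rw [h5 j' (by omega)]
    exact hmin j' hj'
  unfold ans
  rw [h6, Option.getD_some, decide_eq_true_eq, hD]

end Pool.Agent.Seat68.RC
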