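import Mathlib

/-!
# Expansion of shear maps with a shift on pairs of binary vectors

On `V × V`, `V = 𝔽₂^(b+1)`, the maps `(u, v) ↦ (u + v, v)`, `(u, v) ↦ (u + sh v, v)`,
`(u, v) ↦ (u, v + u)`, `(u, v) ↦ (u, v + sh u)`, where `sh v` is `v` shifted by one place with an
arbitrary new last bit, expand every set of at most half of the points by a constant factor.
-/

set_option autoImplicit false

namespace Pool.Agent.Seat68.RC

open Finset

/-- binary vectors with `b + 1` coordinates -/
abbrev V (b : ℕ) : Type := Fin (b + 1) → ZMod 2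

/-- the nontrivial character of `ZMod 2` -/
noncomputable def sg (x : ZMod 2) : ℝ := if x = 0 then 1 else -1

theorem z2 (x : ZMod 2) : x = 0 ∨ x = 1 := by
  revert x; decide

theorem sg_zero : sg 0 = 1 := by simp [sg]

theorem sg_one : sg 1 = -1 := by simp [sg]

theorem one_add_one : (1 : ZMod 2) + 1 = 0 := by decide

theorem sg_add (x y : ZMod 2) : sg (x + y) = sg x * sg y := by
  rcases z2 x with rfl | rfl <;> rcases z2 y with rfl | rfl <;> simp [sg_zero, sg_one, one_add_one]

theorem sg_cases (x : ZMod 2) : sg x = 1 ∨ sg x = -1 := by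
  rcases z2 x with rfl | rfl
  · exact Or.inl sg_zero
  · exact Or.inr sg_one

variable {b : ℕ}

/-- the pairing of pairs of vectors -/
def ip (c w : V b × V b) : ZMod 2 := ∑ i, c.1 i * w.1 i + ∑ i, c.2 i * w.2 i

theorem ip_add_right (c w w' : V b × V b) : ip c (w + w') = ip c w + ip c w' := by
  simp only [ip, Prod.fst_add, Prod.snd_add, Pi.add_apply, mul_add, Finset.sum_add_distrib]
  ring

theorem ip_add_left (c c' w : V b × V b) : ip (c + c') w = ip c w + ip c' w := by
  simp only [ip, Prod.fst_add, Prod.snd_add, Pi.add_apply, add_mul, Finset.sum_add_distrib]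
  ring

theorem ip_zero (c : V b × V b) : ip c 0 = 0 := by simp [ip]

theorem exists_ip {w : V b × V b} (hw : w ≠ 0) : ∃ c, ip c w = 1 := by
  have : (∃ i, w.1 i ≠ 0) ∨ ∃ i, w.2 i ≠ 0 := by
    by_contra h
    push Not at h
    exact hw (Prod.ext (funext h.1) (funext h.2))
  rcases this with ⟨i, hi⟩ | ⟨i, hi⟩
  · refine ⟨(Pi.single i 1, 0), ?_⟩
    have h1 := (z2 (w.1 i)).resolve_left hi
    simp [ip, Pi.single_apply, h1]
  · refine ⟨(0, Pi.single i 1), ?_⟩
    have h1 := (z2 (w.2 i)).resolve_left hi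
    simp [ip, Pi.single_apply, h1]

theorem card_VV : Fintype.card (V b × V b) = 4 ^ (b + 1) := by
  simp only [Fintype.card_prod, Fintype.card_pi, ZMod.card, Finset.prod_const, Finset.card_univ,
    Fintype.card_fin]
  rw [← mul_pow]
  norm_num

theorem add_self_zero (w : V b × V b) : w + w = 0 := by
  refine Prod.ext (funext fun i => ?_) (funext fun i => ?_)
  · show w.1 i + w.1 i = 0
    rcases z2 (w.1 i) with h | h <;> rw [h] <;> decide
  · show w.2 i + w.2 i = 0
    rcases z2 (w.2 i) with h | h <;> rw [h] <;> decide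

theorem sum_sg (w : V b × V b) :
    ∑ c : V b × V b, sg (ip c w) = if w = 0 then (4 : ℝ) ^ (b + 1) else 0 := by
  split_ifs with h
  · subst h
    simp only [ip_zero, sg_zero, Finset.sum_const, Finset.card_univ, card_VV, nsmul_eq_mul, mul_one]
    push_cast
    rfl
  · obtain ⟨c0, h0⟩ := exists_ip h
    have h1 : ∑ c : V b × V b, sg (ip c w) = ∑ c : V b × V b, sg (ip (c + c0) w) :=
      (Equiv.sum_comp (Equiv.addRight c0) fun c => sg (ip c w)).symm
    have h2 : ∑ c : V b × V b, sg (ip (c + c0) w) = - ∑ c : V b × V b, sg (ip c w) := by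
      rw [← Finset.sum_neg_distrib]
      refine Finset.sum_congr rfl fun c _ => ?_
      rw [ip_add_left, h0, sg_add, sg_one, mul_neg, mul_one]
    linarith

/-- the Walsh transform -/
noncomputable def wt (f : V b × V b → ℝ) (c : V b × V b) : ℝ := ∑ w, f w * sg (ip c w)

theorem wt_sub (f g : V b × V b → ℝ) (c : V b × V b) :
    wt (fun w => f w - g w) c = wt f c - wt g c := by
  simp only [wt, sub_mul, Finset.sum_sub_distrib]

theorem parseval (f : V b × V b → ℝ) :
    ∑ c, wt f c ^ 2 = 4 ^ (b + 1) * ∑ w, f w ^ 2 := by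
  have h1 : ∀ c, wt f c ^ 2 = ∑ w, ∑ w', f w * f w' * sg (ip c (w + w')) := by
    intro c
    rw [wt, sq, Finset.sum_mul_sum]
    refine Finset.sum_congr rfl fun w _ => Finset.sum_congr rfl fun w' _ => ?_
    rw [ip_add_right, sg_add]
    ring
  simp only [h1]
  rw [Finset.sum_comm]
  rw [Finset.mul_sum]
  refine Finset.sum_congr rfl fun w _ => ?_
  rw [Finset.sum_comm]
  have h2 : ∀ w', ∑ c, f w * f w' * sg (ip c (w + w')) =
      if w = w' then 4 ^ (b + 1) * f w ^ 2 else 0 := by
    intro w'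
    rw [← Finset.mul_sum, sum_sg]
    by_cases h : w = w'
    · subst h
      simp [add_self_zero]
      ring
    · have : w + w' ≠ 0 := by
        intro h'
        apply h
        have h3 : w + w' + w' = w' := by rw [h', zero_add]
        rw [add_assoc, add_self_zero, add_zero] at h3
        exact h3
      simp [h, this]
  simp only [h2, Finset.sum_ite_eq, Finset.mem_univ, if_true]

/-- transform of a composition with an affine involution -/
theorem wt_comp (f : V b × V b → ℝ) (T τ : V b × V b → V b × V b) (k : V b × V b → ZMod 2)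
    (hT : Function.Involutive T) (h : ∀ c w, ip c (T w) = ip (τ c) w + k c) (c : V b × V b) :
    wt (fun w => f (T w)) c = sg (k c) * wt f (τ c) := by
  have h1 : wt (fun w => f (T w)) c = ∑ w, f w * sg (ip c (T w)) := by
    rw [wt]
    rw [← Equiv.sum_comp (hT.toPerm T) fun w => f w * sg (ip c (T w))]
    refine Finset.sum_congr rfl fun w _ => ?_
    simp only [Function.Involutive.coe_toPerm, hT w]
  rw [h1, wt, Finset.mul_sum]
  refine Finset.sum_congr rfl fun w _ => ?_
  rw [h, sg_add]
  ring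

/-- the indicator function of a finite set -/
noncomputable def ind (A : Finset (V b × V b)) (w : V b × V b) : ℝ := if w ∈ A then 1 else 0

theorem ind_sq (A : Finset (V b × V b)) : ∑ w, ind A w ^ 2 = A.card := by
  have : ∀ w, ind A w ^ 2 = if w ∈ A then (1 : ℝ) else 0 := by
    intro w
    unfold ind
    split_ifs <;> norm_num
  simp only [this, Finset.sum_ite_mem, Finset.univ_inter, Finset.sum_const, nsmul_eq_mul, mul_one]

/-- almost invariance of the indicator function of `A` if `A` does not grow under `T` -/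
theorem ind_diff (A N : Finset (V b × V b)) (T : V b × V b → V b × V b)
    (hT : Function.Involutive T) (hAN : A ⊆ N) (hTN : ∀ w ∈ A, T w ∈ N) :
    ∑ w, (ind A w - ind A (T w)) ^ 2 ≤ 2 * ((N.card : ℝ) - A.card) := by
  classical
  -- the points of `A` which leave `A`
  have h1 : ∀ w, (ind A w - ind A (T w)) ^ 2 =
      (if w ∈ A ∧ T w ∉ A then (1 : ℝ) else 0) + (if T w ∈ A ∧ w ∉ A then (1 : ℝ) else 0) := by
    intro w
    unfold ind
    by_cases h : w ∈ A <;> by_cases h' : T w ∈ A <;> simp [h, h']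
  simp only [h1, Finset.sum_add_distrib]
  have h2 : ∑ w, (if T w ∈ A ∧ w ∉ A then (1 : ℝ) else 0) =
      ∑ w, (if w ∈ A ∧ T w ∉ A then (1 : ℝ) else 0) := by
    rw [← Equiv.sum_comp (hT.toPerm T) fun w => if T w ∈ A ∧ w ∉ A then (1 : ℝ) else 0]
    refine Finset.sum_congr rfl fun w _ => ?_
    simp only [Function.Involutive.coe_toPerm, hT w]
  have h3 : ∑ w, (if w ∈ A ∧ T w ∉ A then (1 : ℝ) else 0) ≤ (N.card : ℝ) - A.card := by
    rw [Finset.sum_boole]
    have h4 : ((univ.filter fun w => w ∈ A ∧ T w ∉ A).image T) ⊆ N \ A := by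
      intro z hz
      simp only [Finset.mem_image, Finset.mem_filter, Finset.mem_univ, true_and] at hz
      obtain ⟨w, ⟨hw1, hw2⟩, rfl⟩ := hz
      exact Finset.mem_sdiff.2 ⟨hTN w hw1, hw2⟩
    have h5 := Finset.card_le_card h4
    rw [Finset.card_image_of_injective _ hT.injective, Finset.card_sdiff_of_subset hAN] at h5
    have h6 := Finset.card_le_card hAN
    have h7 : ((univ.filter fun w => w ∈ A ∧ T w ∉ A).card : ℝ) ≤ ((N.card - A.card : ℕ) : ℝ) := by
      exact_mod_cast h5
    rw [Nat.cast_sub h6] at h7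
    exact h7
  rw [h2]
  linarith

/-- the same in terms of the transform -/
theorem wt_diff (A N : Finset (V b × V b)) (T τ : V b × V b → V b × V b)
    (k : V b × V b → ZMod 2) (hT : Function.Involutive T)
    (h : ∀ c w, ip c (T w) = ip (τ c) w + k c) (hAN : A ⊆ N) (hTN : ∀ w ∈ A, T w ∈ N) :
    ∑ c, (wt (ind A) c - sg (k c) * wt (ind A) (τ c)) ^ 2 ≤
      4 ^ (b + 1) * (2 * ((N.card : ℝ) - A.card)) := by
  have h1 : ∀ c, wt (ind A) c - sg (k c) * wt (ind A) (τ c) =
      wt (fun w => ind A w - ind A (T w)) c := by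
    intro c
    rw [wt_sub, wt_comp (ind A) T τ k hT h c]
  simp only [h1]
  rw [parseval]
  exact mul_le_mul_of_nonneg_left (ind_diff A N T hT hAN hTN) (by positivity)

/-- transport of mass -/
theorem transport {Q : Type} [Fintype Q] [DecidableEq Q] (F : Q → ℝ) (τ : Q → Q)
    (hτ : Function.Injective τ) (s : Q → ℝ) (hs : ∀ c, s c = 1 ∨ s c = -1) (K : ℝ)
    (hK : ∑ c, (F c - s c * F (τ c)) ^ 2 ≤ K) (E E' : Finset Q) (hE : ∀ c ∈ E, τ c ∈ E') :
    ∑ c ∈ E, F c ^ 2 ≤ 11 / 10 * ∑ c ∈ E', F c ^ 2 + 11 * K := by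
  have h1 : ∀ c, F c ^ 2 ≤ 11 / 10 * F (τ c) ^ 2 + 11 * (F c - s c * F (τ c)) ^ 2 := by
    intro c
    rcases hs c with h | h <;> rw [h]
    · nlinarith [sq_nonneg (F c - 1 * F (τ c) - F (τ c) / 10), sq_nonneg (10 * F c - 11 * F (τ c))]
    · nlinarith [sq_nonneg (10 * F c + 11 * F (τ c))]
  calc ∑ c ∈ E, F c ^ 2 ≤ ∑ c ∈ E, (11 / 10 * F (τ c) ^ 2 + 11 * (F c - s c * F (τ c)) ^ 2) :=
        Finset.sum_le_sum fun c _ => h1 c
    _ = 11 / 10 * ∑ c ∈ E, F (τ c) ^ 2 + 11 * ∑ c ∈ E, (F c - s c * F (τ c)) ^ 2 := by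
        rw [Finset.sum_add_distrib, Finset.mul_sum, Finset.mul_sum]
    _ ≤ 11 / 10 * ∑ c ∈ E', F c ^ 2 + 11 * K := by
        have h2 : ∑ c ∈ E, F (τ c) ^ 2 ≤ ∑ c ∈ E', F c ^ 2 := by
          rw [← Finset.sum_image (f := fun c => F c ^ 2) (g := τ) fun x _ y _ h => hτ h]
          refine Finset.sum_le_sum_of_subset_of_nonneg ?_ fun _ _ _ => sq_nonneg _
          intro z hz
          obtain ⟨c, hc, rfl⟩ := Finset.mem_image.1 hz
          exact hE c hc
        have h3 : ∑ c ∈ E, (F c - s c * F (τ c)) ^ 2 ≤ K :=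
          (Finset.sum_le_sum_of_subset_of_nonneg (Finset.subset_univ _)
            fun _ _ _ => sq_nonneg _).trans hK
        linarith

/-! ### Degrees -/

/-- the degree: one plus the last nonzero position, or zero -/
def dg (a : V b) : ℕ := (univ.filter fun i => a i ≠ 0).sup fun i => i.val + 1

theorem dg_le {a : V b} {k : ℕ} : dg a ≤ k ↔ ∀ i : Fin (b + 1), k ≤ i.val → a i = 0 := by
  unfold dg
  rw [Finset.sup_le_iff]
  constructor
  · intro h i hi
    by_contra hne
    have := h i (by simp [hne])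
    omega
  · intro h i hi
    by_contra hlt
    have h1 := h i (by omega)
    simp [h1] at hi

theorem lt_dg {a : V b} {k : ℕ} : k < dg a ↔ ∃ i : Fin (b + 1), k ≤ i.val ∧ a i ≠ 0 := by
  rw [← not_le, dg_le]
  push Not
  rfl

theorem dg_add_of_lt {a c : V b} (h : dg c < dg a) : dg (a + c) = dg a := by
  apply le_antisymm
  · rw [dg_le]
    intro i hi
    rw [Pi.add_apply, dg_le.1 le_rfl i hi, dg_le.1 h.le i hi, add_zero]
  · obtain ⟨k, hk⟩ : ∃ k, dg a = k + 1 := ⟨dg a - 1, by omega⟩
    rw [hk, Nat.succ_le_iff]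
    obtain ⟨i, hi, hne⟩ := lt_dg.1 (show k < dg a by omega)
    rw [lt_dg]
    refine ⟨i, hi, ?_⟩
    rw [Pi.add_apply, dg_le.1 (show dg c ≤ k by omega) i hi, add_zero]
    exact hne

theorem dg_pos {a : V b} (h : a ≠ 0) : 0 < dg a := by
  rw [lt_dg]
  by_contra hcon
  push Not at hcon
  exact h (funext fun i => hcon i (Nat.zero_le _))

/-- the shift `v ↦ (v₁, …, v_b, c)` -/
def sh (c : ZMod 2) (v : V b) : V b := Fin.snoc (α := fun _ => ZMod 2) (fun i : Fin b => v i.succ) c

/-- the dual shift `α ↦ (0, α₀, …, α_{b-1})` -/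
def up (a : V b) : V b := Fin.cons (α := fun _ => ZMod 2) 0 (fun i : Fin b => a i.castSucc)

theorem sum_sh (a v : V b) (c : ZMod 2) :
    ∑ i, a i * sh c v i = ∑ i, up a i * v i + c * a (Fin.last b) := by
  rw [Fin.sum_univ_castSucc, Fin.sum_univ_succ (fun i => up a i * v i)]
  simp only [sh, up, Fin.snoc_castSucc, Fin.snoc_last, Fin.cons_zero, Fin.cons_succ, zero_mul,
    zero_add]
  ring

theorem dg_up {a : V b} (h : a ≠ 0) (hl : a (Fin.last b) = 0) : dg (up a) = dg a + 1 := by
  have h0 := dg_pos h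
  apply le_antisymm
  · rw [dg_le]
    intro i hi
    have hi0 : i ≠ 0 := by
      rintro rfl
      simp at hi
    obtain ⟨j, rfl⟩ := Fin.exists_succ_eq.2 hi0
    rw [up, Fin.cons_succ]
    refine dg_le.1 le_rfl _ ?_
    simpa using hi
  · obtain ⟨k, hk⟩ : ∃ k, dg a = k + 1 := ⟨dg a - 1, by omega⟩
    rw [hk, Nat.succ_le_iff, lt_dg]
    obtain ⟨i, hi, hne⟩ := lt_dg.1 (show k < dg a by omega)
    have hne' : i ≠ Fin.last b := by
      rintro rfl
      exact hne hl
    obtain ⟨j, rfl⟩ := Fin.exists_castSucc_eq.2 hne'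
    refine ⟨j.succ, ?_, ?_⟩
    · simp at hi ⊢
      omega
    · rw [up, Fin.cons_succ]
      exact hne

/-! ### The maps -/

/-- the four kinds of maps -/
def t1 (w : V b × V b) : V b × V b := (w.1 + w.2, w.2)
def t2 (c : ZMod 2) (w : V b × V b) : V b × V b := (w.1 + sh c w.2, w.2)
def t3 (w : V b × V b) : V b × V b := (w.1, w.2 + w.1)
def t4 (c : ZMod 2) (w : V b × V b) : V b × V b := (w.1, w.2 + sh c w.1)

/-- the dual maps -/
def d1 (c : V b × V b) : V b × V b := (c.1, c.2 + c.1)
def d2 (c : V b × V b) : V b × V b := (c.1, c.2 + up c.1)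
def d3 (c : V b × V b) : V b × V b := (c.1 + c.2, c.2)
def d4 (c : V b × V b) : V b × V b := (c.1 + up c.2, c.2)

theorem vadd_self (a : V b) : a + a = 0 := by
  funext i
  show a i + a i = 0
  rcases z2 (a i) with h | h <;> rw [h] <;> decide

theorem add_add_cancel' (a c : V b) : a + c + c = a := by
  rw [add_assoc, vadd_self, add_zero]

theorem t1_inv : Function.Involutive (t1 (b := b)) := fun w => by simp [t1, add_add_cancel']
theorem t2_inv (c : ZMod 2) : Function.Involutive (t2 (b := b) c) := fun w => by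
  simp [t2, add_add_cancel']
theorem t3_inv : Function.Involutive (t3 (b := b)) := fun w => by simp [t3, add_add_cancel']
theorem t4_inv (c : ZMod 2) : Function.Involutive (t4 (b := b) c) := fun w => by
  simp [t4, add_add_cancel']
theorem d1_inj : Function.Injective (d1 (b := b)) :=
  Function.Involutive.injective fun w => by simp [d1, add_add_cancel']
theorem d2_inj : Function.Injective (d2 (b := b)) :=
  Function.Involutive.injective fun w => by simp [d2, add_add_cancel']
theorem d3_inj : Function.Injective (d3 (b := b)) :=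
  Function.Involutive.injective fun w => by simp [d3, add_add_cancel']
theorem d4_inj : Function.Injective (d4 (b := b)) :=
  Function.Involutive.injective fun w => by simp [d4, add_add_cancel']

theorem ip_t1 (c w : V b × V b) : ip c (t1 w) = ip (d1 c) w + 0 := by
  simp only [ip, t1, d1, Pi.add_apply, mul_add, add_mul, Finset.sum_add_distrib]
  ring

theorem ip_t3 (c w : V b × V b) : ip c (t3 w) = ip (d3 c) w + 0 := by
  simp only [ip, t3, d3, Pi.add_apply, mul_add, add_mul, Finset.sum_add_distrib]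
  ring

theorem ip_t2 (e : ZMod 2) (c w : V b × V b) :
    ip c (t2 e w) = ip (d2 c) w + e * c.1 (Fin.last b) := by
  simp only [ip, t2, d2, Pi.add_apply, mul_add, add_mul, Finset.sum_add_distrib, sum_sh]
  ring

theorem ip_t4 (e : ZMod 2) (c w : V b × V b) :
    ip c (t4 e w) = ip (d4 c) w + e * c.2 (Fin.last b) := by
  simp only [ip, t4, d4, Pi.add_apply, mul_add, add_mul, Finset.sum_add_distrib, sum_sh]
  ring

/-- **Expansion.** If `N` contains `A` and its images under the maps, and `A` has at most half of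
the points, then `N` is larger than `A` by a constant factor. -/
theorem expansion (A N : Finset (V b × V b)) (hA : 2 * A.card ≤ 4 ^ (b + 1)) (hAN : A ⊆ N)
    (h1 : ∀ w ∈ A, t1 w ∈ N) (h2 : ∀ e, ∀ w ∈ A, t2 e w ∈ N) (h3 : ∀ w ∈ A, t3 w ∈ N)
    (h4 : ∀ e, ∀ w ∈ A, t4 e w ∈ N) : 301 * A.card ≤ 300 * N.card := by
  classical
  set F : V b × V b → ℝ := wt (ind A) with hF
  set K : ℝ := 4 ^ (b + 1) * (2 * ((N.card : ℝ) - A.card)) with hK
  have hcard : (A.card : ℝ) ≤ N.card := by exact_mod_cast Finset.card_le_card hAN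
  have hK0 : 0 ≤ K := by
    rw [hK]
    have : (0 : ℝ) ≤ (N.card : ℝ) - A.card := by linarith
    positivity
  -- the regions
  set RA : Finset (V b × V b) := univ.filter fun c => dg c.2 < dg c.1 with hRA
  set RB : Finset (V b × V b) := univ.filter fun c => dg c.1 < dg c.2 with hRB
  set RC : Finset (V b × V b) := univ.filter fun c => dg c.1 = dg c.2 ∧ c ≠ 0 with hRC
  set xA := ∑ c ∈ RA, F c ^ 2
  set xB := ∑ c ∈ RB, F c ^ 2
  set xC := ∑ c ∈ RC, F c ^ 2
  have k1 := wt_diff A N t1 d1 (fun _ => 0) t1_inv ip_t1 hAN h1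
  have k3 := wt_diff A N t3 d3 (fun _ => 0) t3_inv ip_t3 hAN h3
  have k2 := fun e => wt_diff A N (t2 e) d2 (fun c => e * c.1 (Fin.last b)) (t2_inv e) (ip_t2 e)
    hAN (h2 e)
  have k4 := fun e => wt_diff A N (t4 e) d4 (fun c => e * c.2 (Fin.last b)) (t4_inv e) (ip_t4 e)
    hAN (h4 e)
  -- first two inequalities
  have i1 : xA ≤ 11 / 10 * xC + 11 * K := by
    refine transport F d1 d1_inj (fun _ => sg 0) (fun _ => sg_cases _) K k1 RA RC ?_
    intro c hc
    simp only [hRA, hRC, Finset.mem_filter, Finset.mem_univ, true_and] at hc ⊢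
    have e : dg (c.2 + c.1) = dg c.1 := by rw [add_comm]; exact dg_add_of_lt hc
    refine ⟨e.symm, fun h => ?_⟩
    have h5 : c.1 = 0 := congrArg Prod.fst h
    rw [h5] at hc
    simp [dg] at hc
  have i2 : xB ≤ 11 / 10 * xC + 11 * K := by
    refine transport F d3 d3_inj (fun _ => sg 0) (fun _ => sg_cases _) K k3 RB RC ?_
    intro c hc
    simp only [hRB, hRC, Finset.mem_filter, Finset.mem_univ, true_and] at hc ⊢
    have e : dg (c.1 + c.2) = dg c.2 := by rw [add_comm]; exact dg_add_of_lt hc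
    refine ⟨e, fun h => ?_⟩
    have h5 : c.2 = 0 := congrArg Prod.snd h
    rw [h5] at hc
    simp [dg] at hc
  -- mass on the vectors with nonzero last coordinate
  have par : ∀ (d : V b × V b → V b × V b) (g : V b × V b → ZMod 2),
      (∀ e : ZMod 2, ∑ c, (F c - sg (e * g c) * F (d c)) ^ 2 ≤ K) →
      ∑ c ∈ univ.filter (fun c => g c ≠ 0), F c ^ 2 ≤ K := by
    intro d g hg
    have h5 := hg 0
    have h6 := hg 1
    have h7 : ∀ c, g c ≠ 0 → F c ^ 2 ≤ ((F c - sg (0 * g c) * F (d c)) ^ 2 +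
        (F c - sg (1 * g c) * F (d c)) ^ 2) / 2 := by
      intro c hc
      have h8 := (z2 (g c)).resolve_left hc
      rw [h8, zero_mul, one_mul, sg_zero, sg_one]
      nlinarith [sq_nonneg (F (d c))]
    calc ∑ c ∈ univ.filter (fun c => g c ≠ 0), F c ^ 2
        ≤ ∑ c ∈ univ.filter (fun c => g c ≠ 0), ((F c - sg (0 * g c) * F (d c)) ^ 2 +
        (F c - sg (1 * g c) * F (d c)) ^ 2) / 2 :=
          Finset.sum_le_sum fun c hc => h7 c (by simpa using hc)
      _ ≤ ∑ c, ((F c - sg (0 * g c) * F (d c)) ^ 2 +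
        (F c - sg (1 * g c) * F (d c)) ^ 2) / 2 :=
          Finset.sum_le_sum_of_subset_of_nonneg (Finset.subset_univ _) fun _ _ _ => by positivity
      _ = (∑ c, (F c - sg (0 * g c) * F (d c)) ^ 2 +
        ∑ c, (F c - sg (1 * g c) * F (d c)) ^ 2) / 2 := by
          rw [← Finset.sum_add_distrib, Finset.sum_div]
      _ ≤ K := by linarith
  have i5 := par d2 (fun c => c.1 (Fin.last b)) k2
  have i6 := par d4 (fun c => c.2 (Fin.last b)) k4
  have split : ∀ (R P : Finset (V b × V b)) (p : V b × V b → Prop) [DecidablePred p],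
      (∀ c, ¬ p c → c ∈ P) → ∑ c ∈ R, F c ^ 2 ≤
        ∑ c ∈ R.filter p, F c ^ 2 + ∑ c ∈ P, F c ^ 2 := by
    intro R P p _ hp
    rw [← Finset.sum_filter_add_sum_filter_not R p]
    refine add_le_add_right ?_ _
    refine Finset.sum_le_sum_of_subset_of_nonneg ?_ fun _ _ _ => sq_nonneg _
    intro c hc
    exact hp c (Finset.mem_filter.1 hc).2
  have dis : Disjoint RA RC := by
    rw [Finset.disjoint_left]
    intro c h5 h6
    simp only [hRA, hRC, Finset.mem_filter, Finset.mem_univ, true_and] at h5 h6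
    omega
  have dis' : Disjoint RB RC := by
    rw [Finset.disjoint_left]
    intro c h5 h6
    simp only [hRB, hRC, Finset.mem_filter, Finset.mem_univ, true_and] at h5 h6
    omega
  have i3 : xA + xC ≤ 11 / 10 * xB + 12 * K := by
    have e1 : xA + xC = ∑ c ∈ RA ∪ RC, F c ^ 2 := (Finset.sum_union dis).symm
    have e2 := split (RA ∪ RC) (univ.filter fun c => c.1 (Fin.last b) ≠ 0)
      (fun c => c.1 (Fin.last b) = 0) (fun c hc => by simpa using hc)
    have e3 : ∑ c ∈ (RA ∪ RC).filter (fun c => c.1 (Fin.last b) = 0), F c ^ 2 ≤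
        11 / 10 * xB + 11 * K := by
      refine transport F d2 d2_inj (fun c => sg (0 * c.1 (Fin.last b))) (fun _ => sg_cases _) K
        (k2 0) _ RB ?_
      intro c hc
      simp only [hRA, hRB, hRC, Finset.mem_filter, Finset.mem_union, Finset.mem_univ,
        true_and] at hc ⊢
      obtain ⟨hc, hl⟩ := hc
      have hne : c.1 ≠ 0 := by
        intro h0
        rcases hc with hc | ⟨hc, hc'⟩
        · rw [h0] at hc
          simp [dg] at hc
        · have : c.2 = 0 := by
            by_contra h5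
            have := dg_pos h5
            rw [← hc, h0] at this
            simp [dg] at this
          exact hc' (Prod.ext h0 this)
      have h5 := dg_up hne hl
      have h6 : dg c.2 ≤ dg c.1 := by rcases hc with hc | ⟨hc, -⟩ <;> omega
      show dg c.1 < dg (c.2 + up c.1)
      rw [add_comm, dg_add_of_lt (by omega), h5]
      omega
    linarith
  have i4 : xB + xC ≤ 11 / 10 * xA + 12 * K := by
    have e1 : xB + xC = ∑ c ∈ RB ∪ RC, F c ^ 2 := (Finset.sum_union dis').symm
    have e2 := split (RB ∪ RC) (univ.filter fun c => c.2 (Fin.last b) ≠ 0)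
      (fun c => c.2 (Fin.last b) = 0) (fun c hc => by simpa using hc)
    have e3 : ∑ c ∈ (RB ∪ RC).filter (fun c => c.2 (Fin.last b) = 0), F c ^ 2 ≤
        11 / 10 * xA + 11 * K := by
      refine transport F d4 d4_inj (fun c => sg (0 * c.2 (Fin.last b))) (fun _ => sg_cases _) K
        (k4 0) _ RA ?_
      intro c hc
      simp only [hRA, hRB, hRC, Finset.mem_filter, Finset.mem_union, Finset.mem_univ,
        true_and] at hc ⊢
      obtain ⟨hc, hl⟩ := hc
      have hne : c.2 ≠ 0 := by
        intro h0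
        rcases hc with hc | ⟨hc, hc'⟩
        · rw [h0] at hc
          simp [dg] at hc
        · have : c.1 = 0 := by
            by_contra h5
            have := dg_pos h5
            rw [hc, h0] at this
            simp [dg] at this
          exact hc' (Prod.ext this h0)
      have h5 := dg_up hne hl
      have h6 : dg c.1 ≤ dg c.2 := by rcases hc with hc | ⟨hc, -⟩ <;> omega
      show dg c.2 < dg (c.1 + up c.2)
      rw [add_comm, dg_add_of_lt (by omega), h5]
      omega
    linarith
  -- the total mass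
  have tot : ∑ c, F c ^ 2 = 4 ^ (b + 1) * (A.card : ℝ) := by
    rw [hF, parseval, ind_sq]
  have F0 : F 0 = A.card := by
    have : ∀ w : V b × V b, ip 0 w = 0 := fun w => by simp [ip]
    simp only [hF, wt, this, sg_zero, mul_one]
    simp only [ind, Finset.sum_ite_mem, Finset.univ_inter, Finset.sum_const, nsmul_eq_mul, mul_one]
  have tot2 : ∑ c, F c ^ 2 ≤ F 0 ^ 2 + (xA + xB + xC) := by
    have h5 : (univ : Finset (V b × V b)) ⊆ {0} ∪ (RA ∪ (RB ∪ RC)) := by
      intro c _
      simp only [hRA, hRB, hRC, Finset.mem_filter, Finset.mem_union, Finset.mem_univ, true_and,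
        Finset.mem_singleton]
      by_cases h0 : c = 0
      · exact Or.inl h0
      · rcases lt_trichotomy (dg c.1) (dg c.2) with h | h | h <;> simp [h, h0]
    calc ∑ c, F c ^ 2 ≤ ∑ c ∈ {0} ∪ (RA ∪ (RB ∪ RC)), F c ^ 2 :=
          Finset.sum_le_sum_of_subset_of_nonneg h5 fun _ _ _ => sq_nonneg _
      _ ≤ ∑ c ∈ {0}, F c ^ 2 + (∑ c ∈ RA, F c ^ 2 + (∑ c ∈ RB, F c ^ 2 + ∑ c ∈ RC, F c ^ 2)) := by
          have u : ∀ P Q : Finset (V b × V b), ∑ c ∈ P ∪ Q, F c ^ 2 ≤
              ∑ c ∈ P, F c ^ 2 + ∑ c ∈ Q, F c ^ 2 := by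
            intro P Q
            rw [← Finset.sum_union_inter]
            have : 0 ≤ ∑ c ∈ P ∩ Q, F c ^ 2 := Finset.sum_nonneg fun _ _ => sq_nonneg _
            linarith
          have u1 := u {0} (RA ∪ (RB ∪ RC))
          have u2 := u RA (RB ∪ RC)
          have u3 := u RB RC
          linarith
      _ = F 0 ^ 2 + (xA + xB + xC) := by
          rw [Finset.sum_singleton]
          ring
  have hA' : 2 * (A.card : ℝ) ≤ 4 ^ (b + 1) := by exact_mod_cast hA
  have hA0 : (0 : ℝ) ≤ A.card := Nat.cast_nonneg _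
  have hX : (4 : ℝ) ^ (b + 1) * A.card ≤ 2 * (xA + xB + xC) := by
    rw [tot, F0] at tot2
    nlinarith
  have hsum : xA + xB + xC ≤ 70 * K := by linarith
  have h4p : (0 : ℝ) < 4 ^ (b + 1) := by positivity
  have hfin : (4 : ℝ) ^ (b + 1) * A.card ≤ 4 ^ (b + 1) * (280 * ((N.card : ℝ) - A.card)) := by
    rw [hK] at hsum
    linarith
  have hfin2 := le_of_mul_le_mul_left hfin h4p
  have : (301 : ℝ) * A.card ≤ 300 * N.card := by linarith
  exact_mod_cast this

end Pool.Agent.Seat68.RC
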